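import Mathlib
import Pool.Agent.Helper669.KDefs
import Pool.Agent.W873.Tp.Large

set_option autoImplicit false

/-!
# The splitting number of a large cardinal in a generic extension: definitions

The forcing relation is the one of `Pool.Agent.Helper669.Forcing`: a sentence is represented by
the set of the conditions which force it, and a name of a subset of `X` is a map `X → Set P`;
the named set is `{x | the generic filter meets Y x}`.
-/

namespace Pool.Agent.Helper403.SZ

open Cardinal Set Pool.Agent.Helper669.Forcing Pool.Agent.Helper669.K Pool.Agent.W873.Tp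

/-- The `n`-th cardinal successor of `μ`. -/
noncomputable def plus (μ : Cardinal.{0}) : ℕ → Cardinal.{0}
  | 0 => μ
  | n + 1 => Order.succ (plus μ n)

/-- The cardinal `μ^{+ω}`, the supremum of the finite successors of `μ`. -/
noncomputable def plusOmega (μ : Cardinal.{0}) : Cardinal.{0} := ⨆ n, plus μ n

section statements

variable {P : Type} [Preorder P]

/-- The named set `S` splits the named set `A` of elements of `K`: both the intersection of `A`
with `S` and the intersection of `A` with the complement of `S` have the cardinality of `K`. -/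
def Splits {K : Type} (S A : K → Set P) : Set P :=
  fand (HasFullSize fun a => fand (meets (A a)) (meets (S a)))
    (HasFullSize fun a => fand (meets (A a)) (fnot (meets (S a))))

/-- In the extension there is a family of subsets of `κ` of size `κ`, indexed by `μ`, such that
each subset of `κ` of size `κ` is split by a member of the family. -/
def SplittingFamily (P : Type) [Preorder P] (κ μ : Cardinal.{0}) : Set P :=
  fex fun F : μ.out → κ.ord.ToType → Set P =>
    fand (fall fun i => HasFullSize (F i))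
      (fall fun A : κ.ord.ToType → Set P => fimp (HasFullSize A) (fex fun i => Splits (F i) A))

/-- In the extension the splitting number of `κ` is `l`: there is a splitting family indexed by
`l`, and for no `μ < l` there is one indexed by `μ`. -/
def SplittingNumberIs (P : Type) [Preorder P] (κ l : Cardinal.{0}) : Set P :=
  fand (SplittingFamily P κ l)
    (fall fun μ : Cardinal.{0} => fall fun _ : μ < l => fnot (SplittingFamily P κ μ))

/-- All cardinals from `κ` on stay cardinals: for `κ ≤ μ < ν` there is no map from `μ` onto `ν`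
in the extension. -/
def PreservesFrom (P : Type) [Preorder P] (κ : Cardinal.{0}) : Set P :=
  fall fun μ : Cardinal.{0} => fall fun ν : Cardinal.{0} => fall fun _ : κ ≤ μ =>
    fall fun _ : μ < ν => fnot (fex fun F : μ.out → ν.out → Set P => fand (IsFun F) (IsOnto F))

end statements

/-! ### Named orders and two step iterations -/

/-- An `R`-name of a preorder on the set `Θ`: `rel x y` is the set of the conditions which
force `x ≤ y`. -/
structure NOrd (R : Type) [Preorder R] (Θ : Type) where
  /-- the conditions forcing `x ≤ y` -/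
  rel : Θ → Θ → Set R
  refl : ∀ x r, r ∈ rel x x
  trans : ∀ x y z r, r ∈ rel x y → r ∈ rel y z → r ∈ rel x z
  down : ∀ x y, Down (rel x y)

section

variable {R : Type} [Preorder R] {Θ : Type}

/-- The two step iteration of `R` and the named preorder. -/
def Two (_N : NOrd R Θ) : Type := R × Θ

instance (N : NOrd R Θ) : Preorder (Two N) where
  le p q := p.1 ≤ q.1 ∧ p.1 ∈ N.rel p.2 q.2
  le_refl p := ⟨le_rfl, N.refl _ _⟩
  le_trans a b c h h' := ⟨h.1.trans h'.1, N.trans _ _ _ _ h.2 (N.down _ _ _ h'.2 _ h.1)⟩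

theorem Two.le_def {N : NOrd R Θ} {p q : Two N} : p ≤ q ↔ p.1 ≤ q.1 ∧ p.1 ∈ N.rel p.2 q.2 :=
  Iff.rfl

/-- `D` is (the name of) a set of elements of `Θ` (`(t, x) ∈ D`: the condition `t` puts `x` into the set)
which is forced to be directed. -/
def ForcedDirected (N : NOrd R Θ) (D : Set (R × Θ)) : Prop :=
  ∀ a ∈ D, ∀ b ∈ D, ∀ t, t ≤ a.1 → t ≤ b.1 →
    ∃ t' ≤ t, ∃ c ∈ D, t' ≤ c.1 ∧ t' ∈ N.rel c.2 a.2 ∧ t' ∈ N.rel c.2 b.2

/-- Names of directed sets given by fewer than `μ` pairs have lower bounds. -/
def NClosed (μ : Cardinal.{0}) (N : NOrd R Θ) : Prop :=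
  ∀ D : Set (R × Θ), #D < μ → ForcedDirected N D → ∃ m, ∀ a ∈ D, a.1 ∈ N.rel m a.2

end

/-- among more than `κ` conditions two are compatible -/
def CC (P : Type) [Preorder P] (κ : Cardinal.{0}) : Prop :=
  ∀ (ι : Type) (f : ι → P), κ < #ι → ∃ i j, i ≠ j ∧ ∃ r, r ≤ f i ∧ r ≤ f j

/-- among `κ` or more conditions two are compatible -/
def CCS (P : Type) [Preorder P] (κ : Cardinal.{0}) : Prop :=
  ∀ (ι : Type) (f : ι → P), κ ≤ #ι → ∃ i j, i ≠ j ∧ ∃ r, r ≤ f i ∧ r ≤ f j

/-- `d` is (as an ordinal) an inaccessible cardinal -/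
structure IsD {κ : Cardinal.{0}} (d : κ.ord.ToType) : Prop where
  inacc : (#(Iio d)).IsInaccessible
  init : ∀ a < d, #(Iio a) < #(Iio d)
  bdd : ∀ S : Set κ.ord.ToType, (∀ a ∈ S, a < d) → #S < #(Iio d) → ∃ c < d, ∀ a ∈ S, a < c

/-- For inaccessible `γ < κ`, below every condition there is a condition `q'`, a natural number `n`
and names `F c` of subsets of `κ`, such that `q'` forces that each subset of `γ` is `F c ∩ γ` for
some `c < (2^|γ|)^{+n}`. -/
def PowSmall (κ : Cardinal.{0}) (P : Type) [Preorder P] : Prop :=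
  ∀ γ : κ.ord.ToType, IsD γ → ∀ q : P, ∃ q' ≤ q, ∃ n : ℕ,
    ∃ F : κ.ord.ToType → κ.ord.ToType → Set P, ∀ Y : κ.ord.ToType → Set P, ∀ q1 ≤ q',
      ∃ q2 ≤ q1, ∃ c, #(Iio c) < plus (2 ^ #(Iio γ)) n ∧
        ∀ β < γ, ∀ r ≤ q2, r ∈ meets (Y β) ↔ r ∈ meets (F c β)

/-- the conditions which force that the named set agrees with `b` below `γ` -/
def AgreeB {P : Type} [Preorder P] {K : Type} [LT K] (Y : K → Set P) (γ : K) (b : Set K) : Set P :=
  {q | ∀ β < γ, (β ∈ b → q ∈ meets (Y β)) ∧ (β ∉ b → q ∈ fnot (meets (Y β)))}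

/-- every subset of `κ` in the extension all of whose initial segments are in the ground model is
in the ground model -/
def NoFresh (κ : Cardinal.{0}) (P : Type) [Preorder P] : Prop :=
  ∀ (Y : κ.ord.ToType → Set P) (q : P), (∀ γ, ∀ q1 ≤ q, ∃ q2 ≤ q1, ∃ b, q2 ∈ AgreeB Y γ b) →
    ∃ q' ≤ q, ∃ b, ∀ γ, q' ∈ AgreeB Y γ b

/-- The names `X i` of subsets of `K` are forced to be pairwise different. -/
def Distinct {P : Type} [Preorder P] {K Λ : Type} (X : Λ → K → Set P) : Prop :=
  ∀ i j, i ≠ j → ∀ q : P, ∃ q' ≤ q, ∃ β, (q' ∈ meets (X i β) ∧ q' ∈ fnot (meets (X j β))) ∨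
    (q' ∈ meets (X j β) ∧ q' ∈ fnot (meets (X i β)))

/-- The properties of the preparatory forcing. -/
structure GoodPrep (κ : Cardinal.{0}) (R : Type) [Preorder R] : Prop where
  ne : Nonempty R
  size : #R ≤ κ
  cc : CCS R κ
  /-- small closed named orders keep `κ` measurable -/
  meas : ∀ (Θ : Type) (N : NOrd R Θ) (n : ℕ), NClosed κ N → CC (Two N) κ → #Θ ≤ plus (2 ^ κ) n →
    ∃ U : (κ.ord.ToType → Set (Two N)) → Set (Two N), ∀ q : Two N, q ∈ IsMeasure κ U
  /-- small closed named orders do not add fresh subsets of `κ` -/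
  fresh : ∀ (Θ : Type) (N : NOrd R Θ) (n : ℕ), NClosed κ N → CC (Two N) κ →
    #Θ ≤ plus (2 ^ κ) n → NoFresh κ (Two N)
  sigma : ∀ (Θ : Type) (N : NOrd R Θ), NClosed κ N → DirClosed ℵ₁ (Two N)
  pow : ∀ (Θ : Type) (N : NOrd R Θ), NClosed κ N → PowSmall κ (Two N)

end Pool.Agent.Helper403.SZ
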