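import Mathlib
import Pool.Agent.Helper403_SZ.Defs

set_option autoImplicit false

/-!
# The statements of the three parts and the main theorem derived from them
-/

namespace Pool.Agent.Helper403.SZ

open Cardinal Set Pool.Agent.Helper669.Forcing Pool.Agent.Helper669.K Pool.Agent.W873.Tp

def Stmt0 : Prop := ∀ (κ : Cardinal.{0}), κ.IsInaccessible → ∀ (R : Type) [Preorder R] (Θ : Type)
  (N : NOrd R Θ), CCS R κ → NClosed κ N → ∀ q : Two N, q ∈ StaysRegular (Two N) κ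

def StmtA : Prop := ∀ (κ : Cardinal.{0}), κ.IsInaccessible → ∀ (P : Type) [Preorder P],
  DirClosed ℵ₁ P → (∀ q : P, q ∈ StaysRegular P κ) → CC P κ → PowSmall κ P → NoFresh κ P →
  ∀ (Λ : Type) (X : Λ → κ.ord.ToType → Set P), #Λ = plusOmega (2 ^ κ) → Distinct X →
  ∀ q : P, q ∈ SplittingFamily P κ (plusOmega (2 ^ κ))

def StmtB : Prop := ∀ (κ : Cardinal.{0}), κ.IsInaccessible → ∀ (R : Type) [Preorder R],
  GoodPrep κ R → ∃ (Θ : Type) (N : NOrd R Θ), Nonempty Θ ∧ NClosed κ N ∧ CC (Two N) κ ∧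
    NoFresh κ (Two N) ∧
    (∃ (Λ : Type) (X : Λ → κ.ord.ToType → Set (Two N)), #Λ = plusOmega (2 ^ κ) ∧ Distinct X) ∧
    ∀ μ < plusOmega (2 ^ κ), ∀ q : Two N, q ∈ fnot (SplittingFamily (Two N) κ μ)

def StmtC : Prop := ∀ (κ : Cardinal.{0}), IsSupercompact κ →
  ∃ (R : Type) (_ : Preorder R), GoodPrep κ R

def StmtCard : Prop := ∀ (κ : Cardinal.{0}), κ.IsInaccessible → ∀ (P : Type) [Preorder P],
  CC P κ → ∀ q : P, q ∈ PreservesFrom P κ

def StmtIn : Prop := ∀ (κ : Cardinal.{0}), IsSupercompact κ → κ.IsInaccessible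

theorem main_of (h0 : Stmt0) (hA : StmtA) (hB : StmtB) (hC : StmtC) (hcard : StmtCard)
    (hin : StmtIn) (κ : Cardinal.{0}) (hκ : IsSupercompact κ) :
    ∃ (P : Type) (_ : Preorder P), Nonempty P ∧ ∀ p : P, p ∈ StaysRegular P κ ∧
      p ∈ PreservesFrom P κ ∧ p ∈ SplittingNumberIs P κ (plusOmega (2 ^ κ)) := by
  obtain ⟨R, _, hR⟩ := hC κ hκ
  have hi := hin κ hκ
  obtain ⟨Θ, N, hne, hN, hcc, hfr, ⟨Λ, X, hΛ, hX⟩, hlow⟩ := hB κ hi R hR
  have hreg := h0 κ hi R Θ N hR.cc hN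
  refine ⟨Two N, inferInstance, ?_, fun p => ⟨hreg p, hcard κ hi (Two N) hcc p, ?_, ?_⟩⟩
  · obtain ⟨r⟩ := hR.ne
    obtain ⟨x⟩ := hne
    exact ⟨(r, x)⟩
  · exact hA κ hi (Two N) (hR.sigma Θ N hN) hreg hcc (hR.pow Θ N hN) hfr Λ X hΛ hX p
  · exact fun μ hμ => hlow μ hμ p

end Pool.Agent.Helper403.SZ
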