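import Mathlib
import Pool.Agent.Helper403_SZ.Stmts

set_option autoImplicit false

/-!
# The upper bound: statements of the jobs
-/

namespace Pool.Agent.Helper403.SZ

open Cardinal Set Pool.Agent.Helper669.Forcing Pool.Agent.Helper669.K

/-- Terms for functions from `κ` to `κ` in the extension: `Val s ξ γ` is the set of conditions
which decide that the value of `s` at `ξ` is `γ`. -/
structure Terms (κ : Cardinal.{0}) (P : Type) [Preorder P] (Λ : Type)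
    (X : Λ → κ.ord.ToType → Set P) where
  T : Type
  card : #T ≤ plusOmega (2 ^ κ)
  Val : T → κ.ord.ToType → κ.ord.ToType → Set P
  down : ∀ s ξ γ, Down (Val s ξ γ)
  fn : ∀ s ξ γ γ' q, q ∈ Val s ξ γ → q ∈ Val s ξ γ' → γ = γ'
  dense : ∀ s ξ q, ∃ q' ≤ q, ∃ γ, q' ∈ Val s ξ γ
  /-- the identity -/
  idt : T
  val_idt : ∀ ξ q, q ∈ Val idt ξ ξ
  /-- constant functions -/
  cst : κ.ord.ToType → T
  val_cst : ∀ c ξ q, q ∈ Val (cst c) ξ c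
  /-- composition with the functions of two variables of the ground model -/
  op : (κ.ord.ToType → κ.ord.ToType → κ.ord.ToType) → T → T → T
  val_op : ∀ g s s' ξ γ γ' q, q ∈ Val s ξ γ → q ∈ Val s' ξ γ' → q ∈ Val (op g s s') ξ (g γ γ')
  /-- the conditions which force that the power set of `γ` has size at most `(2^|γ|)^{+n}` -/
  NN : κ.ord.ToType → ℕ → Set P
  NN_down : ∀ γ n, Down (NN γ n)
  NN_dense : ∀ γ, IsD γ → ∀ q, ∃ q' ≤ q, ∃ n, q' ∈ NN γ n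
  NN_fn : ∀ γ, IsD γ → ∀ q n n', q ∈ NN γ n → q ∈ NN γ n' → n = n'
  /-- the code of `X i ∩ s ξ` -/
  code : Λ → T → T
  code_lt : ∀ i s ξ γ c n q, IsD γ → q ∈ Val s ξ γ → q ∈ NN γ n →
    q ∈ Val (code i s) ξ c → #(Iio c) < plus (2 ^ #(Iio γ)) n
  code_inj : ∀ i j s ξ γ c q, IsD γ → q ∈ Val s ξ γ → q ∈ Val (code i s) ξ c →
    q ∈ Val (code j s) ξ c → ∀ β < γ, ∀ r ≤ q, r ∈ meets (X i β) ↔ r ∈ meets (X j β)

/-- job A1: there are terms -/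
def StmtA1 : Prop := ∀ (κ : Cardinal.{0}), κ.IsInaccessible → ∀ (P : Type) [Preorder P],
  PowSmall κ P → ∀ (Λ : Type) (X : Λ → κ.ord.ToType → Set P), #Λ = plusOmega (2 ^ κ) →
  Nonempty (Terms κ P Λ X)

/-- job A3: the combinatorial core, CLAIM(k) of the paper proof. `CV s c` means that `c` is the
value of `s`, in the base case. -/
def StmtA3 : Prop := ∀ (κ μ : Cardinal.{0}), ℵ₀ ≤ κ → κ ≤ μ → ∀ (P : Type) [Preorder P],
  CC P κ → ∀ (T C : Type) (CV : T → C → Set P) (EQ LT : T → T → Set P) (Bd : ℕ → T → Set P)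
  (hh : T → T → T) (q1 : P), #C ≤ μ → (∀ s c, Down (CV s c)) → (∀ s s', Down (EQ s s')) →
  (∀ s s', Down (LT s s')) → (∀ k s, Down (Bd k s)) →
  (∀ s s', ∀ q ≤ q1, ∃ q' ≤ q, q' ∈ LT s s' ∨ q' ∈ EQ s s' ∨ q' ∈ LT s' s) →
  (∀ s, ∀ q ≤ q1, q ∈ Bd 0 s → ∃ q' ≤ q, ∃ c, q' ∈ CV s c) →
  (∀ s s' c, ∀ q ≤ q1, q ∈ CV s c → q ∈ CV s' c → ∃ q' ≤ q, q' ∈ EQ s s') →
  (∀ s s', ∀ q ≤ q1, q ∈ EQ s s' → q ∈ EQ s' s) →
  (∀ k s s', ∀ q ≤ q1, q ∈ LT s' s → q ∈ Bd (k + 1) s → q ∈ Bd k (hh s s')) →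
  (∀ s s' s'', ∀ q ≤ q1, q ∈ LT s' s → q ∈ LT s'' s → q ∈ EQ (hh s s') (hh s s'') →
    q ∈ EQ s' s'') →
  ∀ (k : ℕ) (I : Type) (r : I → P) (s : I → T), #I = plus μ (k + 1) → (∀ i, r i ≤ q1) →
    (∀ i, r i ∈ Bd k (s i)) → ∃ i j, i ≠ j ∧ ∃ r', r' ≤ r i ∧ r' ≤ r j ∧ r' ∈ EQ (s i) (s j)

/-- job A2: the upper bound from the terms, the core, A4 and A5 -/
def StmtA2 : Prop := ∀ (κ : Cardinal.{0}), κ.IsInaccessible → ∀ (P : Type) [Preorder P],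
  DirClosed ℵ₁ P → (∀ q : P, q ∈ StaysRegular P κ) → CC P κ → NoFresh κ P →
  ∀ (Λ : Type) (X : Λ → κ.ord.ToType → Set P), #Λ = plusOmega (2 ^ κ) → Distinct X →
  Terms κ P Λ X → ∀ q : P, q ∈ SplittingFamily P κ (plusOmega (2 ^ κ))

theorem partA_of (h1 : StmtA1) (h2 : StmtA2) : StmtA := by
  intro κ hκ P _ hσ hreg hcc hpow hfr Λ X hΛ hX q
  obtain ⟨T⟩ := h1 κ hκ P hpow Λ X hΛ
  exact h2 κ hκ P hσ hreg hcc hfr Λ X hΛ hX T q

end Pool.Agent.Helper403.SZ
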