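import Mathlib
import Pool.Agent.Helper403_SZ.AStmts
import Pool.Agent.Helper669.KA2
import Pool.Agent.Helper669.KA4
import Pool.Agent.W873.Tp.Large2

set_option autoImplicit false

/-!
# The upper bound: almost everywhere on an unsplit set
-/

namespace Pool.Agent.Helper403.SZ.TA2

open Cardinal Set Pool.Agent.Helper669.Forcing Pool.Agent.Helper669.K Pool.Agent.W873.Tp

section HH

variable {κ : Cardinal.{0}}

theorem exists_small_inj (γ : κ.ord.ToType) : ∃ g : Iio γ → κ.ord.ToType,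
    Function.Injective g ∧ ∀ x, #(Iio (g x)) < #(Iio γ) := by
  have h1 : (#(Iio γ)).ord ≤ κ.ord := ord_le_ord.2 (mk_Iio_toType_ord_lt γ).le
  have h2 : #(Iio γ) = #(#(Iio γ)).ord.ToType := (mk_ord_toType _).symm
  obtain ⟨e⟩ := Cardinal.eq.1 h2
  refine ⟨fun x => Ordinal.initialSegToType h1 (e x), ?_, fun x => ?_⟩
  · exact (Ordinal.initialSegToType h1).injective.comp e.injective
  · rw [← InitialSeg.image_Iio]
    exact mk_image_le.trans_lt (mk_Iio_toType_ord_lt _)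

open Classical in
/-- `H γ γ'` is the image of `γ'` under an injection of the predecessors of `γ` into its
cardinality -/
noncomputable def H (γ γ' : κ.ord.ToType) : κ.ord.ToType :=
  if h : γ' < γ then (exists_small_inj γ).choose ⟨γ', h⟩ else γ

theorem H_lt {γ γ' : κ.ord.ToType} (h : γ' < γ) : #(Iio (H γ γ')) < #(Iio γ) := by
  rw [H, dif_pos h]
  exact (exists_small_inj γ).choose_spec.2 _

theorem H_inj {γ γ' γ'' : κ.ord.ToType} (h : γ' < γ) (h' : γ'' < γ) (he : H γ γ' = H γ γ'') :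
    γ' = γ'' := by
  rw [H, H, dif_pos h, dif_pos h'] at he
  exact Subtype.ext_iff.1 ((exists_small_inj γ).choose_spec.1 he)

end HH

section AE

variable {P : Type} [Preorder P] {κ : Cardinal.{0}}

/-- the condition forces `φ ξ` for all `ξ > b` in `A` -/
def AEb (A φ : κ.ord.ToType → Set P) (b : κ.ord.ToType) : Set P :=
  {q | ∀ ξ, b < ξ → ∀ r ≤ q, r ∈ meets (A ξ) → ∃ r' ≤ r, r' ∈ φ ξ}

/-- the condition forces `φ ξ` for almost all `ξ` in `A`, with a bound from the ground model -/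
def AE (A φ : κ.ord.ToType → Set P) : Set P := {q | ∃ b, q ∈ AEb A φ b}

theorem down_AEb (A φ : κ.ord.ToType → Set P) (b : κ.ord.ToType) : Down (AEb A φ b) :=
  fun _ hp _ hq ξ hξ r hr h => hp ξ hξ r (hr.trans hq) h

theorem down_AE (A φ : κ.ord.ToType → Set P) : Down (AE A φ) :=
  fun _ hp _ hq => hp.elim fun b hb => ⟨b, down_AEb A φ b _ hb _ hq⟩

theorem AEb_mono {A φ : κ.ord.ToType → Set P} {b b' : κ.ord.ToType} (h : b ≤ b') {q : P}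
    (hq : q ∈ AEb A φ b) : q ∈ AEb A φ b' :=
  fun ξ hξ r hr hm => hq ξ (h.trans_lt hξ) r hr hm

theorem AE_map {A φ χ : κ.ord.ToType → Set P} {q : P} (h : q ∈ AE A φ)
    (hm : ∀ ξ, ∀ r ≤ q, r ∈ φ ξ → ∃ r' ≤ r, r' ∈ χ ξ) : q ∈ AE A χ := by
  obtain ⟨b, hb⟩ := h
  refine ⟨b, fun ξ hξ r hr hr' => ?_⟩
  obtain ⟨r1, hr1, h1⟩ := hb ξ hξ r hr hr'
  obtain ⟨r2, hr2, h2⟩ := hm ξ r1 (hr1.trans hr) h1
  exact ⟨r2, hr2.trans hr1, h2⟩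

theorem AE_and {A φ ψ : κ.ord.ToType → Set P} {q : P} (hφ : ∀ ξ, Down (φ ξ)) (h1 : q ∈ AE A φ)
    (h2 : q ∈ AE A ψ) : q ∈ AE A (fun ξ => φ ξ ∩ ψ ξ) := by
  obtain ⟨b1, hb1⟩ := h1
  obtain ⟨b2, hb2⟩ := h2
  refine ⟨max b1 b2, fun ξ hξ r hr hr' => ?_⟩
  obtain ⟨r1, hr1, h1⟩ := hb1 ξ ((le_max_left _ _).trans_lt hξ) r hr hr'
  obtain ⟨r2, hr2, h2⟩ := hb2 ξ ((le_max_right _ _).trans_lt hξ) r1 (hr1.trans hr)
    (down_meets _ _ hr' _ hr1)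
  exact ⟨r2, hr2.trans hr1, hφ ξ _ h1 _ hr2, h2⟩

theorem exists_mem_gt (hκ : ℵ₀ ≤ κ) {A : κ.ord.ToType → Set P} {p : P} (hA : p ∈ HasFullSize A)
    {q : P} (hq : q ≤ p) (b : κ.ord.ToType) : ∃ r ≤ q, ∃ ξ, b < ξ ∧ r ∈ meets (A ξ) := by
  have : NoMaxOrder κ.ord.ToType := Cardinal.noMaxOrder hκ
  obtain ⟨b', hb'⟩ := exists_gt b
  obtain ⟨r, hr, γ, hγ, hm⟩ := unb833 A p hA q hq b'
  exact ⟨r, hr, γ, hb'.trans_le hγ, hm⟩

theorem AE_point (hκ : ℵ₀ ≤ κ) {A φ : κ.ord.ToType → Set P} {p : P} (hA : p ∈ HasFullSize A)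
    {q : P} (hq : q ≤ p) (h : q ∈ AE A φ) (b : κ.ord.ToType) :
    ∃ r ≤ q, ∃ ξ, b < ξ ∧ r ∈ meets (A ξ) ∧ r ∈ φ ξ := by
  obtain ⟨b1, hb1⟩ := h
  obtain ⟨r, hr, ξ, hξ, hm⟩ := exists_mem_gt hκ hA hq (max b b1)
  obtain ⟨r1, hr1, h1⟩ := hb1 ξ ((le_max_right _ _).trans_lt hξ) r hr hm
  exact ⟨r1, hr1.trans hr, ξ, (le_max_left _ _).trans_lt hξ, down_meets _ _ hm _ hr1, h1⟩

/-- if no extension of `q` forces `B` to have full size, then some extension bounds `B` -/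
theorem bounded_of_not_full (hκ : ℵ₀ ≤ κ) (hreg : ∀ q : P, q ∈ StaysRegular P κ)
    (B : κ.ord.ToType → Set P) (q : P) (hq : q ∉ HasFullSize B) :
    ∃ q' ≤ q, ∃ β, ∀ r ≤ q', ∀ γ, β ≤ γ → r ∉ meets (B γ) := by
  by_contra hcon
  push Not at hcon
  exact hq (hasFullSize_of_unbounded hκ hreg B q hcon)

/-- fewer than `κ` statements at once, with a common bound -/
theorem AEb_forall (hreg : ∀ q : P, q ∈ StaysRegular P κ) {A : κ.ord.ToType → Set P} {J : Type}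
    (hJ : #J < κ) (φ : J → κ.ord.ToType → Set P) {q : P}
    (h : ∀ i, ∀ q1 ≤ q, ∃ q2 ≤ q1, q2 ∈ AE A (φ i)) :
    ∃ q' ≤ q, ∃ b, ∀ i, q' ∈ AEb A (φ i) b := by
  classical
  let e : (#J).out ≃ J := Cardinal.outMkEquiv
  let R : (#J).out → κ.ord.ToType → Set P := fun x y =>
    {r | r ∈ AEb A (φ (e x)) y ∧ ∀ y' < y, ∀ r' ≤ r, r' ∉ AEb A (φ (e x)) y'}
  have hR : ∀ x, ∀ r ≤ q, ∃ r' ≤ r, ∃ y, r' ∈ R x y := by
    intro x r hr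
    have hex : ∃ y, ∃ r' ≤ r, r' ∈ AEb A (φ (e x)) y := by
      obtain ⟨r', hr', y, hy⟩ := h (e x) r hr
      exact ⟨y, r', hr', hy⟩
    obtain ⟨y, ⟨r', hr', hy⟩, hmin⟩ := WellFounded.has_min (wellFounded_lt)
      {y | ∃ r' ≤ r, r' ∈ AEb A (φ (e x)) y} hex
    refine ⟨r', hr', y, hy, fun y' hy' r'' hr'' h => ?_⟩
    exact hmin y' ⟨r'', hr''.trans hr', h⟩ hy'
  have hfun : q ∈ IsFun R := by
    refine ⟨fun x => ?_, fun x y y' => ?_⟩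
    · refine mem_fex.2 fun r hr => ?_
      obtain ⟨r', hr', y, hy⟩ := hR x r hr
      exact ⟨r', hr', y, meets_of_mem hy⟩
    · refine mem_fimp.2 fun r _ hr => ⟨r, le_rfl, ?_⟩
      obtain ⟨r1, hr1, s1, hs1, h1⟩ := hr.1 r le_rfl
      obtain ⟨r2, hr2, s2, hs2, h2⟩ := hr.2 r1 hr1
      have h1' : r2 ≤ s1 := hr2.trans h1
      rcases lt_trichotomy y y' with h | h | h
      · exact absurd (down_AEb _ _ _ _ hs1.1 _ h1') (hs2.2 y h r2 h2)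
      · exact h
      · exact absurd (down_AEb _ _ _ _ hs2.1 _ h2) (hs1.2 y' h r2 h1')
  obtain ⟨q3, hq3, h3⟩ := mem_fimp.1 (hreg q _ hJ R) q le_rfl hfun
  obtain ⟨q4, hq4, b, hb⟩ := mem_fex.1 h3 q3 le_rfl
  refine ⟨q4, hq4.trans hq3, b, fun i ξ hξ r hr hm => ?_⟩
  obtain ⟨r2, hr2, y, hy⟩ := hR (e.symm i) r (hr.trans (hq4.trans hq3))
  have hyb : y < b := by
    obtain ⟨_, _, h⟩ := mem_fimp.1 (hb (e.symm i) y) r2 (hr2.trans hr) (meets_of_mem hy)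
    exact h
  obtain ⟨r3, hr3, h3⟩ := hy.1 ξ (hyb.trans hξ) r2 le_rfl (down_meets _ _ hm _ hr2)
  rw [Equiv.apply_symm_apply] at h3
  exact ⟨r3, hr3.trans hr2, h3⟩

end AE

section fam

variable {P : Type} [Preorder P] {κ : Cardinal.{0}}

/-- the name `G` if it has full size, everything otherwise -/
def fix (G : κ.ord.ToType → Set P) : κ.ord.ToType → Set P :=
  fun ξ => {q | q ∈ HasFullSize G ∧ q ∈ G ξ} ∪ fnot (HasFullSize G)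

theorem down_full (G : κ.ord.ToType → Set P) : Down (HasFullSize G) :=
  down_fall fun _ => down_fall fun _ => down_fnot _

theorem fix_full (hκ : ℵ₀ ≤ κ) (hreg : ∀ q : P, q ∈ StaysRegular P κ)
    (G : κ.ord.ToType → Set P) (hG : ∀ ξ, Down (G ξ)) (q : P) : q ∈ HasFullSize (fix G) := by
  refine hasFullSize_of_unbounded hκ hreg _ q fun q' _ β => ?_
  by_cases h : ∃ q'' ≤ q', q'' ∈ HasFullSize G
  · obtain ⟨q'', hq'', hf⟩ := h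
    obtain ⟨r, hr, γ, hγ, hm⟩ := unb833 G q'' hf q'' le_rfl β
    obtain ⟨r1, hr1, h1⟩ := exists_of_meets (hG γ) hm
    exact ⟨r1, hr1.trans (hr.trans hq''), γ, hγ,
      meets_of_mem (Or.inl ⟨down_full G _ hf _ (hr1.trans hr), h1⟩)⟩
  · push Not at h
    exact ⟨q', le_rfl, β, le_rfl, meets_of_mem (Or.inr h)⟩

/-- if `A` is not split by `fix G` then it is decided whether almost all elements of `A` are
in `G` or almost all are not in `G` -/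
theorem decide_of_unsplit (hκ : ℵ₀ ≤ κ) (hreg : ∀ q : P, q ∈ StaysRegular P κ)
    (G : κ.ord.ToType → Set P) (hG : ∀ ξ, Down (G ξ)) (A : κ.ord.ToType → Set P) (q : P)
    (hq : ∀ q' ≤ q, q' ∉ Splits (fix G) A) :
    ∃ q' ≤ q, q' ∈ AE A G ∨ q' ∈ AE A (fun ξ => fnot (G ξ)) := by
  by_cases h : ∃ q1 ≤ q, q1 ∈ HasFullSize G
  · obtain ⟨q1, hq1, hf⟩ := h
    have h1 := hq q1 hq1
    rw [Splits, mem_fand, not_and_or] at h1
    rcases h1 with h1 | h1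
    · obtain ⟨q2, hq2, β, hβ⟩ := bounded_of_not_full hκ hreg _ q1 h1
      refine ⟨q2, hq2.trans hq1, Or.inr ⟨β, fun ξ hξ r hr hr' => ?_⟩⟩
      refine ⟨r, le_rfl, fun s hs hsG => ?_⟩
      refine hβ s (hs.trans hr) ξ hξ.le (meets_of_mem ⟨down_meets _ _ hr' _ hs, ?_⟩)
      exact meets_of_mem (Or.inl ⟨down_full G _ hf _ (hs.trans (hr.trans hq2)), hsG⟩)
    · obtain ⟨q2, hq2, β, hβ⟩ := bounded_of_not_full hκ hreg _ q1 h1
      refine ⟨q2, hq2.trans hq1, Or.inl ⟨β, fun ξ hξ r hr hr' => ?_⟩⟩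
      by_contra hcon
      push Not at hcon
      refine hβ r hr ξ hξ.le (meets_of_mem ⟨hr', fun s hs hsm => ?_⟩)
      obtain ⟨s1, hs1, s2, hs2, h12⟩ := hsm s le_rfl
      rcases hs2 with hs2 | hs2
      · exact hcon s1 (hs1.trans hs) (hG ξ _ hs2.2 _ h12)
      · exact hs2 s1 h12 (down_full G _ hf _ (hs1.trans (hs.trans (hr.trans hq2))))
  · push Not at h
    obtain ⟨q2, hq2, β, hβ⟩ := bounded_of_not_full hκ hreg G q (h q le_rfl)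
    refine ⟨q2, hq2, Or.inr ⟨β, fun ξ hξ r hr hr' => ?_⟩⟩
    exact ⟨r, le_rfl, fun s hs hsG => hβ s (hs.trans hr) ξ hξ.le (meets_of_mem hsG)⟩

end fam

section main

variable {P : Type} [Preorder P] {κ : Cardinal.{0}} {Λ : Type} {X : Λ → κ.ord.ToType → Set P}
  (TT : Terms κ P Λ X)

/-- `s ξ < s' ξ` -/
def Gl (s s' : TT.T) (ξ : κ.ord.ToType) : Set P :=
  {q | ∃ γ γ', γ < γ' ∧ q ∈ TT.Val s ξ γ ∧ q ∈ TT.Val s' ξ γ'}

/-- `s ξ = s' ξ` -/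
def Ge (s s' : TT.T) (ξ : κ.ord.ToType) : Set P :=
  {q | ∃ γ, q ∈ TT.Val s ξ γ ∧ q ∈ TT.Val s' ξ γ}

/-- `n (t ξ) = m` -/
def Gn (t : TT.T) (m : ℕ) (ξ : κ.ord.ToType) : Set P :=
  {q | ∃ γ, q ∈ TT.Val t ξ γ ∧ q ∈ TT.NN γ m}

/-- the cardinality of `s ξ` is less than the `k`-th successor of the one of `t ξ` -/
def Gb (t : TT.T) (k : ℕ) (s : TT.T) (ξ : κ.ord.ToType) : Set P :=
  {q | ∃ γ c, q ∈ TT.Val t ξ γ ∧ q ∈ TT.Val s ξ c ∧ #(Iio c) < plus (2 ^ #(Iio γ)) k}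

theorem down_Gl (s s' : TT.T) (ξ : κ.ord.ToType) : Down (Gl TT s s' ξ) := by
  rintro q ⟨γ, γ', h, h1, h2⟩ q' hq'
  exact ⟨γ, γ', h, TT.down _ _ _ _ h1 _ hq', TT.down _ _ _ _ h2 _ hq'⟩

theorem down_Ge (s s' : TT.T) (ξ : κ.ord.ToType) : Down (Ge TT s s' ξ) := by
  rintro q ⟨γ, h1, h2⟩ q' hq'
  exact ⟨γ, TT.down _ _ _ _ h1 _ hq', TT.down _ _ _ _ h2 _ hq'⟩

theorem down_Gn (t : TT.T) (m : ℕ) (ξ : κ.ord.ToType) : Down (Gn TT t m ξ) := by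
  rintro q ⟨γ, h1, h2⟩ q' hq'
  exact ⟨γ, TT.down _ _ _ _ h1 _ hq', TT.NN_down _ _ _ h2 _ hq'⟩

theorem down_Gb (t : TT.T) (k : ℕ) (s : TT.T) (ξ : κ.ord.ToType) : Down (Gb TT t k s ξ) := by
  rintro q ⟨γ, c, h1, h2, h3⟩ q' hq'
  exact ⟨γ, c, TT.down _ _ _ _ h1 _ hq', TT.down _ _ _ _ h2 _ hq', h3⟩

/-- two values at once -/
theorem dense2 (s s' : TT.T) (ξ : κ.ord.ToType) (q : P) :
    ∃ q' ≤ q, ∃ γ γ', q' ∈ TT.Val s ξ γ ∧ q' ∈ TT.Val s' ξ γ' := by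
  obtain ⟨q1, hq1, γ, h1⟩ := TT.dense s ξ q
  obtain ⟨q2, hq2, γ', h2⟩ := TT.dense s' ξ q1
  exact ⟨q2, hq2.trans hq1, γ, γ', TT.down _ _ _ _ h1 _ hq2, h2⟩

variable {A : κ.ord.ToType → Set P} {p : P}

theorem tri (hdec : ∀ s s', ∀ q ≤ p, ∃ q' ≤ q, q' ∈ AE A (Gl TT s s') ∨
      q' ∈ AE A (fun ξ => fnot (Gl TT s s' ξ))) (s s' : TT.T) (q : P) (hq : q ≤ p) :
    ∃ q' ≤ q, q' ∈ AE A (Gl TT s s') ∨ q' ∈ AE A (Ge TT s s') ∨ q' ∈ AE A (Gl TT s' s) := by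
  obtain ⟨q1, hq1, h1⟩ := hdec s s' q hq
  rcases h1 with h1 | h1
  · exact ⟨q1, hq1, Or.inl h1⟩
  obtain ⟨q2, hq2, h2⟩ := hdec s' s q1 (hq1.trans hq)
  rcases h2 with h2 | h2
  · exact ⟨q2, hq2.trans hq1, Or.inr (Or.inr h2)⟩
  refine ⟨q2, hq2.trans hq1, Or.inr (Or.inl ?_)⟩
  refine AE_map (AE_and (fun ξ => down_fnot _) (down_AE _ _ _ h1 _ hq2) h2) ?_
  rintro ξ r hr ⟨hr1, hr2⟩
  obtain ⟨r1, hr1', γ, γ', hv, hv'⟩ := dense2 TT s s' ξ r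
  refine ⟨r1, hr1', ?_⟩
  rcases lt_trichotomy γ γ' with h | h | h
  · exact absurd ⟨γ, γ', h, hv, hv'⟩ (hr1 r1 hr1')
  · subst h
    exact ⟨γ, hv, hv'⟩
  · exact absurd ⟨γ', γ, h, hv', hv⟩ (hr2 r1 hr1')

theorem Ge_symm {s s' : TT.T} {q : P} (h : q ∈ AE A (Ge TT s s')) : q ∈ AE A (Ge TT s' s) :=
  AE_map h fun _ r _ hr => hr.elim fun γ hγ => ⟨r, le_rfl, γ, hγ.2, hγ.1⟩

theorem Ge_cst {s s' : TT.T} {c : κ.ord.ToType} {q : P} (h : q ∈ AE A (Ge TT s (TT.cst c)))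
    (h' : q ∈ AE A (Ge TT s' (TT.cst c))) : q ∈ AE A (Ge TT s s') := by
  refine AE_map (AE_and (fun ξ => down_Ge TT _ _ ξ) h h') ?_
  rintro ξ r hr ⟨⟨γ, h1, h2⟩, γ', h3, h4⟩
  have e1 := TT.fn _ _ _ _ _ h2 (TT.val_cst c ξ r)
  have e2 := TT.fn _ _ _ _ _ h4 (TT.val_cst c ξ r)
  subst e1
  subst e2
  exact ⟨r, le_rfl, _, h1, h3⟩

/-- `t` is not constant on an unbounded subset of `A` -/
def NC (A : κ.ord.ToType → Set P) (t : TT.T) (q : P) : Prop :=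
  ∀ q' ≤ q, ∀ c, q' ∉ AE A (Ge TT t (TT.cst c))

theorem NC_id (hκ : ℵ₀ ≤ κ) (hA : p ∈ HasFullSize A) : NC TT A TT.idt p := by
  intro q' hq' c h
  obtain ⟨r, hr, ξ, hξ, _, γ, h1, h2⟩ := AE_point hκ hA hq' h c
  have e1 := TT.fn _ _ _ _ _ h1 (TT.val_idt ξ r)
  have e2 := TT.fn _ _ _ _ _ h2 (TT.val_cst c ξ r)
  rw [← e1, e2] at hξ
  exact lt_irrefl _ hξ

/-- Step 1: a minimal nonconstant term -/
theorem exists_min (hκ : κ.IsInaccessible) (hσ : DirClosed ℵ₁ P) (hA : p ∈ HasFullSize A) :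
    ∃ q ≤ p, ∃ t, NC TT A t q ∧
      ∀ s, ∀ q' ≤ q, q' ∈ AE A (Gl TT s t) → ∃ q'' ≤ q', ∃ c, q'' ∈ AE A (Ge TT s (TT.cst c)) := by
  classical
  by_contra hcon
  push Not at hcon
  have hκ0 : ℵ₀ ≤ κ := hκ.1.le
  have hreg : κ.IsRegular := hκ.isRegular
  -- the descending sequence
  let Sd := {x : P × TT.T // x.1 ≤ p ∧ NC TT A x.2 x.1}
  have hstep : ∀ x : Sd, ∃ y : Sd, y.1.1 ≤ x.1.1 ∧ y.1.1 ∈ AE A (Gl TT y.1.2 x.1.2) := by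
    rintro ⟨⟨q, t⟩, hq, hnc⟩
    obtain ⟨s, q', hq', hlt, hnc'⟩ := hcon q hq t hnc
    exact ⟨⟨⟨q', s⟩, hq'.trans hq, hnc'⟩, hq', hlt⟩
  choose nx hnx1 hnx2 using hstep
  let f : ℕ → Sd := fun n => Nat.rec ⟨(p, TT.idt), le_rfl, NC_id TT hκ0 hA⟩ (fun _ x => nx x) n
  have hf : ∀ n, f (n + 1) = nx (f n) := fun n => rfl
  have hmono : ∀ n, (f (n + 1)).1.1 ≤ (f n).1.1 := fun n => by rw [hf]; exact hnx1 _
  have hlt : ∀ n, (f (n + 1)).1.1 ∈ AE A (Gl TT (f (n + 1)).1.2 (f n).1.2) := fun n => by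
    rw [hf]; exact hnx2 _
  have hanti : ∀ m n, m ≤ n → (f n).1.1 ≤ (f m).1.1 := by
    intro m n hmn
    induction hmn with
    | refl => exact le_rfl
    | step _ ih => exact (hmono _).trans ih
  obtain ⟨qs, hqs⟩ := hσ (Set.range fun n => (f n).1.1)
    (lt_of_le_of_lt Cardinal.mk_range_le (by
      rw [Cardinal.mk_nat]; exact Cardinal.aleph0_lt_aleph_one))
    (Set.range_nonempty _) (by
      rintro _ ⟨m, rfl⟩ _ ⟨n, rfl⟩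
      exact ⟨_, ⟨max m n, rfl⟩, hanti _ _ (le_max_left _ _), hanti _ _ (le_max_right _ _)⟩)
  have hqs' : ∀ n, qs ≤ (f n).1.1 := fun n => hqs _ ⟨n, rfl⟩
  choose b hb using hlt
  obtain ⟨B, hB⟩ := bdd_seq833 hreg hκ.1 b
  obtain ⟨q1, hq1, ξ, hξ, hm⟩ := exists_mem_gt hκ0 hA ((hqs' 0).trans (f 0).2.1) B
  obtain ⟨q2, hq2, h2⟩ := exists_forall_mem (κ := ℵ₁) (Cardinal.aleph0_lt_aleph_one).le hσ (N := ℕ)
    (by rw [Cardinal.mk_nat]; exact Cardinal.aleph0_lt_aleph_one)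
    (fun n => {r | ∃ γ, r ∈ TT.Val (f n).1.2 ξ γ})
    (fun n r hr r' hr' => hr.elim fun γ hγ => ⟨γ, TT.down _ _ _ _ hγ _ hr'⟩)
    (fun n q => TT.dense _ ξ q) q1
  choose γ hγ using h2
  have hdesc : ∀ n, γ (n + 1) < γ n := by
    intro n
    obtain ⟨r, hr, γ1, γ2, h12, hv1, hv2⟩ := hb n ξ ((hB n).trans_lt hξ) q2
      (hq2.trans (hq1.trans (hqs' (n + 1)))) (down_meets _ _ hm _ hq2)
    have e1 := TT.fn _ _ _ _ _ hv1 (TT.down _ _ _ _ (hγ (n + 1)) _ hr)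
    have e2 := TT.fn _ _ _ _ _ hv2 (TT.down _ _ _ _ (hγ n) _ hr)
    rw [← e1, ← e2]
    exact h12
  exact (RelEmbedding.natGT γ hdesc).not_wellFounded (wellFounded_lt)

/-- Step 2: a minimal nonconstant term is above all constants -/
theorem above_cst (hκ : κ.IsInaccessible) (hreg : ∀ q : P, q ∈ StaysRegular P κ)
    (hA : p ∈ HasFullSize A)
    (hdec : ∀ s s', ∀ q ≤ p, ∃ q' ≤ q, q' ∈ AE A (Gl TT s s') ∨
      q' ∈ AE A (fun ξ => fnot (Gl TT s s' ξ))) {t : TT.T} {q : P} (hqp : q ≤ p)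
    (hnc : NC TT A t q) (c : κ.ord.ToType) :
    ∀ q1 ≤ q, ∃ q2 ≤ q1, q2 ∈ AE A (Gl TT (TT.cst c) t) := by
  classical
  have hκ0 : ℵ₀ ≤ κ := hκ.1.le
  induction c using WellFoundedLT.induction with
  | _ c ih =>
  intro q1 hq1
  obtain ⟨q2, hq2, h2⟩ := tri TT hdec (TT.cst c) t q1 (hq1.trans hqp)
  rcases h2 with h2 | h2 | h2
  · exact ⟨q2, hq2, h2⟩
  · exact absurd (Ge_symm TT h2) (hnc q2 (hq2.trans hq1) c)
  exfalso
  obtain ⟨b2, hb2⟩ := h2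
  -- the named function of the bounds
  have hν : #(Iio c) < κ := mk_Iio_lt' c
  let e : (#(Iio c)).out ≃ Iio c := Cardinal.outMkEquiv
  let R : (#(Iio c)).out → κ.ord.ToType → Set P := fun x y =>
    {r | r ∈ AEb A (Gl TT (TT.cst (e x : κ.ord.ToType)) t) y ∧
      ∀ y' < y, ∀ r' ≤ r, r' ∉ AEb A (Gl TT (TT.cst (e x : κ.ord.ToType)) t) y'}
  have hR : ∀ x, ∀ r ≤ q2, ∃ r' ≤ r, ∃ y, r' ∈ R x y := by
    intro x r hr
    have hex : ∃ y, ∃ r' ≤ r, r' ∈ AEb A (Gl TT (TT.cst (e x : κ.ord.ToType)) t) y := by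
      obtain ⟨r', hr', y, hy⟩ := ih (e x) (e x).2 r (hr.trans (hq2.trans hq1))
      exact ⟨y, r', hr', hy⟩
    obtain ⟨y, ⟨r', hr', hy⟩, hmin⟩ := WellFounded.has_min (wellFounded_lt)
      {y | ∃ r' ≤ r, r' ∈ AEb A (Gl TT (TT.cst (e x : κ.ord.ToType)) t) y} hex
    refine ⟨r', hr', y, hy, fun y' hy' r'' hr'' h => ?_⟩
    exact hmin y' ⟨r'', hr''.trans hr', h⟩ hy'
  have hfun : q2 ∈ IsFun R := by
    refine ⟨fun x => ?_, fun x y y' => ?_⟩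
    · refine mem_fex.2 fun r hr => ?_
      obtain ⟨r', hr', y, hy⟩ := hR x r hr
      exact ⟨r', hr', y, meets_of_mem hy⟩
    · refine mem_fimp.2 fun r _ hr => ⟨r, le_rfl, ?_⟩
      obtain ⟨r1, hr1, s1, hs1, h1⟩ := hr.1 r le_rfl
      obtain ⟨r2, hr2, s2, hs2, h2⟩ := hr.2 r1 hr1
      have h1' : r2 ≤ s1 := hr2.trans h1
      rcases lt_trichotomy y y' with h | h | h
      · exact absurd (down_AEb _ _ _ _ hs1.1 _ h1') (hs2.2 y h r2 h2)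
      · exact h
      · exact absurd (down_AEb _ _ _ _ hs2.1 _ h2) (hs1.2 y' h r2 h1')
  obtain ⟨q3, hq3, h3⟩ := mem_fimp.1 (hreg q2 _ hν R) q2 le_rfl hfun
  obtain ⟨q4, hq4, b, hb⟩ := mem_fex.1 h3 q3 le_rfl
  obtain ⟨r, hr, ξ, hξ, hm⟩ := exists_mem_gt hκ0 hA
    (hq4.trans (hq3.trans (hq2.trans (hq1.trans hqp)))) (max b b2)
  obtain ⟨r1, hr1, γ, γ', hlt, hv, hv'⟩ := hb2 ξ ((le_max_right _ _).trans_lt hξ) r
    (hr.trans (hq4.trans hq3)) hm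
  have e1 : γ' = c := TT.fn _ _ _ _ _ hv' (TT.val_cst c ξ r1)
  subst e1
  obtain ⟨r2, hr2, y, hy⟩ := hR (e.symm ⟨γ, hlt⟩) r1 (hr1.trans (hr.trans (hq4.trans hq3)))
  have hyb : y < b := by
    obtain ⟨_, _, h⟩ := mem_fimp.1 (hb (e.symm ⟨γ, hlt⟩) y) r2 (hr2.trans (hr1.trans hr))
      (meets_of_mem hy)
    exact h
  obtain ⟨r3, hr3, δ, δ', hδ, hw, hw'⟩ := hy.1 ξ (hyb.trans ((le_max_left _ _).trans_lt hξ)) r2
    le_rfl (down_meets _ _ hm _ (hr2.trans hr1))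
  rw [Equiv.apply_symm_apply] at hw
  have e2 : δ = γ := TT.fn _ _ _ _ _ hw (TT.val_cst γ ξ r3)
  have e3 : δ' = γ := TT.fn _ _ _ _ _ hw' (TT.down _ _ _ _ hv _ (hr3.trans hr2))
  rw [e2, e3] at hδ
  exact lt_irrefl _ hδ

/-- a point of `A` at which a condition of size `c0` etc. are decided -/
theorem point_above (hκ : κ.IsInaccessible) (hA : p ∈ HasFullSize A) {t : TT.T} {q : P}
    (hqp : q ≤ p) {c : κ.ord.ToType} (hc : q ∈ AE A (Gl TT (TT.cst c) t)) (b : κ.ord.ToType) :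
    ∃ r ≤ q, ∃ ξ, b < ξ ∧ r ∈ meets (A ξ) ∧ ∃ γ, c < γ ∧ r ∈ TT.Val t ξ γ := by
  obtain ⟨r, hr, ξ, hξ, hm, γ, γ', hlt, hv, hv'⟩ := AE_point hκ.1.le hA hqp hc b
  have e1 : γ = c := TT.fn _ _ _ _ _ hv (TT.val_cst c ξ r)
  rw [e1] at hlt
  exact ⟨r, hr, ξ, hξ, hm, γ', hlt, hv'⟩

theorem mk_Iio_mono {a b : κ.ord.ToType} (h : a ≤ b) : #(Iio a) ≤ #(Iio b) :=
  Cardinal.mk_le_mk_of_subset (Set.Iio_subset_Iio h)

theorem lt_of_mk_Iio_lt {a b : κ.ord.ToType} (h : #(Iio a) < #(Iio b)) : a < b := by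
  by_contra hcon
  exact absurd (mk_Iio_mono (not_lt.1 hcon)) (not_le.2 h)

end main

theorem plus_le_omega (κ : Cardinal.{0}) (n : ℕ) : plus κ n ≤ plusOmega κ :=
  le_ciSup Cardinal.bddAbove_of_small n

end Pool.Agent.Helper403.SZ.TA2
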