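import Mathlib
import Pool.Agent.Helper403_SZ.ABasic

set_option autoImplicit false

/-!
# The upper bound: statements of the jobs A4 and A5
-/

namespace Pool.Agent.Helper403.SZ

open Cardinal Set Pool.Agent.Helper669.Forcing Pool.Agent.Helper669.K TA2

/-- `q` forces that `t` is a minimal nonconstant term on the unsplit set `A` -/
structure MinT {κ : Cardinal.{0}} {P : Type} [Preorder P] {Λ : Type}
    {X : Λ → κ.ord.ToType → Set P} (TT : Terms κ P Λ X) (A : κ.ord.ToType → Set P) (p q : P)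
    (t : TT.T) : Prop where
  full : p ∈ HasFullSize A
  le : q ≤ p
  dec : ∀ s s', ∀ q ≤ p, ∃ q' ≤ q, q' ∈ AE A (Gl TT s s') ∨
    q' ∈ AE A (fun ξ => fnot (Gl TT s s' ξ))
  nc : NC TT A t q
  min : ∀ s, ∀ q' ≤ q, q' ∈ AE A (Gl TT s t) → ∃ q'' ≤ q', ∃ c, q'' ∈ AE A (Ge TT s (TT.cst c))

/-- job A4: the values of the minimal nonconstant term are inaccessible cardinals -/
def StmtA4 : Prop := ∀ (κ : Cardinal.{0}), κ.IsInaccessible → ∀ (P : Type) [Preorder P],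
  (∀ q : P, q ∈ StaysRegular P κ) → ∀ (Λ : Type) (X : Λ → κ.ord.ToType → Set P)
  (TT : Terms κ P Λ X) (A : κ.ord.ToType → Set P) (p q : P) (t : TT.T), MinT TT A p q t →
  ∀ q1 ≤ q, ∃ q2 ≤ q1, q2 ∈ AE A (fun ξ => {r | ∃ γ, r ∈ TT.Val t ξ γ ∧ IsD γ})

/-- job A5: the terms `s` below `2^|t|` have values in the power set of `κ` in the ground model -/
def StmtA5 : Prop := ∀ (κ : Cardinal.{0}), κ.IsInaccessible → ∀ (P : Type) [Preorder P],
  (∀ q : P, q ∈ StaysRegular P κ) → NoFresh κ P → ∀ (Λ : Type) (X : Λ → κ.ord.ToType → Set P)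
  (TT : Terms κ P Λ X) (A : κ.ord.ToType → Set P) (p q : P) (t : TT.T), MinT TT A p q t →
  ∃ CV : TT.T → Set κ.ord.ToType → Set P, (∀ s b, Down (CV s b)) ∧
    (∀ s, ∀ q1 ≤ q, q1 ∈ AE A (Gb TT t 0 s) → ∃ q2 ≤ q1, ∃ b, q2 ∈ CV s b) ∧
    (∀ s s' b, ∀ q1 ≤ q, q1 ∈ CV s b → q1 ∈ CV s' b → ∃ q2 ≤ q1, q2 ∈ AE A (Ge TT s s'))

end Pool.Agent.Helper403.SZ
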