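import Mathlib
import Pool.Agent.Helper403_SZ.Defs
import Pool.Agent.Helper669.KFinal

set_option autoImplicit false

/-!
# The iteration of Mathias forcings with small ultrafilters: definitions
-/

namespace Pool.Agent.Helper403.SZ

open Cardinal Set Pool.Agent.Helper669.Forcing Pool.Agent.Helper669.K

/-- restriction of a named order to a subset -/
def NOrd.sub {R Θ : Type} [Preorder R] (N : NOrd R Θ) (s : Set Θ) : NOrd R s where
  rel x y := N.rel x.1 y.1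
  refl x r := N.refl x.1 r
  trans x y z r := N.trans x.1 y.1 z.1 r
  down x y := N.down x.1 y.1

section

variable {κ : Cardinal.{0}} {L R I : Type} [LinearOrder L] [Preorder R]

/-- raw conditions: tokens `(ξ, (β, u))` (the condition `u` puts `β` into the `ξ`-th generic set)
and promises `(ξ, i)` -/
abbrev BC (κ : Cardinal.{0}) (L R I : Type) : Type :=
  Cond κ L (κ.ord.ToType × R) (I ⊕ κ.ord.ToType)

/-- the conditions which put `β` into the `ξ`-th stem -/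
def Nm (p : BC κ L R I) (ξ : L) (β : κ.ord.ToType) : Set R := {u | (ξ, (β, u)) ∈ p.s}

/-- weights: `(t, p) ∈ W ξ i β`: the promise `i` at `ξ` allows to add `β` -/
abbrev Wg (κ : Cardinal.{0}) (L R I : Type) : Type :=
  L → (I ⊕ κ.ord.ToType) → κ.ord.ToType → Set (R × BC κ L R I)

/-- the conditions of `R` which force `p' ≤ p` -/
def relW (W : Wg κ L R I) (p' p : BC κ L R I) : Set R :=
  {r | p.E ⊆ p'.E ∧ ∀ ξ β, ∀ t ≤ r, (t ∈ meets (Nm p ξ β) → t ∈ meets (Nm p' ξ β)) ∧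
    ∀ i, (ξ, i) ∈ p.E → t ∈ meets (Nm p' ξ β) → t ∈ fnot (meets (Nm p ξ β)) →
      (t, p'.res ξ) ∈ W ξ i β}

/-- the weight at `ξ` is monotone and local -/
structure GoodW (W : Wg κ L R I) (ξ : L) : Prop where
  mono : ∀ i β t t' p p', t' ≤ t → t' ∈ relW W (Cond.res ξ p') (Cond.res ξ p) →
    (t, Cond.res ξ p) ∈ W ξ i β → (t', Cond.res ξ p') ∈ W ξ i β
  loc : ∀ i β t p, (∀ t' ≤ t, ∃ t'' ≤ t', (t'', Cond.res ξ p) ∈ W ξ i β) →
    (t, Cond.res ξ p) ∈ W ξ i β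

theorem relW_refl (W : Wg κ L R I) (p : BC κ L R I) (r : R) : r ∈ relW W p p :=
  ⟨subset_rfl, fun _ _ _ _ => ⟨id, fun _ _ h h' => absurd h (h' _ le_rfl)⟩⟩

theorem relW_down (W : Wg κ L R I) (p' p : BC κ L R I) : Down (relW W p' p) :=
  fun _ hr _ hr' => ⟨hr.1, fun ξ β t ht => hr.2 ξ β t (ht.trans hr')⟩

theorem Nm_res {p : BC κ L R I} {ξ η : L} (h : η < ξ) (β : κ.ord.ToType) :
    Nm (Cond.res ξ p) η β = Nm p η β := by
  ext u
  exact ⟨fun hu => hu.1, fun hu => ⟨hu, h⟩⟩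

theorem Nm_res_of_le {p : BC κ L R I} {ξ η : L} (h : ξ ≤ η) (β : κ.ord.ToType) :
    Nm (Cond.res ξ p) η β = ∅ := by
  ext u
  exact ⟨fun hu => absurd hu.2 (not_lt.2 h), fun hu => hu.elim⟩

theorem not_meets_empty {P : Type} [Preorder P] (t : P) : t ∉ meets (∅ : Set P) := fun h => by
  obtain ⟨_, _, _, h, _⟩ := h t le_rfl
  exact h

theorem relW_res {W : Wg κ L R I} {p' p : BC κ L R I} {r : R} (h : r ∈ relW W p' p) (ξ : L) :
    r ∈ relW W (Cond.res ξ p') (Cond.res ξ p) := by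
  refine ⟨fun x hx => ⟨h.1 hx.1, hx.2⟩, fun η β t ht => ?_⟩
  rcases lt_or_ge η ξ with hlt | hge
  · rw [Nm_res hlt, Nm_res hlt, Cond.res_res hlt.le]
    exact ⟨(h.2 η β t ht).1, fun i hi => (h.2 η β t ht).2 i hi.1⟩
  · rw [Nm_res_of_le hge, Nm_res_of_le hge]
    exact ⟨fun h1 => absurd h1 (not_meets_empty t), fun _ _ h1 => absurd h1 (not_meets_empty t)⟩

theorem relW_trans {W : Wg κ L R I} (hW : ∀ ξ, GoodW W ξ) {p'' p' p : BC κ L R I} {r : R}
    (h : r ∈ relW W p'' p') (h' : r ∈ relW W p' p) : r ∈ relW W p'' p := by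
  refine ⟨h'.1.trans h.1, fun ξ β t ht => ⟨fun h1 => (h.2 ξ β t ht).1 ((h'.2 ξ β t ht).1 h1),
    fun i hi h1 h2 => ?_⟩⟩
  refine (hW ξ).loc i β t p'' fun t' ht' => ?_
  have h1' := down_meets _ _ h1 t' ht'
  have h2' := down_fnot _ _ h2 t' ht'
  by_cases h3 : t' ∈ fnot (meets (Nm p' ξ β))
  · exact ⟨t', le_rfl, (h.2 ξ β t' (ht'.trans ht)).2 i (h'.1 hi) h1' h3⟩
  · simp only [fnot, Set.mem_ofPred_eq, not_forall, not_not] at h3
    obtain ⟨t2, ht2, h4⟩ := h3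
    refine ⟨t2, ht2, (hW ξ).mono i β t2 t2 p' p'' le_rfl ?_ ?_⟩
    · exact relW_res (relW_down _ _ _ _ h _ (ht2.trans (ht'.trans ht))) ξ
    · exact (h'.2 ξ β t2 (ht2.trans (ht'.trans ht))).2 i hi h4 (down_fnot _ _ h2' t2 ht2)

/-- the named order given by a good weight -/
def NW (W : Wg κ L R I) (hW : ∀ ξ, GoodW W ξ) : NOrd R (BC κ L R I) where
  rel := relW W
  refl p r := relW_refl W p r
  trans _ _ _ _ := relW_trans hW
  down p' p := relW_down W p' p

open Classical in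
/-- the weight which is trivial from `ξ` on -/
noncomputable def cut (W : Wg κ L R I) (ξ : L) : Wg κ L R I := fun η =>
  if η < ξ then W η else fun _ _ => Set.univ

/-- the empty condition -/
def emp (κ : Cardinal.{0}) (h : 0 < κ) (L R I : Type) : BC κ L R I where
  s := ∅
  E := ∅
  hs := by rw [mk_emptyCollection]; exact h
  hE := by rw [mk_emptyCollection]; exact h

/-- `S` is a good set of conditions below `ξ`, for the order `N` -/
structure GoodSub (N : NOrd R (BC κ L R I)) (ξ : L) (S : Set (BC κ L R I)) : Prop where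
  below : ∀ p ∈ S, Cond.res ξ p = p
  emp : ∃ p ∈ S, p.s = ∅ ∧ p.E = ∅
  card : ∃ n, #S ≤ plus (2 ^ κ) n
  closed : NClosed κ (N.sub S)
  cc : CC (Two (N.sub S)) κ
  c1 : ∀ x y : Two (N.sub S), ∀ z : Two N, z ≤ (x.1, x.2.1) → z ≤ (y.1, y.2.1) →
    ∃ w : Two (N.sub S), w ≤ x ∧ w ≤ y
  c2 : ∀ (Y : Set (Two (N.sub S))) (x : Two (N.sub S)), x ∈ meets Y →
    ((x.1, x.2.1) : Two N) ∈ meets (P := Two N) ((fun y : Two (N.sub S) => (y.1, y.2.1)) '' Y)

end

end Pool.Agent.Helper403.SZ
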