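import Mathlib
import Pool.Agent.Helper403_SZ.Defs
import Pool.Agent.W873.Vi.Incl

set_option autoImplicit false

/-!
# The preparation: definitions
-/

namespace Pool.Agent.Helper403.SZ

open Cardinal Set Pool.Agent.Helper669.Forcing Pool.Agent.Helper669.K Pool.Agent.W873.Tp
open Pool.Agent.W873.Vi

variable {κ : Cardinal.{0}}

/-- raw conditions: `r ξ = some (c, x)`: at the stage `ξ` the structure with code `c` is chosen,
and `x` is (a name of) an element of it -/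
abbrev Raw (κ : Cardinal.{0}) : Type := Ik κ → Option (Ik κ × Ik κ)

/-- a structure with underlying set `{x | x < b}` -/
structure St (κ : Cardinal.{0}) where
  b : Ik κ
  rel : Ik κ → Ik κ → Set (Raw κ)

/-- the part of `r` below `β` -/
noncomputable def res (β : Ik κ) (r : Raw κ) : Raw κ := fun ξ =>
  open Classical in if ξ < β then r ξ else none

/-- `r` is a condition -/
structure Ok (W : Ik κ → Ik κ → St κ) (r : Raw κ) : Prop where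
  stage : ∀ ξ, r ξ ≠ none → IsD ξ
  bddD : ∀ d, IsD d → ∃ γ < d, ∀ ξ < d, r ξ ≠ none → ξ < γ
  bdd : ∃ γ, ∀ ξ, r ξ ≠ none → ξ < γ
  code : ∀ ξ c x, r ξ = some (c, x) → (∀ d, IsD d → ξ < d → c < d ∧ x < d) ∧ x < (W ξ c).b

/-- the order -/
def Le (W : Ik κ → Ik κ → St κ) (r' r : Raw κ) : Prop :=
  ∀ ξ c x, r ξ = some (c, x) → ∃ x', r' ξ = some (c, x') ∧ res ξ r' ∈ (W ξ c).rel x' x

/-- `σ` is a closed named order over the forcing `R_ξ` given by `W` below `ξ` -/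
structure VSt (W : Ik κ → Ik κ → St κ) (ξ : Ik κ) (σ : St κ) : Prop where
  ne : ∃ x, x < σ.b
  b_lt : ∀ d, IsD d → ξ < d → σ.b < d
  card : ∃ n, #(Iio σ.b) ≤ plus (2 ^ #(Iio ξ)) n
  sub : ∀ x y r, r ∈ σ.rel x y → x < σ.b ∧ y < σ.b ∧ Ok W r ∧ res ξ r = r
  refl : ∀ x < σ.b, ∀ r, Ok W r → res ξ r = r → r ∈ σ.rel x x
  trans : ∀ x y z r, r ∈ σ.rel x y → r ∈ σ.rel y z → r ∈ σ.rel x z
  down : ∀ x y r r', Ok W r' → res ξ r' = r' → Le W r' r → r ∈ σ.rel x y → r' ∈ σ.rel x y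
  closed : ∀ D : Set (Raw κ × Ik κ), #D < #(Iio ξ) →
    (∀ a ∈ D, Ok W a.1 ∧ res ξ a.1 = a.1 ∧ a.2 < σ.b) →
    (∀ a ∈ D, ∀ b ∈ D, ∀ t, Ok W t → res ξ t = t → Le W t a.1 → Le W t b.1 →
      ∃ t', Ok W t' ∧ res ξ t' = t' ∧ Le W t' t ∧ ∃ c ∈ D, Le W t' c.1 ∧
        t' ∈ σ.rel c.2 a.2 ∧ t' ∈ σ.rel c.2 b.2) →
    ∃ m < σ.b, ∀ a ∈ D, a.1 ∈ σ.rel m a.2
  cc : ∀ (ι : Type) (f : ι → Raw κ × Ik κ), #(Iio ξ) < #ι →
    (∀ i, Ok W (f i).1 ∧ res ξ (f i).1 = (f i).1 ∧ (f i).2 < σ.b) →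
    ∃ i j, i ≠ j ∧ ∃ t, Ok W t ∧ res ξ t = t ∧ Le W t (f i).1 ∧ Le W t (f j).1 ∧
      ∃ z < σ.b, t ∈ σ.rel z (f i).2 ∧ t ∈ σ.rel z (f j).2

/-- a system of structures: all stages, with all structures occurring -/
structure Sys (κ : Cardinal.{0}) where
  W : Ik κ → Ik κ → St κ
  val : ∀ ξ, IsD ξ → ∀ c, VSt W ξ (W ξ c)
  surj : ∀ ξ, IsD ξ → ∀ σ, VSt W ξ σ →
    ∃ c, (∀ d, IsD d → ξ < d → c < d) ∧ W ξ c = σ

/-- job C0 -/
def StmtC0 : Prop := ∀ κ : Cardinal.{0}, κ.IsInaccessible → Nonempty (Sys κ)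

/-! ### Elementary properties of restrictions -/

theorem res_of_lt {β ξ : Ik κ} (r : Raw κ) (h : ξ < β) : res β r ξ = r ξ := if_pos h

theorem res_of_le {β ξ : Ik κ} (r : Raw κ) (h : β ≤ ξ) : res β r ξ = none := if_neg (not_lt.2 h)

theorem res_ne_none {β ξ : Ik κ} {r : Raw κ} (h : res β r ξ ≠ none) : ξ < β ∧ r ξ ≠ none := by
  by_cases h1 : ξ < β
  · rw [res_of_lt r h1] at h
    exact ⟨h1, h⟩
  · exact absurd (res_of_le r (not_lt.1 h1)) h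

theorem res_eq_some {β ξ : Ik κ} {r : Raw κ} {y : Ik κ × Ik κ} :
    res β r ξ = some y ↔ ξ < β ∧ r ξ = some y := by
  by_cases h1 : ξ < β
  · rw [res_of_lt r h1]
    exact ⟨fun h => ⟨h1, h⟩, fun h => h.2⟩
  · rw [res_of_le r (not_lt.1 h1)]
    exact ⟨fun h => by simp at h, fun h => absurd h.1 h1⟩

theorem res_res {β γ : Ik κ} (r : Raw κ) (h : β ≤ γ) : res β (res γ r) = res β r := by
  funext ξ
  by_cases h1 : ξ < β
  · rw [res_of_lt _ h1, res_of_lt _ h1, res_of_lt _ (h1.trans_le h)]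
  · rw [res_of_le _ (not_lt.1 h1), res_of_le _ (not_lt.1 h1)]

theorem res_res' {β γ : Ik κ} (r : Raw κ) (h : β ≤ γ) : res γ (res β r) = res β r := by
  funext ξ
  by_cases h1 : ξ < β
  · rw [res_of_lt _ (h1.trans_le h)]
  · rw [res_of_le _ (not_lt.1 h1)]
    by_cases h2 : ξ < γ
    · rw [res_of_lt _ h2, res_of_le _ (not_lt.1 h1)]
    · rw [res_of_le _ (not_lt.1 h2)]

theorem Ok.res {W : Ik κ → Ik κ → St κ} {r : Raw κ} (h : Ok W r) (β : Ik κ) : Ok W (res β r) where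
  stage ξ hξ := h.stage ξ (res_ne_none hξ).2
  bddD d hd := by
    obtain ⟨γ, hγ, h1⟩ := h.bddD d hd
    exact ⟨γ, hγ, fun ξ hξ h2 => h1 ξ hξ (res_ne_none h2).2⟩
  bdd := by
    obtain ⟨γ, h1⟩ := h.bdd
    exact ⟨γ, fun ξ h2 => h1 ξ (res_ne_none h2).2⟩
  code ξ c x hx := h.code ξ c x (res_eq_some.1 hx).2

theorem Le.res {W : Ik κ → Ik κ → St κ} {r' r : Raw κ} (h : Le W r' r) (β : Ik κ) :
    Le W (res β r') (res β r) := by
  intro ξ c x hx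
  obtain ⟨h1, h2⟩ := res_eq_some.1 hx
  obtain ⟨x', h3, h4⟩ := h ξ c x h2
  exact ⟨x', res_eq_some.2 ⟨h1, h3⟩, by rwa [res_res _ h1.le]⟩

namespace Sys

variable (S : Sys κ)

theorem le_refl {r : Raw κ} (h : Ok S.W r) : Le S.W r r := fun ξ c x hx =>
  ⟨x, hx, (S.val ξ (h.stage ξ (by rw [hx]; simp)) c).refl x (h.code ξ c x hx).2 _ (h.res ξ)
    (res_res _ le_rfl)⟩

theorem le_res {r : Raw κ} (h : Ok S.W r) (β : Ik κ) : Le S.W r (res β r) := by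
  intro ξ c x hx
  exact S.le_refl h ξ c x (res_eq_some.1 hx).2

theorem le_trans {r r' r'' : Raw κ} (h0 : Ok S.W r) (h2 : Ok S.W r'')
    (h : Le S.W r'' r') (h' : Le S.W r' r) : Le S.W r'' r := by
  intro ξ c x hx
  obtain ⟨x', h3, h4⟩ := h' ξ c x hx
  obtain ⟨x'', h5, h6⟩ := h ξ c x' h3
  have hD : IsD ξ := h0.stage ξ (by rw [hx]; simp)
  exact ⟨x'', h5, (S.val ξ hD c).trans _ _ _ _ h6
    ((S.val ξ hD c).down _ _ _ _ (h2.res ξ) (res_res _ le_rfl) (h.res ξ) h4)⟩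

/-- the forcing notion -/
def RR : Type := {r : Raw κ // Ok S.W r}

instance : Preorder S.RR where
  le a b := Le S.W a.1 b.1
  le_refl a := S.le_refl a.2
  le_trans a b c h h' := S.le_trans c.2 a.2 h h'

theorem RR.le_def {S : Sys κ} {a b : S.RR} : a ≤ b ↔ Le S.W a.1 b.1 := Iff.rfl

/-- `a` on `[0, α]`, `g` above -/
noncomputable def catRaw (α : Ik κ) (a g : Raw κ) : Raw κ := fun ξ =>
  open Classical in if ξ ≤ α then a ξ else g ξ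

theorem catRaw_of_le {α ξ : Ik κ} (a g : Raw κ) (h : ξ ≤ α) : catRaw α a g ξ = a ξ := if_pos h

theorem catRaw_of_lt {α ξ : Ik κ} (a g : Raw κ) (h : α < ξ) : catRaw α a g ξ = g ξ :=
  if_neg (not_le.2 h)

theorem ok_catRaw {W : Ik κ → Ik κ → St κ} {α : Ik κ} {a g : Raw κ} (ha : Ok W a) (hg : Ok W g) :
    Ok W (catRaw α a g) where
  stage ξ hξ := by
    rcases le_or_gt ξ α with h | h
    · rw [catRaw_of_le _ _ h] at hξ
      exact ha.stage ξ hξ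
    · rw [catRaw_of_lt _ _ h] at hξ
      exact hg.stage ξ hξ
  bddD d hd := by
    obtain ⟨γ, hγ, h1⟩ := ha.bddD d hd
    obtain ⟨γ', hγ', h1'⟩ := hg.bddD d hd
    refine ⟨max γ γ', max_lt hγ hγ', fun ξ hξ h2 => ?_⟩
    rcases le_or_gt ξ α with h | h
    · rw [catRaw_of_le _ _ h] at h2
      exact (h1 ξ hξ h2).trans_le (le_max_left _ _)
    · rw [catRaw_of_lt _ _ h] at h2
      exact (h1' ξ hξ h2).trans_le (le_max_right _ _)
  bdd := by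
    obtain ⟨γ, h1⟩ := ha.bdd
    obtain ⟨γ', h1'⟩ := hg.bdd
    refine ⟨max γ γ', fun ξ h2 => ?_⟩
    rcases le_or_gt ξ α with h | h
    · rw [catRaw_of_le _ _ h] at h2
      exact (h1 ξ h2).trans_le (le_max_left _ _)
    · rw [catRaw_of_lt _ _ h] at h2
      exact (h1' ξ h2).trans_le (le_max_right _ _)
  code ξ c x hx := by
    rcases le_or_gt ξ α with h | h
    · rw [catRaw_of_le _ _ h] at hx
      exact ha.code ξ c x hx
    · rw [catRaw_of_lt _ _ h] at hx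
      exact hg.code ξ c x hx

/-- `a` on `[0, α]`, `g` above -/
noncomputable def cat (α : Ik κ) (a g : S.RR) : S.RR := ⟨catRaw α a.1 g.1, ok_catRaw a.2 g.2⟩

/-- all coordinates of `a` are at most `α` -/
def Low (α : Ik κ) (a : S.RR) : Prop := ∀ ξ, a.1 ξ ≠ none → ξ ≤ α

variable {Θ : Type} (N : NOrd S.RR Θ)

/-- `a` on `[0, α]`, `g` above, for the two step iteration -/
noncomputable def catT (α : Ik κ) (a : S.RR) (g : Two N) : Two N := (S.cat α a g.1, g.2)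

/-- the codes of `g` and `g'` above `α` agree -/
def Cons (α : Ik κ) (g g' : S.RR) : Prop :=
  ∀ ξ, α < ξ → ∀ c x c' x', g.1 ξ = some (c, x) → g'.1 ξ = some (c', x') → c = c'

end Sys

/-- job C1 -/
def StmtC1 : Prop := ∀ (κ : Cardinal.{0}), κ.IsInaccessible → ∀ (S : Sys κ) (Θ : Type) (N : NOrd S.RR Θ),
  NClosed κ N → ∀ (α : Ik κ) (μ : Cardinal.{0}), (∀ d, IsD d → α < d → μ ≤ #(Iio d)) → μ ≤ κ →
  ∀ D0 : Set (S.RR × Two N), #D0 < μ → (∀ a ∈ D0, S.Low α a.1) →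
  (∀ a ∈ D0, ∀ b ∈ D0, S.Cons α a.2.1 b.2.1) →
  (∀ a ∈ D0, ∀ b ∈ D0, ∀ t, S.Low α t → t ≤ a.1 → t ≤ b.1 → ∃ t', S.Low α t' ∧ t' ≤ t ∧
    ∃ c ∈ D0, t' ≤ c.1 ∧ S.catT N α t' c.2 ≤ S.catT N α t' a.2 ∧
      S.catT N α t' c.2 ≤ S.catT N α t' b.2) →
  ∃ g : Two N, ∀ a ∈ D0, S.catT N α a.1 g ≤ S.catT N α a.1 a.2

/-- job C2 (from C1) -/
def StmtC2 : Prop := ∀ (κ : Cardinal.{0}), κ.IsInaccessible → ∀ (S : Sys κ) (Θ : Type) (N : NOrd S.RR Θ),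
  NClosed κ N → ∀ (α : Ik κ) (μ : Cardinal.{0}), (∀ d, IsD d → α < d → μ ≤ #(Iio d)) → μ ≤ κ →
  ℵ₀ ≤ μ → ∀ A : Set S.RR, A.Nonempty → (∀ a ∈ A, S.Low α a) →
  (∀ a ∈ A, ∀ a' ≤ a, S.Low α a' → a' ∈ A) → #A < μ →
  ∀ (J : Type) (Δ : J → Set (Two N)), #J < μ → (∀ i, Down (Δ i)) → (∀ i q, ∃ q' ≤ q, q' ∈ Δ i) →
  ∀ g : Two N, ∃ g' : Two N, (∀ a ∈ A, S.catT N α a g' ≤ S.catT N α a g) ∧
    ∀ i, ∀ a ∈ A, ∃ a' ∈ A, a' ≤ a ∧ S.catT N α a' g' ∈ Δ i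

/-- job C3 -/
def StmtC3 : Prop := ∀ (κ : Cardinal.{0}), IsSupercompact κ → κ.IsInaccessible → ∀ (S : Sys κ),
  Nonempty S.RR ∧ #S.RR ≤ κ ∧ CCS S.RR κ

/-- job C4 -/
def StmtC4 : Prop := ∀ (κ : Cardinal.{0}), κ.IsInaccessible → ∀ (S : Sys κ) (Θ : Type)
  (N : NOrd S.RR Θ), NClosed κ N → DirClosed ℵ₁ (Two N) ∧ PowSmall κ (Two N)

/-- the conditions which decide `a ∈ Y` and, if possible, decide `Y ∩ a` as a set of the ground
model -/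
def Dec {P : Type} [Preorder P] (Y : Ik κ → Set P) (a : Ik κ) : Set P :=
  {q | (q ∈ meets (Y a) ∨ q ∈ fnot (meets (Y a))) ∧
    ((∃ b, q ∈ AgreeB Y a b) ∨ ∀ r ≤ q, ¬ ∃ b, r ∈ AgreeB Y a b)}

/-- The reflection of a forcing notion at the set `X`: `q ∈ X` means `cP q ∈ X`, `α` is the trace of `X` on `κ`,
and `F q` is a condition below `q` which is a kind of master condition. -/
structure Refl {P M : Type} [Preorder P] (κ : Cardinal.{0}) (cP : P → M)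
    (cN : M → Ik κ → Set P) (X : Set M) (α : Ik κ) (F : P → P) : Prop where
  P1 : ∀ q, cP q ∈ X → F q ≤ q
  P2 : ∀ q q', cP q ∈ X → cP q' ∈ X → q' ≤ q → F q' ≤ F q
  P3 : ∀ i ∈ X, ∀ q, cP q ∈ X → ∃ q' ≤ q, cP q' ∈ X ∧ F q' ∈ Dec (cN i) α
  P4 : ∀ q, cP q ∈ X → ∀ w ≤ F q, ∃ s0 ≤ q, cP s0 ∈ X ∧ ∀ s ≤ s0, cP s ∈ X →
    ∃ w' ≤ w, w' ≤ F s

/-- job C6 -/
def StmtC6 : Prop := ∀ (κ : Cardinal.{0}), ℵ₀ < κ → ∀ (P M : Type) [Preorder P]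
  (U : Ultrafilter (Set M)), NormalFine κ M U → ∀ (cP : P → M), Function.Injective cP →
  ∀ (cN : M → Ik κ → Set P), Function.Surjective cN →
  ∀ (α : Set M → Ik κ) (F : Set M → P → P), (∀ a, ∀ᶠ X in (U : Filter (Set M)), a < α X) →
  (∀ᶠ X in (U : Filter (Set M)), Refl κ cP cN X (α X) (F X)) →
  ∃ V : (Ik κ → Set P) → Set P, ∀ q : P, q ∈ IsMeasure κ V

/-- job C7: no fresh subsets of `κ` -/
def StmtC7 : Prop := ∀ (κ : Cardinal.{0}), ℵ₀ < κ → ∀ (P M : Type) [Preorder P]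
  (U : Ultrafilter (Set M)), NormalFine κ M U → ∀ (cP : P → M), Function.Injective cP →
  ∀ (cN : M → Ik κ → Set P), Function.Surjective cN →
  ∀ (α : Set M → Ik κ) (F : Set M → P → P), (∀ a, ∀ᶠ X in (U : Filter (Set M)), a < α X) →
  (∀ᶠ X in (U : Filter (Set M)), Refl κ cP cN X (α X) (F X)) → NoFresh κ P

/-- job C5 -/
def StmtC5 : Prop := ∀ (κ : Cardinal.{0}), IsSupercompact κ → κ.IsInaccessible →
  ∀ (S : Sys κ) (Θ : Type)
  (N : NOrd S.RR Θ) (n : ℕ), NClosed κ N → CC (Two N) κ → #Θ ≤ plus (2 ^ κ) n →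
  ∃ (M : Type) (U : Ultrafilter (Set M)) (_ : NormalFine κ M U) (cP : Two N → M)
    (_ : Function.Injective cP) (cN : M → Ik κ → Set (Two N)) (_ : Function.Surjective cN)
    (α : Set M → Ik κ) (F : Set M → Two N → Two N),
    (∀ a, ∀ᶠ X in (U : Filter (Set M)), a < α X) ∧
    ∀ᶠ X in (U : Filter (Set M)), Refl κ cP cN X (α X) (F X)

/-- job C5a: traces of the members of a normal fine ultrafilter -/
def StmtC5a : Prop := ∀ (κ : Cardinal.{0}), κ.IsInaccessible → ∀ (M : Type)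
  (U : Ultrafilter (Set M)), NormalFine κ M U → ∀ k : Ik κ → M, Function.Injective k →
  ∃ α : Set M → Ik κ,
    (∀ᶠ X in (U : Filter (Set M)), IsD (α X) ∧ ∀ a, k a ∈ X ↔ a < α X) ∧
    (∀ B : Set M, #B ≤ κ → ∀ᶠ X in (U : Filter (Set M)), #(X ∩ B : Set M) ≤ #(Iio (α X))) ∧
    (∀ (B : Set M) (j : ℕ), #B ≤ plus (2 ^ κ) j →
      ∀ᶠ X in (U : Filter (Set M)), #(X ∩ B : Set M) ≤ plus (2 ^ #(Iio (α X))) j) ∧
    (∀ (B : Set M) (j : ℕ), #B ≤ 2 ^ plus (2 ^ κ) j →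
      ∀ᶠ X in (U : Filter (Set M)), #(X ∩ B : Set M) ≤ 2 ^ plus (2 ^ #(Iio (α X))) j) ∧
    (∀ (T T' : Type) (cT : T → M) (cT' : T' → M), Function.Injective cT →
      ∀ m : Set T → T', ∀ᶠ X in (U : Filter (Set M)), ∀ D : Set T, #D < #(Iio (α X)) →
        (∀ t ∈ D, cT t ∈ X) → cT' (m D) ∈ X) ∧
    (∀ (T : Type) (cT : T → M) (ρ : T → Ik κ), Function.Injective cT →
      (∀ γ, #{t | ρ t ≤ γ} < κ) →
      ∀ᶠ X in (U : Filter (Set M)), ∀ t, cT t ∈ X ↔ ρ t < α X)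

/-- job C5b: the reflection of a closed named order, from C1, C2, C3 and C5a -/
def StmtC5b : Prop := StmtC1 → StmtC2 → StmtC3 → StmtC5a → StmtC5

theorem partC_of (h0 : StmtC0) (h3 : StmtC3) (h4 : StmtC4) (h5 : StmtC5) (h6 : StmtC6)
    (h7 : StmtC7) (κ : Cardinal.{0}) (hκ : IsSupercompact κ) :
    ∃ (R : Type) (_ : Preorder R), GoodPrep κ R := by
  have hi : κ.IsInaccessible := inacc hκ
  obtain ⟨S⟩ := h0 κ hi
  obtain ⟨hne, hsz, hcc⟩ := h3 κ hκ hi S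
  refine ⟨S.RR, inferInstance, ⟨hne, hsz, hcc, ?_, ?_, ?_, ?_⟩⟩
  · intro Θ N n hN hc hΘ
    obtain ⟨M, U, hU, cP, hcP, cN, hcN, α, F, h1, h2⟩ := h5 κ hκ hi S Θ N n hN hc hΘ
    exact h6 κ hi.1 (Two N) M U hU cP hcP cN hcN α F h1 h2
  · intro Θ N n hN hc hΘ
    obtain ⟨M, U, hU, cP, hcP, cN, hcN, α, F, h1, h2⟩ := h5 κ hκ hi S Θ N n hN hc hΘ
    exact h7 κ hi.1 (Two N) M U hU cP hcP cN hcN α F h1 h2
  · intro Θ N hN
    exact (h4 κ hi S Θ N hN).1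
  · intro Θ N hN
    exact (h4 κ hi S Θ N hN).2

end Pool.Agent.Helper403.SZ
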