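import Mathlib
import Pool.Agent.Helper403_SZ.CDefs

set_option autoImplicit false

/-!
# The preparation: elementary facts about the forcing notion
-/

namespace Pool.Agent.Helper403.SZ

open Cardinal Set Pool.Agent.Helper669.Forcing Pool.Agent.Helper669.K Pool.Agent.W873.Tp
open Pool.Agent.W873.Vi

variable {κ : Cardinal.{0}}

theorem IsD.aleph0_lt {d : Ik κ} (hd : IsD d) : ℵ₀ < #(Iio d) := hd.inacc.1

/-- members of `D` are limits -/
theorem IsD.exists_between {d : Ik κ} (hd : IsD d) {a : Ik κ} (ha : a < d) : ∃ c < d, a < c := by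
  obtain ⟨c, hc, h⟩ := hd.bdd {a} (fun b hb => by rw [hb]; exact ha) (by
    rw [mk_singleton]
    exact one_lt_aleph0.trans hd.aleph0_lt)
  exact ⟨c, hc, h a rfl⟩

theorem IsD.exists_lt {d : Ik κ} (hd : IsD d) : ∃ c, c < d := by
  obtain ⟨c, hc, _⟩ := hd.bdd ∅ (fun _ h => h.elim) (by
    rw [mk_eq_zero]
    exact aleph0_pos.trans hd.inacc.1)
  exact ⟨c, hc⟩

/-- `κ` is a limit -/
theorem exists_gt_Ik (hκ : κ.IsInaccessible) (a : Ik κ) : ∃ c : Ik κ, a < c := by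
  obtain ⟨c, h⟩ := bdd_of_lt hκ.isRegular {a} (by
    rw [mk_singleton]
    exact one_lt_aleph0.trans hκ.1)
  exact ⟨c, h a rfl⟩

theorem nonempty_Ik (hκ : κ.IsInaccessible) : Nonempty (Ik κ) := by
  rw [← mk_ne_zero_iff, mk_ord_toType]
  exact (aleph0_pos.trans hκ.1).ne'

theorem plus_lt {μ ν : Cardinal.{0}} (hν : ν.IsInaccessible) (h : μ < ν) (n : ℕ) :
    plus μ n < ν := by
  induction n with
  | zero => exact h
  | succ n ih => exact (Order.succ_le_of_lt (cantor _)).trans_lt (hν.isStrongLimit.two_power_lt ih)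

theorem le_plus (μ : Cardinal.{0}) (n : ℕ) : μ ≤ plus μ n := by
  induction n with
  | zero => exact le_rfl
  | succ n ih => exact ih.trans (Order.le_succ _)

theorem plus_mono {μ ν : Cardinal.{0}} (h : μ ≤ ν) (n : ℕ) : plus μ n ≤ plus ν n := by
  induction n with
  | zero => exact h
  | succ n ih => exact Order.succ_le_succ ih

theorem plus_le_plus (μ : Cardinal.{0}) {m n : ℕ} (h : m ≤ n) : plus μ m ≤ plus μ n := by
  induction h with
  | refl => exact le_rfl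
  | step _ ih => exact ih.trans (Order.le_succ _)

namespace Sys

theorem res_catRaw {α ξ : Ik κ} (a g : Raw κ) (h : ξ ≤ α) :
    SZ.res ξ (catRaw α a g) = SZ.res ξ a := by
  funext η
  by_cases hη : η < ξ
  · rw [res_of_lt _ hη, res_of_lt _ hη, catRaw_of_le _ _ (hη.le.trans h)]
  · rw [res_of_le _ (not_lt.1 hη), res_of_le _ (not_lt.1 hη)]

variable (S : Sys κ)

theorem val' {r : Raw κ} (h : Ok S.W r) {ξ c x} (hx : r ξ = some (c, x)) :
    VSt S.W ξ (S.W ξ c) := S.val ξ (h.stage ξ (by rw [hx]; simp)) c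

theorem le_refl' {r : Raw κ} (h : Ok S.W r) {ξ c x} (hx : r ξ = some (c, x)) :
    SZ.res ξ r ∈ (S.W ξ c).rel x x :=
  (S.val' h hx).refl x (h.code ξ c x hx).2 _ (h.res ξ) (res_res _ le_rfl)

/-- the empty condition -/
def top (hκ : κ.IsInaccessible) : S.RR := ⟨fun _ => none, {
  stage := fun _ h => absurd rfl h
  bddD := fun d hd => by
    obtain ⟨c, hc⟩ := hd.exists_lt
    exact ⟨c, hc, fun _ _ h => absurd rfl h⟩
  bdd := by
    obtain ⟨a⟩ := nonempty_Ik hκ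
    exact ⟨a, fun _ h => absurd rfl h⟩
  code := fun _ _ _ h => by simp at h }⟩

theorem le_top (hκ : κ.IsInaccessible) (a : S.RR) : a ≤ S.top hκ := fun ξ c x h => by
  simp [top] at h

theorem low_top (hκ : κ.IsInaccessible) (α : Ik κ) : S.Low α (S.top hκ) := fun ξ h => by
  simp [top] at h

variable {S}

theorem cat_apply_of_le {α ξ : Ik κ} (a g : S.RR) (h : ξ ≤ α) : (S.cat α a g).1 ξ = a.1 ξ :=
  catRaw_of_le _ _ h

theorem cat_apply_of_lt {α ξ : Ik κ} (a g : S.RR) (h : α < ξ) : (S.cat α a g).1 ξ = g.1 ξ :=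
  catRaw_of_lt _ _ h

theorem res_cat {α ξ : Ik κ} (a g : S.RR) (h : ξ ≤ α) :
    SZ.res ξ (S.cat α a g).1 = SZ.res ξ a.1 := res_catRaw _ _ h

/-- characterisation of the order with a cut at `α` -/
theorem cat_le {α : Ik κ} {a g b : S.RR}
    (h1 : ∀ ξ ≤ α, ∀ c x, b.1 ξ = some (c, x) → ∃ x', a.1 ξ = some (c, x') ∧
      SZ.res ξ a.1 ∈ (S.W ξ c).rel x' x)
    (h2 : ∀ ξ, α < ξ → ∀ c x, b.1 ξ = some (c, x) → ∃ x', g.1 ξ = some (c, x') ∧
      SZ.res ξ (S.cat α a g).1 ∈ (S.W ξ c).rel x' x) : S.cat α a g ≤ b := by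
  intro ξ c x hx
  rcases le_or_gt ξ α with h | h
  · obtain ⟨x', h3, h4⟩ := h1 ξ h c x hx
    refine ⟨x', (cat_apply_of_le a g h).trans h3, ?_⟩
    rw [res_cat a g h]
    exact h4
  · obtain ⟨x', h3, h4⟩ := h2 ξ h c x hx
    exact ⟨x', (cat_apply_of_lt a g h).trans h3, h4⟩

theorem cat_mono_left {α : Ik κ} {a' a : S.RR} (h : a' ≤ a) (g : S.RR) :
    S.cat α a' g ≤ S.cat α a g := by
  refine cat_le (fun ξ hξ c x hx => ?_) (fun ξ hξ c x hx => ?_)
  · rw [cat_apply_of_le _ _ hξ] at hx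
    exact h ξ c x hx
  · rw [cat_apply_of_lt _ _ hξ] at hx
    exact ⟨x, hx, S.le_refl' (S.cat α a' g).2 (show (S.cat α a' g).1 ξ = some (c, x) from
      (cat_apply_of_lt _ _ hξ).trans hx)⟩

theorem cat_le_left {α : Ik κ} {a : S.RR} (ha : S.Low α a) (g : S.RR) : S.cat α a g ≤ a := by
  refine cat_le (fun ξ hξ c x hx => ⟨x, hx, S.le_refl' a.2 hx⟩) (fun ξ hξ c x hx => ?_)
  exact absurd (ha ξ (by rw [hx]; simp)) (not_le.2 hξ)

variable (S) in
/-- the part of `g` on `[0, α]` -/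
noncomputable def low (hκ : κ.IsInaccessible) (α : Ik κ) (g : S.RR) : S.RR :=
  S.cat α g (S.top hκ)

theorem low_low (hκ : κ.IsInaccessible) (α : Ik κ) (g : S.RR) : S.Low α (S.low hκ α g) := by
  intro ξ h
  by_contra hc
  rw [low, cat_apply_of_lt _ _ (not_le.1 hc)] at h
  simp [top] at h

theorem low_apply (hκ : κ.IsInaccessible) {α ξ : Ik κ} (g : S.RR) (h : ξ ≤ α) :
    (S.low hκ α g).1 ξ = g.1 ξ := cat_apply_of_le _ _ h

theorem le_low (hκ : κ.IsInaccessible) (α : Ik κ) (g : S.RR) : g ≤ S.low hκ α g := by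
  intro ξ c x hx
  have h : ξ ≤ α := S.low_low hκ α g ξ (by rw [hx]; simp)
  rw [low_apply hκ g h] at hx
  exact ⟨x, hx, S.le_refl' g.2 hx⟩

theorem low_eq (hκ : κ.IsInaccessible) {α : Ik κ} {a : S.RR} (ha : S.Low α a) :
    S.low hκ α a = a := by
  refine Subtype.ext (funext fun ξ => ?_)
  rcases le_or_gt ξ α with h | h
  · exact low_apply hκ a h
  · have h1 : a.1 ξ = none := by
      by_contra hc
      exact absurd (ha ξ hc) (not_le.2 h)
    rw [h1]
    by_contra hc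
    exact absurd (low_low hκ α a ξ hc) (not_le.2 h)

theorem low_mono (hκ : κ.IsInaccessible) {α : Ik κ} {g g' : S.RR} (h : g' ≤ g) :
    S.low hκ α g' ≤ S.low hκ α g := by
  refine cat_le (fun ξ hξ c x hx => ?_) (fun ξ hξ c x hx => ?_)
  · rw [low_apply hκ g hξ] at hx
    exact h ξ c x hx
  · exact absurd (low_low hκ α g ξ (by rw [hx]; simp)) (not_le.2 hξ)

/-- amalgamation -/
theorem cat_le_right (hκ : κ.IsInaccessible) {α : Ik κ} {a g : S.RR} (h : a ≤ S.low hκ α g) :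
    S.cat α a g ≤ g := by
  refine cat_le (fun ξ hξ c x hx => ?_) (fun ξ hξ c x hx => ?_)
  · rw [← low_apply hκ g hξ] at hx
    exact h ξ c x hx
  · exact ⟨x, hx, S.le_refl' (S.cat α a g).2 (show (S.cat α a g).1 ξ = some (c, x) from
      (cat_apply_of_lt _ _ hξ).trans hx)⟩

/-- if `w ≤ a + g` and `a' ≤ w` below `α` then `a' + w ≤ a' + g` -/
theorem cat_le_cat (hκ : κ.IsInaccessible) {α : Ik κ} {a a' g w : S.RR} (hw : w ≤ S.cat α a g)
    (h : a' ≤ S.low hκ α w) : S.cat α a' w ≤ S.cat α a' g := by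
  refine cat_le (fun ξ hξ c x hx => ?_) (fun ξ hξ c x hx => ?_)
  · rw [cat_apply_of_le _ _ hξ] at hx
    exact ⟨x, hx, S.le_refl' a'.2 hx⟩
  · rw [cat_apply_of_lt _ _ hξ] at hx
    obtain ⟨x', h1, h2⟩ := hw ξ c x ((cat_apply_of_lt _ _ hξ).trans hx)
    refine ⟨x', h1, ?_⟩
    have h3 : S.cat α a' w ≤ w := cat_le_right hκ h
    exact (S.val' g.2 hx).down _ _ _ _ ((S.cat α a' w).2.res ξ) (res_res _ le_rfl)
      (Le.res h3 ξ) h2

variable {Θ : Type} {N : NOrd S.RR Θ}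

theorem catT_mono_left {α : Ik κ} {a' a : S.RR} (h : a' ≤ a) (g : Two N) :
    S.catT N α a' g ≤ S.catT N α a g := ⟨cat_mono_left h g.1, N.refl _ _⟩

theorem catT_le_right (hκ : κ.IsInaccessible) {α : Ik κ} {a : S.RR} {g : Two N}
    (h : a ≤ S.low hκ α g.1) : S.catT N α a g ≤ g := ⟨cat_le_right hκ h, N.refl _ _⟩

theorem catT_le_catT (hκ : κ.IsInaccessible) {α : Ik κ} {a a' : S.RR} {g w : Two N}
    (hw : w ≤ S.catT N α a g) (h : a' ≤ S.low hκ α w.1) : S.catT N α a' w ≤ S.catT N α a' g :=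
  ⟨cat_le_cat hκ hw.1 h, N.down _ _ _ hw.2 _ (cat_le_right hκ h)⟩

end Sys

end Pool.Agent.Helper403.SZ
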