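import Mathlib
import Pool.Agent.Helper403_SZ.Defs

set_option autoImplicit false

/-!
# Powers of the finite successors of `2 ^ μ`
-/

namespace Pool.Agent.Helper403.SZ

open Cardinal Set

theorem le_plus0 (μ : Cardinal.{0}) (n : ℕ) : μ ≤ plus μ n := by
  induction n with
  | zero => exact le_rfl
  | succ n ih => exact ih.trans (Order.le_succ _)

/-- Hausdorff's formula, as an inequality -/
theorem succ_power_le {ν μ : Cardinal.{0}} (hμ : ℵ₀ ≤ μ) (hν : μ ≤ ν) :
    (Order.succ ν) ^ μ ≤ Order.succ ν * ν ^ μ := by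
  have hν0 : ℵ₀ ≤ ν := hμ.trans hν
  have hreg : (Order.succ ν).IsRegular := isRegular_succ hν0
  have h1 : Order.succ ν ^ μ = #(μ.out → (Order.succ ν).ord.ToType) := by
    rw [mk_arrow, lift_id, lift_id, mk_ord_toType, mk_out]
  have h2 : ∀ f : μ.out → (Order.succ ν).ord.ToType, ∃ b, ∀ i, f i < b := by
    intro f
    by_contra hcon
    push Not at hcon
    have h3 : IsCofinal (Set.range f) := by
      intro b
      obtain ⟨i, hi⟩ := hcon b
      exact ⟨f i, ⟨i, rfl⟩, hi⟩
    have h4 := Order.cof_le h3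
    rw [Ordinal.cof_toType, hreg.cof_ord] at h4
    have h5 : #(Set.range f) ≤ #μ.out := mk_range_le
    rw [mk_out] at h5
    exact absurd (h4.trans (h5.trans hν)) (not_le.2 (Order.lt_succ ν))
  choose b hb using h2
  rw [h1]
  have h6 : #(μ.out → (Order.succ ν).ord.ToType) ≤
      #(Σ b : (Order.succ ν).ord.ToType, (μ.out → Iio b)) := by
    refine mk_le_of_injective (f := fun f => ⟨b f, fun i => ⟨f i, hb f i⟩⟩) ?_
    intro f g hfg
    simp only [Sigma.mk.injEq] at hfg
    obtain ⟨h7, h8⟩ := hfg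
    funext i
    have key : ∀ (c c' : (Order.succ ν).ord.ToType) (u : μ.out → Iio c) (v : μ.out → Iio c'),
        c = c' → HEq u v → (u i).1 = (v i).1 := by
      rintro c c' u v rfl h
      rw [eq_of_heq h]
    exact key _ _ _ _ h7 h8
  refine h6.trans ?_
  rw [mk_sigma]
  refine (sum_le_mk_mul_iSup _).trans ?_
  rw [mk_ord_toType]
  refine mul_le_mul' le_rfl (ciSup_le' fun b => ?_)
  rw [mk_arrow, lift_id, lift_id, mk_out]
  exact power_le_power_right (Order.lt_succ_iff.1 (mk_Iio_toType_ord_lt b))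

theorem plus_pow {μ : Cardinal.{0}} (hμ : ℵ₀ ≤ μ) (n : ℕ) :
    plus (2 ^ μ) n ^ μ = plus (2 ^ μ) n := by
  refine le_antisymm ?_ (self_le_power _ (one_le_aleph0.trans hμ))
  induction n with
  | zero =>
    change (2 ^ μ : Cardinal.{0}) ^ μ ≤ 2 ^ μ
    rw [← power_mul, mul_eq_self hμ]
  | succ n ih =>
    change Order.succ (plus (2 ^ μ) n) ^ μ ≤ Order.succ (plus (2 ^ μ) n)
    have h0 : μ ≤ plus (2 ^ μ) n := (cantor μ).le.trans (le_plus0 _ n)
    refine (succ_power_le hμ h0).trans ?_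
    refine (mul_le_mul' le_rfl (ih.trans (Order.le_succ _))).trans ?_
    rw [mul_eq_self (hμ.trans (h0.trans (Order.le_succ _)))]

end Pool.Agent.Helper403.SZ
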