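import Mathlib
import Pool.Agent.Helper403_SZ.AStmts
import Pool.Agent.Helper669.KA2

set_option autoImplicit false

/-!
# The terms (job A1)
-/

namespace Pool.Agent.Helper403.SZ.TA1

open Cardinal Set Pool.Agent.Helper669.Forcing Pool.Agent.Helper669.K Pool.Agent.Helper403.SZ

section

variable {κ : Cardinal.{0}}

/-- labels of the terms -/
abbrev Lab (κ : Cardinal.{0}) (Λ : Type) : Type :=
  Option κ.ord.ToType ⊕ ((κ.ord.ToType → κ.ord.ToType → κ.ord.ToType) ⊕ Λ)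

/-- number of children -/
def Ch {Λ : Type} : Lab κ Λ → Type
  | Sum.inl _ => Empty
  | Sum.inr (Sum.inl _) => Bool
  | Sum.inr (Sum.inr _) => Unit

variable {P : Type} [Preorder P] {Λ : Type}

/-- the conditions which decide the value of a term -/
def Val (Cd : Λ → κ.ord.ToType → κ.ord.ToType → Set P) :
    WType (Ch (κ := κ) (Λ := Λ)) → κ.ord.ToType → κ.ord.ToType → Set P
  | WType.mk (Sum.inl none) _, ξ, γ => {_q | γ = ξ}
  | WType.mk (Sum.inl (some c)) _, _, γ => {_q | γ = c}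
  | WType.mk (Sum.inr (Sum.inl h)) g, ξ, δ =>
    {q | ∃ γ γ', q ∈ Val Cd (g true) ξ γ ∧ q ∈ Val Cd (g false) ξ γ' ∧ δ = h γ γ'}
  | WType.mk (Sum.inr (Sum.inr i)) g, ξ, c => {q | ∃ γ, q ∈ Val Cd (g ()) ξ γ ∧ q ∈ Cd i γ c}

variable {Cd : Λ → κ.ord.ToType → κ.ord.ToType → Set P}

theorem val_down (hC : ∀ i γ c, Down (Cd i γ c)) (s : WType (Ch (κ := κ) (Λ := Λ))) :
    ∀ ξ γ, Down (Val Cd s ξ γ) := by
  induction s with
  | mk a g ih =>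
    intro ξ γ q hq r hr
    rcases a with (_ | c) | (h | i)
    · exact hq
    · exact hq
    · obtain ⟨γ1, γ2, h1, h2, h3⟩ := hq
      exact ⟨γ1, γ2, ih true ξ γ1 q h1 r hr, ih false ξ γ2 q h2 r hr, h3⟩
    · obtain ⟨γ1, h1, h2⟩ := hq
      exact ⟨γ1, ih () ξ γ1 q h1 r hr, hC i γ1 γ q h2 r hr⟩

omit [Preorder P] in
theorem val_fn (hC : ∀ i γ c c' q, q ∈ Cd i γ c → q ∈ Cd i γ c' → c = c')
    (s : WType (Ch (κ := κ) (Λ := Λ))) :
    ∀ ξ γ γ' q, q ∈ Val Cd s ξ γ → q ∈ Val Cd s ξ γ' → γ = γ' := by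
  induction s with
  | mk a g ih =>
    intro ξ γ γ' q hq hq'
    rcases a with (_ | c) | (h | i)
    · exact Eq.trans hq hq'.symm
    · exact Eq.trans hq hq'.symm
    · obtain ⟨γ1, γ2, h1, h2, h3⟩ := hq
      obtain ⟨γ1', γ2', h1', h2', h3'⟩ := hq'
      rw [h3, h3', ih true ξ γ1 γ1' q h1 h1', ih false ξ γ2 γ2' q h2 h2']
    · obtain ⟨γ1, h1, h2⟩ := hq
      obtain ⟨γ1', h1', h2'⟩ := hq'
      rw [ih () ξ γ1 γ1' q h1 h1'] at h2
      exact hC i γ1' γ γ' q h2 h2'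

theorem val_dense (hC0 : ∀ i γ c, Down (Cd i γ c)) (hC : ∀ i γ q, ∃ q' ≤ q, ∃ c, q' ∈ Cd i γ c)
    (s : WType (Ch (κ := κ) (Λ := Λ))) : ∀ ξ q, ∃ q' ≤ q, ∃ γ, q' ∈ Val Cd s ξ γ := by
  induction s with
  | mk a g ih =>
    intro ξ q
    rcases a with (_ | c) | (h | i)
    · exact ⟨q, le_rfl, ξ, rfl⟩
    · exact ⟨q, le_rfl, c, rfl⟩
    · obtain ⟨q1, hq1, γ1, h1⟩ := ih true ξ q
      obtain ⟨q2, hq2, γ2, h2⟩ := ih false ξ q1
      exact ⟨q2, hq2.trans hq1, h γ1 γ2, γ1, γ2, val_down hC0 _ _ _ _ h1 _ hq2, h2, rfl⟩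
    · obtain ⟨q1, hq1, γ1, h1⟩ := ih () ξ q
      obtain ⟨q2, hq2, c, h2⟩ := hC i γ1 q1
      exact ⟨q2, hq2.trans hq1, c, γ1, val_down hC0 _ _ _ _ h1 _ hq2, h2⟩

end

/-- `q` forces `Y ∩ γ = Z ∩ γ` -/
def Agr {κ : Cardinal.{0}} {P : Type} [Preorder P] (γ : κ.ord.ToType)
    (Y Z : κ.ord.ToType → Set P) (q : P) : Prop :=
  ∀ β < γ, ∀ r ≤ q, r ∈ meets (Y β) ↔ r ∈ meets (Z β)

theorem Agr.down {κ : Cardinal.{0}} {P : Type} [Preorder P] {γ : κ.ord.ToType}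
    {Y Z : κ.ord.ToType → Set P} {q q' : P} (h : Agr γ Y Z q) (hq : q' ≤ q) : Agr γ Y Z q' :=
  fun β hβ r hr => h β hβ r (hr.trans hq)

/-- the property of the conditions given by `PowSmall` -/
def Good {κ : Cardinal.{0}} {P : Type} [Preorder P] (γ : κ.ord.ToType) (a : P) (n : ℕ)
    (F : κ.ord.ToType → κ.ord.ToType → Set P) : Prop :=
  ∀ Y : κ.ord.ToType → Set P, ∀ q1 ≤ a, ∃ q2 ≤ q1, ∃ c, #(Iio c) < plus (2 ^ #(Iio γ)) n ∧
    Agr γ Y (F c) q2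

/-- job A1 -/
theorem _root_.Pool.Agent.Helper403.SZ.jobA1 : StmtA1 := by
  intro κ hκ P _ hpow Λ X hΛ
  -- the antichains
  have hA : ∀ γ : κ.ord.ToType, ∃ (M : Set P) (n : P → ℕ)
      (F : P → κ.ord.ToType → κ.ord.ToType → Set P), IsD γ →
      (M.Pairwise (fun a b => ¬ ∃ r, r ≤ a ∧ r ≤ b) ∧ (∀ q, ∃ m ∈ M, ∃ r, r ≤ q ∧ r ≤ m) ∧
        ∀ m ∈ M, Good γ m (n m) (F m)) := by
    intro γ
    by_cases hγ : IsD γ
    · obtain ⟨M, hM1, hM2, hM3⟩ := h400_antichain {q' : P | ∃ n F, Good γ q' n F}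
      have hch : ∀ m : P, ∃ (n : ℕ) (F : κ.ord.ToType → κ.ord.ToType → Set P),
          m ∈ M → Good γ m n F := by
        intro m
        by_cases hm : m ∈ M
        · obtain ⟨n, F, h⟩ := hM1 hm
          exact ⟨n, F, fun _ => h⟩
        · exact ⟨0, fun _ _ => ∅, fun h => absurd h hm⟩
      choose n F hnF using hch
      refine ⟨M, n, F, fun _ => ⟨hM2, fun q => ?_, hnF⟩⟩
      obtain ⟨q', hq', n, F, h⟩ := hpow γ hγ q
      obtain ⟨m, hm, r, hr1, hr2⟩ := hM3 q' ⟨n, F, h⟩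
      exact ⟨m, hm, r, hr1.trans hq', hr2⟩
    · exact ⟨∅, fun _ => 0, fun _ _ _ => ∅, fun h => absurd h hγ⟩
  choose M n F hMF using hA
  -- the codes
  obtain ⟨Cd, hCd⟩ : ∃ Cd : Λ → κ.ord.ToType → κ.ord.ToType → Set P, Cd = fun i γ c =>
    {q | (¬ IsD γ ∧ c = γ) ∨ (IsD γ ∧ ∃ a ∈ M γ, q ≤ a ∧ Agr γ (X i) (F γ a c) q ∧
      ∀ c' < c, ∀ q' ≤ q, ¬ Agr γ (X i) (F γ a c') q')} := ⟨_, rfl⟩
  have huniq : ∀ γ, IsD γ → ∀ q a a', a ∈ M γ → a' ∈ M γ → q ≤ a → q ≤ a' → a = a' := by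
    intro γ hγ q a a' ha ha' hq hq'
    by_contra hne
    exact (hMF γ hγ).1 ha ha' hne ⟨q, hq, hq'⟩
  have hdown : ∀ i γ c, Down (Cd i γ c) := by
    rw [hCd]
    rintro i γ c q (h | ⟨h, a, ha, hqa, h1, h2⟩) r hr
    · exact Or.inl h
    · exact Or.inr ⟨h, a, ha, hr.trans hqa, h1.down hr, fun c' hc' q' hq' => h2 c' hc' q' (hq'.trans hr)⟩
  have hfn : ∀ i γ c c' q, q ∈ Cd i γ c → q ∈ Cd i γ c' → c = c' := by
    rw [hCd]
    rintro i γ c c' q (h | ⟨h, a, ha, hqa, h1, h2⟩) (h' | ⟨h', a', ha', hqa', h1', h2'⟩)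
    · exact h.2.trans h'.2.symm
    · exact absurd h' h.1
    · exact absurd h h'.1
    · obtain rfl := huniq γ h q a a' ha ha' hqa hqa'
      rcases lt_trichotomy c c' with hlt | he | hlt
      · exact absurd h1 (h2' c hlt q le_rfl)
      · exact he
      · exact absurd h1' (h2 c' hlt q le_rfl)
  have hdense : ∀ i γ q, ∃ q' ≤ q, ∃ c, q' ∈ Cd i γ c := by
    rw [hCd]
    intro i γ q
    by_cases hγ : IsD γ
    · obtain ⟨hM1, hM2, hM3⟩ := hMF γ hγ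
      obtain ⟨a, ha, r, hrq, hra⟩ := hM2 q
      obtain ⟨q2, hq2, c, _, hagr⟩ := hM3 a ha (X i) r hra
      obtain ⟨c1, ⟨q3, hq3, h3⟩, hmin⟩ := WellFounded.has_min
        (wellFounded_lt : WellFounded ((· < ·) : κ.ord.ToType → κ.ord.ToType → Prop))
        {c | ∃ q' ≤ r, Agr γ (X i) (F γ a c) q'} ⟨c, q2, hq2, hagr⟩
      refine ⟨q3, hq3.trans hrq, c1, Or.inr ⟨hγ, a, ha, hq3.trans hra, h3, ?_⟩⟩
      intro c' hc' q' hq' h'
      exact hmin c' ⟨q', hq'.trans hq3, h'⟩ hc'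
    · exact ⟨q, le_rfl, γ, Or.inl ⟨hγ, rfl⟩⟩
  have hlt : ∀ i γ c q a, IsD γ → q ∈ Cd i γ c → a ∈ M γ → q ≤ a →
      #(Iio c) < plus (2 ^ #(Iio γ)) (n γ a) := by
    rw [hCd]
    rintro i γ c q a hγ (h | ⟨h, a', ha', hqa', h1, h2⟩) ha hqa
    · exact absurd hγ h.1
    · obtain rfl := huniq γ h q a a' ha ha' hqa hqa'
      obtain ⟨q2, hq2, c2, hc2, hagr⟩ := (hMF γ hγ).2.2 a ha (X i) q hqa
      refine (mk_le_mk_of_subset ?_).trans_lt hc2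
      intro x hx
      by_contra hx'
      exact h2 c2 ((not_lt.1 hx').trans_lt hx) q2 hq2 hagr
  have hinj : ∀ i j γ c q, IsD γ → q ∈ Cd i γ c → q ∈ Cd j γ c →
      ∀ β < γ, ∀ r ≤ q, r ∈ meets (X i β) ↔ r ∈ meets (X j β) := by
    rw [hCd]
    rintro i j γ c q hγ (h | ⟨h, a, ha, hqa, h1, h2⟩) (h' | ⟨h', a', ha', hqa', h1', h2'⟩)
    · exact absurd hγ h.1
    · exact absurd hγ h.1
    · exact absurd hγ h'.1
    · obtain rfl := huniq γ h q a a' ha ha' hqa hqa'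
      intro β hβ r hr
      exact (h1 β hβ r hr).trans (h1' β hβ r hr).symm
  have hκΛ' : 2 ^ κ ≤ plusOmega (2 ^ κ) := by
    refine (le_ciSup (f := fun n => plus (2 ^ κ) n) ?_ 0)
    exact bddAbove_of_small
  have hκΛ : κ ≤ plusOmega (2 ^ κ) := (cantor κ).le.trans hκΛ'
  have hΛ0 : ℵ₀ ≤ plusOmega (2 ^ κ) := hκ.1.le.trans hκΛ
  refine ⟨{
    T := WType (Ch (κ := κ) (Λ := Λ))
    card := ?_
    Val := Val Cd
    down := val_down hdown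
    fn := val_fn hfn
    dense := val_dense hdown hdense
    idt := WType.mk (Sum.inl none) Empty.elim
    val_idt := fun _ _ => rfl
    cst := fun c => WType.mk (Sum.inl (some c)) Empty.elim
    val_cst := fun _ _ _ => rfl
    op := fun g s s' => WType.mk (Sum.inr (Sum.inl g)) (Bool.rec s' s)
    val_op := ?_
    NN := fun γ m => {q | ∃ a ∈ M γ, q ≤ a ∧ n γ a = m}
    NN_down := ?_
    NN_dense := ?_
    NN_fn := ?_
    code := fun i s => WType.mk (Sum.inr (Sum.inr i)) fun _ => s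
    code_lt := ?_
    code_inj := ?_ }⟩
  · have : ∀ a : Lab κ Λ, Finite (Ch a) := by
      rintro (_ | (_ | _))
      · exact inferInstanceAs (Finite Empty)
      · exact inferInstanceAs (Finite Bool)
      · exact inferInstanceAs (Finite Unit)
    refine (WType.cardinalMk_le_max_aleph0_of_finite (β := Ch (κ := κ) (Λ := Λ))).trans
      (max_le ?_ hΛ0)
    have h1 : #(κ.ord.ToType → κ.ord.ToType → κ.ord.ToType) ≤ plusOmega (2 ^ κ) := by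
      refine le_trans ?_ hκΛ'
      rw [mk_arrow, mk_arrow, lift_id, lift_id, mk_ord_toType, ← power_mul,
        mul_eq_self hκ.1.le, power_self_eq hκ.1.le]
    rw [mk_sum, mk_sum, lift_id, lift_id, lift_id, lift_id, mk_option, mk_ord_toType, hΛ,
      add_one_eq hκ.1.le, add_eq_right hΛ0 h1, add_eq_right hΛ0 hκΛ]
  · intro g s s' ξ γ γ' q h1 h2
    exact ⟨γ, γ', h1, h2, rfl⟩
  · rintro γ m q ⟨a, ha, hqa, h⟩ r hr
    exact ⟨a, ha, hr.trans hqa, h⟩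
  · intro γ hγ q
    obtain ⟨a, ha, r, hrq, hra⟩ := (hMF γ hγ).2.1 q
    exact ⟨r, hrq, _, a, ha, hra, rfl⟩
  · rintro γ hγ q m m' ⟨a, ha, hqa, rfl⟩ ⟨a', ha', hqa', rfl⟩
    rw [huniq γ hγ q a a' ha ha' hqa hqa']
  · intro i s ξ γ c m q hγ h1 h2 h3
    obtain ⟨a, ha, hqa, rfl⟩ := h2
    obtain ⟨γ1, h4, h5⟩ := h3
    have h4' : q ∈ Val Cd s ξ γ1 := h4
    rw [val_fn hfn s ξ γ1 γ q h4' h1] at h5
    exact hlt i γ c q a hγ h5 ha hqa
  · intro i j s ξ γ c q hγ h1 h2 h3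
    obtain ⟨γ1, h4, h5⟩ := h2
    obtain ⟨γ2, h6, h7⟩ := h3
    have h4' : q ∈ Val Cd s ξ γ1 := h4
    have h6' : q ∈ Val Cd s ξ γ2 := h6
    rw [val_fn hfn s ξ γ1 γ q h4' h1] at h5
    rw [val_fn hfn s ξ γ2 γ q h6' h1] at h7
    exact hinj i j γ c q hγ h5 h7

end Pool.Agent.Helper403.SZ.TA1
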