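import Mathlib
import Pool.Agent.Helper403_SZ.AStmts2

set_option autoImplicit false

/-!
# Job A2: the upper bound from the terms, the combinatorial core and the jobs A4 and A5
-/

namespace Pool.Agent.Helper403.SZ.TA2

open Cardinal Set Pool.Agent.Helper669.Forcing Pool.Agent.Helper669.K Pool.Agent.W873.Tp

section main

variable {P : Type} [Preorder P] {κ : Cardinal.{0}} {Λ : Type} {X : Λ → κ.ord.ToType → Set P}
  (TT : Terms κ P Λ X) {A : κ.ord.ToType → Set P} {p : P}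

/-- the value of `t` at `ξ` is (as an ordinal) an inaccessible cardinal -/
def Gd (t : TT.T) (ξ : κ.ord.ToType) : Set P := {r | ∃ γ, r ∈ TT.Val t ξ γ ∧ IsD γ}

theorem down_Gd (t : TT.T) (ξ : κ.ord.ToType) : Down (Gd TT t ξ) := by
  rintro q ⟨γ, h1, h2⟩ q' hq'
  exact ⟨γ, TT.down _ _ _ _ h1 _ hq', h2⟩

/-- the main part: an unsplit set gives a contradiction -/
theorem main (h3 : StmtA3) (h4 : StmtA4) (h5 : StmtA5) (hκ : κ.IsInaccessible)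
    (hσ : DirClosed ℵ₁ P) (hreg : ∀ q : P, q ∈ StaysRegular P κ) (hcc : CC P κ)
    (hfr : NoFresh κ P) (hΛ : ∀ n, plus (2 ^ κ) n ≤ #Λ)
    (hX : Distinct X) (hA : p ∈ HasFullSize A)
    (hdec : ∀ s s', ∀ q ≤ p, ∃ q' ≤ q, q' ∈ AE A (Gl TT s s') ∨
      q' ∈ AE A (fun ξ => fnot (Gl TT s s' ξ)))
    (hdecn : ∀ t m, ∀ q ≤ p, ∃ q' ≤ q, q' ∈ AE A (Gn TT t m) ∨
      q' ∈ AE A (fun ξ => fnot (Gn TT t m ξ))) : False := by
  classical
  have hκ0 : ℵ₀ ≤ κ := hκ.1.le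
  obtain ⟨q, hqp, t, hnc, hmin⟩ := exists_min TT hκ hσ hA
  have hMT : MinT TT A p q t := ⟨hA, hqp, hdec, hnc, hmin⟩
  have habove := fun c => above_cst TT hκ hreg hA hdec hqp hnc c
  obtain ⟨qa, hqa, hca⟩ : ∃ qa ≤ q, qa ∈ AE A (Gd TT t) :=
    h4 κ hκ P hreg Λ X TT A p q t hMT q le_rfl
  obtain ⟨CV, hCVd, hCV1, hCV2⟩ := h5 κ hκ P hreg hfr Λ X TT A p q t hMT
  -- Step 3: decide the number
  obtain ⟨qb, hqb, hb⟩ := exists_forall_mem (κ := ℵ₁) (Cardinal.aleph0_lt_aleph_one).le hσ (N := ℕ)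
    (by rw [Cardinal.mk_nat]; exact Cardinal.aleph0_lt_aleph_one)
    (fun m => {r | r ∈ AE A (Gn TT t m) ∨ r ∈ AE A (fun ξ => fnot (Gn TT t m ξ)) ∨
      ∀ s ≤ r, ¬ s ≤ p})
    (by
      rintro m r (hr | hr | hr) r' hr'
      · exact Or.inl (down_AE _ _ _ hr _ hr')
      · exact Or.inr (Or.inl (down_AE _ _ _ hr _ hr'))
      · exact Or.inr (Or.inr fun s hs => hr s (hs.trans hr')))
    (by
      intro m r
      by_cases h : ∃ s ≤ r, s ≤ p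
      · obtain ⟨s, hs, hsp⟩ := h
        obtain ⟨s', hs', h'⟩ := hdecn t m s hsp
        rcases h' with h' | h'
        · exact ⟨s', hs'.trans hs, Or.inl h'⟩
        · exact ⟨s', hs'.trans hs, Or.inr (Or.inl h')⟩
      · push Not at h
        exact ⟨r, le_rfl, Or.inr (Or.inr h)⟩) qa
  have hqbp : qb ≤ p := hqb.trans (hqa.trans hqp)
  have hm : ∃ m, qb ∈ AE A (Gn TT t m) := by
    by_contra hcon
    push Not at hcon
    have hnot : ∀ m, qb ∈ AE A (fun ξ => fnot (Gn TT t m ξ)) := by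
      intro m
      rcases hb m with h | h | h
      · exact absurd h (hcon m)
      · exact h
      · exact absurd hqbp (h qb le_rfl)
    choose b hb' using hnot
    obtain ⟨B, hB⟩ := bdd_seq833 hκ.isRegular hκ.1 b
    obtain ⟨r, hr, ξ, hξ, hm, γ, hv, hγ⟩ := AE_point hκ0 hA hqbp (down_AE _ _ _ hca _ hqb) B
    obtain ⟨r1, hr1, m, hmm⟩ := TT.NN_dense γ hγ r
    obtain ⟨r2, hr2, h2⟩ := hb' m ξ ((hB m).trans_lt hξ) r1 (hr1.trans hr) (down_meets _ _ hm _ hr1)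
    exact h2 r2 le_rfl ⟨γ, TT.down _ _ _ _ hv _ (hr2.trans hr1), TT.NN_down _ _ _ hmm _ hr2⟩
  obtain ⟨m, hm⟩ := hm
  -- the family of the codes
  obtain ⟨f⟩ : Nonempty ((plus (2 ^ κ) (m + 1)).out ↪ Λ) := by
    rw [← Cardinal.le_def, Cardinal.mk_out]
    exact hΛ (m + 1)
  obtain ⟨i, j, hij, r', hr', -, hEQ⟩ := h3 κ (2 ^ κ) hκ0 (Cardinal.cantor κ).le P hcc TT.T
    (Set κ.ord.ToType) CV
    (fun s s' => AE A (Ge TT s s')) (fun s s' => AE A (Gl TT s s'))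
    (fun k s => AE A (Gb TT t k s)) (fun s s' => TT.op H s s') qb
    (by rw [Cardinal.mk_set, Cardinal.mk_ord_toType])
    hCVd (fun _ _ => down_AE _ _) (fun _ _ => down_AE _ _) (fun _ _ => down_AE _ _)
    (fun s s' r hr => tri TT hdec s s' r (hr.trans hqbp))
    (fun s r hr h => hCV1 s r (hr.trans (hqb.trans hqa)) h)
    (fun s s' c r hr h h' => hCV2 s s' c r (hr.trans (hqb.trans hqa)) h h')
    (fun s s' r _ h => Ge_symm TT h)
    (by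
      intro k s s' r _ h h'
      refine AE_map (AE_and (fun ξ => down_Gl TT _ _ ξ) h h') ?_
      rintro ξ r1 _ ⟨⟨γ', γ, hlt, hv', hv⟩, τ, γ2, hτ, hv2, hlt2⟩
      have e1 : γ2 = γ := TT.fn _ _ _ _ _ hv2 hv
      subst e1
      exact ⟨r1, le_rfl, τ, H γ2 γ', hτ, TT.val_op H _ _ _ _ _ _ hv hv',
        (H_lt hlt).trans_le (Order.lt_succ_iff.1 hlt2)⟩)
    (by
      intro s s' s'' r _ h h' h''
      refine AE_map (AE_and (fun ξ => down_Gl TT _ _ ξ) h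
        (AE_and (fun ξ => down_Gl TT _ _ ξ) h' h'')) ?_
      rintro ξ r1 _ ⟨⟨γ', γ, hlt, hv', hv⟩, ⟨γ'', γ2, hlt2, hv'', hv2⟩, δ, hδ, hδ'⟩
      have e1 : γ2 = γ := TT.fn _ _ _ _ _ hv2 hv
      subst e1
      have e2 : δ = H γ2 γ' := TT.fn _ _ _ _ _ hδ (TT.val_op H _ _ _ _ _ _ hv hv')
      have e3 : δ = H γ2 γ'' := TT.fn _ _ _ _ _ hδ' (TT.val_op H _ _ _ _ _ _ hv hv'')
      have h1 : γ' = γ'' := H_inj hlt hlt2 (e2.symm.trans e3)
      subst h1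
      exact ⟨r1, le_rfl, γ', hv', hv''⟩)
    m (plus (2 ^ κ) (m + 1)).out (fun _ => qb) (fun i => TT.code (f i) t) (Cardinal.mk_out _)
    (fun _ => le_rfl)
    (by
      intro i
      refine AE_map (AE_and (fun ξ => down_Gn TT _ _ ξ) hm (down_AE _ _ _ hca _ hqb)) ?_
      rintro ξ r1 _ ⟨⟨γ, hv, hn⟩, γ2, hv2, hd⟩
      have e1 : γ2 = γ := TT.fn _ _ _ _ _ hv2 hv
      subst e1
      obtain ⟨r2, hr2, c, hc⟩ := TT.dense (TT.code (f i) t) ξ r1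
      exact ⟨r2, hr2, γ2, c, TT.down _ _ _ _ hv _ hr2, hc, TT.code_lt (f i) t ξ γ2 c m r2
        hd (TT.down _ _ _ _ hv _ hr2) (TT.NN_down _ _ _ hn _ hr2) hc⟩)
  -- the contradiction
  have hfij : f i ≠ f j := fun h => hij (f.injective h)
  obtain ⟨r1, hr1, β, hβ⟩ := hX (f i) (f j) hfij r'
  obtain ⟨r2, hr2, h2⟩ := habove β r1 (hr1.trans (hr'.trans (hqb.trans hqa)))
  have h2p : r2 ≤ p := hr2.trans (hr1.trans (hr'.trans hqbp))
  have hdn : ∀ ξ, Down (Gl TT (TT.cst β) t ξ ∩ Gd TT t ξ) := fun ξ r hr r' hr' =>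
    ⟨down_Gl TT _ _ ξ r hr.1 r' hr', down_Gd TT _ ξ r hr.2 r' hr'⟩
  obtain ⟨r3, hr3, ξ, _, _, ⟨⟨γ1, γ, hlt, hc, hv⟩, γ2, hv2, hd⟩, c, hi, hj⟩ := AE_point hκ0 hA h2p
    (AE_and hdn
      (AE_and (fun ξ => down_Gl TT _ _ ξ) h2
        (down_AE _ _ _ hca _ (hr2.trans (hr1.trans (hr'.trans hqb)))))
      (down_AE _ _ _ hEQ _ (hr2.trans hr1))) β
  have e1 : γ1 = β := TT.fn _ _ _ _ _ hc (TT.val_cst β ξ r3)
  have e2 : γ2 = γ := TT.fn _ _ _ _ _ hv2 hv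
  rw [e1] at hlt
  subst e2
  have hcode := TT.code_inj (f i) (f j) t ξ γ2 c r3 hd hv hi hj β hlt r3 le_rfl
  have h31 : r3 ≤ r1 := hr3.trans hr2
  rcases hβ with ⟨hβ1, hβ2⟩ | ⟨hβ1, hβ2⟩
  · exact hβ2 r3 h31 (hcode.1 (down_meets _ _ hβ1 _ h31))
  · exact hβ2 r3 h31 (hcode.2 (down_meets _ _ hβ1 _ h31))

end main

end Pool.Agent.Helper403.SZ.TA2

namespace Pool.Agent.Helper403.SZ

open Cardinal Set Pool.Agent.Helper669.Forcing Pool.Agent.Helper669.K Pool.Agent.W873.Tp TA2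

theorem jobA2 : StmtA3 → StmtA4 → StmtA5 → StmtA2 := by
  classical
  intro h3 h4 h5 κ hκ P _ hσ hreg hcc hfr Λ X hΛ hX TT q
  have hκ0 : ℵ₀ ≤ κ := hκ.1.le
  have hω : ℵ₀ ≤ plusOmega (2 ^ κ) :=
    hκ0.trans ((Cardinal.cantor κ).le.trans (plus_le_omega (2 ^ κ) 0))
  -- the index set
  let J := (TT.T × TT.T) ⊕ (TT.T × ℕ)
  let G : J → κ.ord.ToType → Set P := Sum.elim (fun s => Gl TT s.1 s.2) (fun s => Gn TT s.1 s.2)
  have hG : ∀ j ξ, Down (G j ξ) := by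
    rintro (⟨s, s'⟩ | ⟨t, m⟩) ξ
    · exact down_Gl TT s s' ξ
    · exact down_Gn TT t m ξ
  have hJ : #J ≤ plusOmega (2 ^ κ) := by
    have h1 : #J = #TT.T * #TT.T + #TT.T * ℵ₀ := by
      simp only [J, Cardinal.mk_sum, Cardinal.mk_prod, Cardinal.lift_id, Cardinal.mk_nat]
    rw [h1]
    refine (add_le_add (mul_le_mul' TT.card TT.card) (mul_le_mul' TT.card hω)).trans ?_
    rw [Cardinal.mul_eq_self hω, Cardinal.add_eq_self hω]
  have : Nonempty J := ⟨Sum.inl (TT.idt, TT.idt)⟩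
  obtain ⟨g⟩ : Nonempty (J ↪ (plusOmega (2 ^ κ)).out) := by
    rw [← Cardinal.le_def, Cardinal.mk_out]
    exact hJ
  let e : (plusOmega (2 ^ κ)).out → J := Function.invFun g
  have he : ∀ j, e (g j) = j := Function.leftInverse_invFun g.injective
  refine mem_fex_of_mem (fun i => fix (G (e i))) ?_ ⟨fun i => ?_, fun A => ?_⟩
  · exact down_fand (down_fall fun _ => down_full _) (down_fall fun _ => down_fimp _ _)
  · exact fix_full hκ0 hreg _ (hG _) q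
  refine mem_fimp.2 fun q1 _ hA => ?_
  by_contra hcon
  push Not at hcon
  have h1 := hcon q1 le_rfl
  rw [mem_fex] at h1
  push Not at h1
  obtain ⟨p, hp, hns⟩ := h1
  have hdec : ∀ j, ∀ q ≤ p, ∃ q' ≤ q, q' ∈ AE A (G j) ∨ q' ∈ AE A (fun ξ => fnot (G j ξ)) := by
    intro j q hq
    refine decide_of_unsplit hκ0 hreg (G j) (hG j) A q fun q' hq' hs => ?_
    refine hns q' (hq'.trans hq) (g j) ?_
    rw [he]
    exact hs
  exact main TT h3 h4 h5 hκ hσ hreg hcc hfr (fun n => (plus_le_omega (2 ^ κ) n).trans hΛ.ge) hX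
    (down_full A _ hA _ hp) (fun s s' => hdec (Sum.inl (s, s')))
    (fun t m => hdec (Sum.inr (t, m)))

end Pool.Agent.Helper403.SZ
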