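import Mathlib
import Pool.Agent.Helper403_SZ.AStmts
import Pool.Agent.Helper669.CloneComb

set_option autoImplicit false

/-!
# Job A3: the combinatorial core of the upper bound
-/

namespace Pool.Agent.Helper403.SZ

open Cardinal Set Pool.Agent.Helper669.Forcing Pool.Agent.Helper669.K

namespace TA3

/-- a maximal subset of `A` which is pairwise unrelated -/
theorem exists_max {I : Type} (A : Set I) (ρ : I → I → Prop) :
    ∃ s ⊆ A, (∀ i ∈ s, ∀ j ∈ s, i ≠ j → ¬ ρ i j) ∧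
      ∀ j ∈ A, j ∉ s → ∃ i ∈ s, ρ i j ∨ ρ j i := by
  obtain ⟨s, hs⟩ := zorn_subset {s : Set I | s ⊆ A ∧ ∀ i ∈ s, ∀ j ∈ s, i ≠ j → ¬ ρ i j} (by
    intro c hc hchain
    refine ⟨⋃₀ c, ⟨?_, ?_⟩, fun s hs => subset_sUnion_of_mem hs⟩
    · exact sUnion_subset fun s hs => (hc hs).1
    · rintro i ⟨s, hs, hi⟩ j ⟨t, ht, hj⟩ hij
      rcases hchain.total hs ht with h | h
      · exact (hc ht).2 i (h hi) j hj hij
      · exact (hc hs).2 i hi j (h hj) hij)
  refine ⟨s, hs.prop.1, hs.prop.2, fun j hj hjs => ?_⟩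
  by_contra hno
  push Not at hno
  have h1 : insert j s ∈ {s : Set I | s ⊆ A ∧ ∀ i ∈ s, ∀ j ∈ s, i ≠ j → ¬ ρ i j} := by
    refine ⟨insert_subset hj hs.prop.1, ?_⟩
    rintro i (rfl | hi) l (rfl | hl) hil
    · exact absurd rfl hil
    · exact (hno l hl).2
    · exact (hno i hi).1
    · exact hs.prop.2 i hi l hl hil
  exact hjs (hs.le_of_ge h1 (subset_insert _ _) (mem_insert _ _))

theorem le_plus {κ : Cardinal.{0}} (n : ℕ) : κ ≤ plus κ n := by
  induction n with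
  | zero => exact le_rfl
  | succ n ih => exact ih.trans (Order.le_succ _)

/-- the recursion: `μ` many disjoint maximal antichains -/
theorem exists_seq {I : Type} (ρ : I → I → Prop) (μ : Cardinal.{0}) :
    ∃ C : μ.ord.ToType → Set I, (∀ ν, ∀ i ∈ C ν, ∀ j ∈ C ν, i ≠ j → ¬ ρ i j) ∧
      (∀ ν ν', ν ≠ ν' → Disjoint (C ν) (C ν')) ∧
      ∀ j, (∀ ν, j ∉ C ν) → ∀ ν, ∃ i ∈ C ν, ρ i j ∨ ρ j i := by
  obtain ⟨C, hC⟩ := Pool.Agent.Helper669.CloneComb.exists_rec (S := Set I)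
    (I := μ.ord.ToType)
    (fun ν c s => (∀ i ∈ s, ∀ ν' < ν, i ∉ c ν') ∧ (∀ i ∈ s, ∀ j ∈ s, i ≠ j → ¬ ρ i j) ∧
      ∀ j, (∀ ν' < ν, j ∉ c ν') → j ∉ s → ∃ i ∈ s, ρ i j ∨ ρ j i)
    (by
      rintro ν c c' s hcc ⟨h1, h2, h3⟩
      refine ⟨fun i hi ν' hν' => ?_, h2, fun j hj hjs => h3 j (fun ν' hν' => ?_) hjs⟩
      · rw [← hcc ν' hν']
        exact h1 i hi ν' hν'
      · rw [hcc ν' hν']
        exact hj ν' hν')
    (by
      intro ν c
      obtain ⟨s, h1, h2, h3⟩ := exists_max {i | ∀ ν' < ν, i ∉ c ν'} ρ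
      exact ⟨s, fun i hi => h1 hi, h2, fun j hj hjs => h3 j hj hjs⟩)
  refine ⟨C, fun ν => (hC ν).2.1, fun ν ν' hne => ?_, fun j hj ν => ?_⟩
  · rw [Set.disjoint_left]
    intro i hi hi'
    rcases lt_or_gt_of_ne hne with h | h
    · exact (hC ν').1 i hi' ν h hi
    · exact (hC ν).1 i hi ν' h hi'
  · exact (hC ν).2.2 j (fun ν' _ => hj ν') (hj ν)

end TA3

open TA3 in
theorem jobA3 : StmtA3 := by
  intro κ M hκ hκM P _ hcc T C CV EQ LT Bd hh q1 hC dCV dEQ dLT dBd tri h0 heq hsymm hbd hinj k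
  have hM : ℵ₀ ≤ M := hκ.trans hκM
  induction k with
  | zero =>
    intro I r s hI hr hB
    choose r' hr' c hc using fun i => h0 (s i) (r i) (hr i) (hB i)
    have hsucc : plus M (0 + 1) = Order.succ M := rfl
    obtain ⟨c0, hc0⟩ := Cardinal.infinite_pigeonhole_card c (Order.succ M)
      (by rw [hI, hsucc]) (hM.trans (Order.le_succ M))
      (by rw [(Cardinal.isRegular_succ hM).cof_ord]; exact hC.trans_lt (Order.lt_succ M))
    obtain ⟨⟨i, hi⟩, ⟨j, hj⟩, hne, r2, h1, h2⟩ := hcc (c ⁻¹' {c0}) (fun i => r' i.1)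
      ((hκM.trans_lt (Order.lt_succ M)).trans_le hc0)
    have hi' : c i = c0 := hi
    have hj' : c j = c0 := hj
    have e1 : r2 ∈ CV (s i) c0 := by
      rw [← hi']
      exact dCV _ _ _ (hc i) _ h1
    have e2 : r2 ∈ CV (s j) c0 := by
      rw [← hj']
      exact dCV _ _ _ (hc j) _ h2
    obtain ⟨r3, hr3, h3⟩ := heq _ _ c0 r2 ((h1.trans (hr' i)).trans (hr i)) e1 e2
    exact ⟨i, j, fun h => hne (Subtype.ext h), r3, (hr3.trans h1).trans (hr' i),
      (hr3.trans h2).trans (hr' j), h3⟩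
  | succ k ih =>
    intro I r s hI hr hB
    set μ : Cardinal.{0} := plus M (k + 1) with hμ
    have hμ0 : ℵ₀ ≤ μ := hM.trans (le_plus (k + 1))
    let Z : I → Set I := fun j => {i | ∃ q, q ≤ r i ∧ q ≤ r j ∧ q ∈ LT (s i) (s j)}
    by_cases hcase : ∃ j, μ ≤ #(Z j)
    · obtain ⟨j, hj⟩ := hcase
      obtain ⟨J, hJ⟩ : ∃ J : Set (Z j), #J = μ := Cardinal.le_mk_iff_exists_set.1 hj
      choose r' hr1 hr2 hr3 using fun i : J => i.1.2
      obtain ⟨i, i', hne, q, hq, hq', he⟩ := ih J r' (fun i => hh (s j) (s i.1.1)) hJ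
        (fun i => (hr2 i).trans (hr j))
        (fun i => hbd k (s j) (s i.1.1) (r' i) ((hr2 i).trans (hr j)) (hr3 i)
          (dBd _ _ _ (hB j) _ (hr2 i)))
      refine ⟨i.1.1, i'.1.1, fun h => hne (Subtype.ext (Subtype.ext h)), q, hq.trans (hr1 i),
        hq'.trans (hr1 i'), ?_⟩
      exact hinj (s j) _ _ q (hq.trans ((hr2 i).trans (hr j))) (dLT _ _ _ (hr3 i) _ hq)
        (dLT _ _ _ (hr3 i') _ hq') he
    · push Not at hcase
      let ρ : I → I → Prop := fun i j => ∃ q, q ≤ r i ∧ q ≤ r j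
      obtain ⟨A, hA1, hA2, hA3⟩ := exists_seq ρ μ
      have hAκ : ∀ ν, #(A ν) ≤ κ := by
        intro ν
        by_contra hlt
        obtain ⟨i, j, hij, q, h1, h2⟩ := hcc (A ν) (fun i => r i.1) (not_le.1 hlt)
        exact hA1 ν i.1 i.2 j.1 j.2 (fun h => hij (Subtype.ext h)) ⟨q, h1, h2⟩
      let A0 : Set I := ⋃ ν, A ν
      have hA0 : #A0 ≤ μ := by
        refine (mk_iUnion_le _).trans ?_
        rw [mk_toType, card_ord]
        exact mul_le_of_le hμ0 le_rfl (ciSup_le' fun ν => (hAκ ν).trans (hκM.trans (le_plus (k + 1))))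
      let A1 : Set I := ⋃ i : A0, Z i.1
      have hA1' : #A1 ≤ μ := by
        refine (mk_iUnion_le _).trans ?_
        exact mul_le_of_le hμ0 hA0 (ciSup_le' fun i => (hcase i.1).le)
      obtain ⟨j, hj⟩ : ∃ j, j ∉ A0 ∪ A1 := by
        by_contra hno
        push Not at hno
        have h1 : #I ≤ μ := by
          rw [← mk_univ, ← eq_univ_of_forall hno]
          exact (mk_union_le _ _).trans (add_le_of_le hμ0 hA0 hA1')
        rw [hI] at h1
        exact absurd (Order.lt_succ μ) (not_lt.2 h1)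
      have hj0 : ∀ ν, j ∉ A ν := fun ν h => hj (Or.inl (mem_iUnion.2 ⟨ν, h⟩))
      choose f hf hfj using hA3 j hj0
      have hfinj : Function.Injective f := by
        intro ν ν' he
        by_contra hne
        exact Set.disjoint_left.1 (hA2 ν ν' hne) (hf ν) (he ▸ hf ν')
      obtain ⟨ν, hν⟩ : ∃ ν, f ν ∉ Z j := by
        by_contra hno
        push Not at hno
        have h1 : #(μ.ord.ToType) ≤ #(Z j) :=
          mk_le_of_injective (f := fun ν => (⟨f ν, hno ν⟩ : Z j))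
            (fun ν ν' he => hfinj (congrArg Subtype.val he))
        rw [mk_toType, card_ord] at h1
        exact absurd (hcase j) (not_lt.2 h1)
      have hcomp : ∃ q, q ≤ r (f ν) ∧ q ≤ r j := by
        rcases hfj ν with ⟨q, h1, h2⟩ | ⟨q, h1, h2⟩
        · exact ⟨q, h1, h2⟩
        · exact ⟨q, h2, h1⟩
      obtain ⟨q, hq1, hq2⟩ := hcomp
      refine ⟨f ν, j, fun h => hj0 ν (h ▸ hf ν), ?_⟩
      obtain ⟨q', hq', h | h | h⟩ := tri (s (f ν)) (s j) q (hq2.trans (hr j))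
      · exact absurd ⟨q', hq'.trans hq1, hq'.trans hq2, h⟩ hν
      · exact ⟨q', hq'.trans hq1, hq'.trans hq2, h⟩
      · have h1 : j ∈ Z (f ν) := ⟨q', hq'.trans hq2, hq'.trans hq1, h⟩
        have h2 : f ν ∈ A0 := mem_iUnion.2 ⟨ν, hf ν⟩
        have h3 : j ∈ A1 := mem_iUnion.2 ⟨⟨f ν, h2⟩, h1⟩
        exact absurd (Or.inr h3) hj

end Pool.Agent.Helper403.SZ
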