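import Mathlib
import Pool.Agent.Helper403_SZ.AStmts2
import Pool.Agent.W873.Vi.Incl

set_option autoImplicit false

/-!
# The values of the minimal nonconstant term are inaccessible cardinals (job A4)
-/

namespace Pool.Agent.Helper403.SZ.TA4

open Cardinal Set Pool.Agent.Helper669.Forcing Pool.Agent.Helper669.K Pool.Agent.W873.Tp TA2

variable {P : Type} [Preorder P] {κ : Cardinal.{0}}

/-- fewer than `κ` choices of ordinals at once, with a common bound -/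
theorem AEb_forall' (hreg : ∀ q : P, q ∈ StaysRegular P κ) {A : κ.ord.ToType → Set P} {J : Type}
    (hJ : #J < κ) (φ : J → κ.ord.ToType → κ.ord.ToType → Set P)
    (hφ : ∀ i y y' ξ, y ≤ y' → φ i y ξ ⊆ φ i y' ξ) {q : P}
    (h : ∀ i, ∀ q1 ≤ q, ∃ q2 ≤ q1, ∃ y, q2 ∈ AE A (φ i y)) :
    ∃ q' ≤ q, ∃ b, ∀ i, q' ∈ AEb A (φ i b) b := by
  classical
  let e : (#J).out ≃ J := Cardinal.outMkEquiv
  let R : (#J).out → κ.ord.ToType → Set P := fun x y =>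
    {r | r ∈ AEb A (φ (e x) y) y ∧ ∀ y' < y, ∀ r' ≤ r, r' ∉ AEb A (φ (e x) y') y'}
  have hR : ∀ x, ∀ r ≤ q, ∃ r' ≤ r, ∃ y, r' ∈ R x y := by
    intro x r hr
    have hex : ∃ y, ∃ r' ≤ r, r' ∈ AEb A (φ (e x) y) y := by
      obtain ⟨r', hr', y, y2, hy⟩ := h (e x) r hr
      refine ⟨max y y2, r', hr', fun ξ hξ s hs hm => ?_⟩
      obtain ⟨s', hs', h'⟩ := hy ξ ((le_max_right _ _).trans_lt hξ) s hs hm
      exact ⟨s', hs', hφ _ _ _ _ (le_max_left _ _) h'⟩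
    obtain ⟨y, ⟨r', hr', hy⟩, hmin⟩ := WellFounded.has_min (wellFounded_lt)
      {y | ∃ r' ≤ r, r' ∈ AEb A (φ (e x) y) y} hex
    refine ⟨r', hr', y, hy, fun y' hy' r'' hr'' h => ?_⟩
    exact hmin y' ⟨r'', hr''.trans hr', h⟩ hy'
  have hfun : q ∈ IsFun R := by
    refine ⟨fun x => ?_, fun x y y' => ?_⟩
    · refine mem_fex.2 fun r hr => ?_
      obtain ⟨r', hr', y, hy⟩ := hR x r hr
      exact ⟨r', hr', y, meets_of_mem hy⟩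
    · refine mem_fimp.2 fun r _ hr => ⟨r, le_rfl, ?_⟩
      obtain ⟨r1, hr1, s1, hs1, h1⟩ := hr.1 r le_rfl
      obtain ⟨r2, hr2, s2, hs2, h2⟩ := hr.2 r1 hr1
      have h1' : r2 ≤ s1 := hr2.trans h1
      rcases lt_trichotomy y y' with h | h | h
      · exact absurd (down_AEb _ _ _ _ hs1.1 _ h1') (hs2.2 y h r2 h2)
      · exact h
      · exact absurd (down_AEb _ _ _ _ hs2.1 _ h2) (hs1.2 y' h r2 h1')
  obtain ⟨q3, hq3, h3⟩ := mem_fimp.1 (hreg q _ hJ R) q le_rfl hfun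
  obtain ⟨q4, hq4, b, hb⟩ := mem_fex.1 h3 q3 le_rfl
  refine ⟨q4, hq4.trans hq3, b, fun i ξ hξ r hr hm => ?_⟩
  obtain ⟨r2, hr2, y, hy⟩ := hR (e.symm i) r (hr.trans (hq4.trans hq3))
  have hyb : y < b := by
    obtain ⟨_, _, h⟩ := mem_fimp.1 (hb (e.symm i) y) r2 (hr2.trans hr) (meets_of_mem hy)
    exact h
  obtain ⟨r3, hr3, h3⟩ := hy.1 ξ (hyb.trans hξ) r2 le_rfl (down_meets _ _ hm _ hr2)
  rw [Equiv.apply_symm_apply] at h3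
  exact ⟨r3, hr3.trans hr2, hφ _ _ _ _ hyb.le h3⟩

variable {Λ : Type} {X : Λ → κ.ord.ToType → Set P} (TT : Terms κ P Λ X)

/-- `t ξ` has the property `B` of the ground model -/
def Gp (t : TT.T) (B : κ.ord.ToType → Prop) (ξ : κ.ord.ToType) : Set P :=
  {r | ∃ γ, r ∈ TT.Val t ξ γ ∧ B γ}

theorem down_Gp (t : TT.T) (B : κ.ord.ToType → Prop) (ξ : κ.ord.ToType) : Down (Gp TT t B ξ) := by
  rintro q ⟨γ, h1, h2⟩ q' hq'
  exact ⟨γ, TT.down _ _ _ _ h1 _ hq', h2⟩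

variable {TT} {A : κ.ord.ToType → Set P} {p q : P} {t : TT.T}

theorem Gp_and {B C D : κ.ord.ToType → Prop} {r : P} (h1 : r ∈ AE A (Gp TT t B))
    (h2 : r ∈ AE A (Gp TT t C)) (hD : ∀ γ, B γ → C γ → D γ) : r ∈ AE A (Gp TT t D) := by
  refine AE_map (AE_and (fun ξ => down_Gp TT _ _ ξ) h1 h2) ?_
  rintro ξ s _ ⟨⟨γ, h3, h4⟩, γ', h5, h6⟩
  have e := TT.fn _ _ _ _ _ h3 h5
  subst e
  exact ⟨s, le_rfl, γ, h3, hD _ h4 h6⟩

theorem not_false_AE (hκ : κ.IsInaccessible) (hm : MinT TT A p q t) {q1 : P} (hq1 : q1 ≤ q)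
    (h : q1 ∈ AE A (Gp TT t fun _ => False)) : False := by
  have hne : Nonempty κ.ord.ToType := by
    rw [← mk_ne_zero_iff, mk_ord_toType]
    exact (aleph0_pos.trans hκ.1).ne'
  obtain ⟨r, _, ξ, _, _, γ, _, h2⟩ := AE_point hκ.1.le hm.full (hq1.trans hm.le) h
    (Classical.arbitrary _)
  exact h2

/-- each property is decided almost everywhere -/
theorem dich (hκ : κ.IsInaccessible) (hm : MinT TT A p q t) (B : κ.ord.ToType → Prop) {q1 : P}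
    (hq1 : q1 ≤ p) : ∃ q2 ≤ q1, q2 ∈ AE A (Gp TT t B) ∨ q2 ∈ AE A (Gp TT t fun γ => ¬ B γ) := by
  classical
  have hne : Nonempty κ.ord.ToType := by
    rw [← mk_ne_zero_iff, mk_ord_toType]
    exact (aleph0_pos.trans hκ.1).ne'
  have : NoMaxOrder κ.ord.ToType := Cardinal.noMaxOrder hκ.1.le
  obtain ⟨a1, ha1⟩ := exists_gt (Classical.arbitrary κ.ord.ToType)
  obtain ⟨q2, hq2, h2⟩ := hm.dec (TT.op (fun γ _ => if B γ then Classical.arbitrary _ else a1) t t)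
    (TT.cst a1) q1 hq1
  refine ⟨q2, hq2, ?_⟩
  rcases h2 with h2 | h2
  · left
    refine AE_map h2 ?_
    rintro ξ r _ ⟨γ, γ', hlt, hv, hv'⟩
    have e1 := TT.fn _ _ _ _ _ hv' (TT.val_cst a1 ξ r)
    subst e1
    obtain ⟨r1, hr1, δ, hδ⟩ := TT.dense t ξ r
    have e2 := TT.fn _ _ _ _ _ (TT.down _ _ _ _ hv _ hr1) (TT.val_op _ _ _ _ _ _ _ hδ hδ)
    refine ⟨r1, hr1, δ, hδ, ?_⟩
    by_contra hB
    rw [e2] at hlt
    simp only [if_neg hB] at hlt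
    exact lt_irrefl _ hlt
  · right
    refine AE_map h2 ?_
    intro ξ r _ hr
    obtain ⟨r1, hr1, δ, hδ⟩ := TT.dense t ξ r
    refine ⟨r1, hr1, δ, hδ, fun hB => ?_⟩
    refine hr r1 hr1 ⟨_, a1, ha1, ?_, TT.val_cst a1 ξ r1⟩
    have := TT.val_op (fun γ _ => if B γ then Classical.arbitrary _ else a1) t t ξ δ δ r1 hδ hδ
    simp only [if_pos hB] at this
    exact this

/-- regressive functions of `t` are constant -/
theorem press (hm : MinT TT A p q t) (h : κ.ord.ToType → κ.ord.ToType) {q1 : P} (hq1 : q1 ≤ q)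
    (h1 : q1 ∈ AE A (Gp TT t fun γ => h γ < γ)) :
    ∃ q2 ≤ q1, ∃ c, q2 ∈ AE A (Gp TT t fun γ => h γ = c) := by
  obtain ⟨q2, hq2, c, h2⟩ := hm.min (TT.op (fun γ _ => h γ) t t) q1 hq1 (by
    refine AE_map h1 ?_
    rintro ξ r _ ⟨γ, hγ, hlt⟩
    exact ⟨r, le_rfl, h γ, γ, hlt, TT.val_op (fun γ _ => h γ) t t ξ γ γ r hγ hγ, hγ⟩)
  refine ⟨q2, hq2, c, AE_map h2 ?_⟩
  rintro ξ r _ ⟨γ, hv, hv'⟩
  have e1 := TT.fn _ _ _ _ _ hv' (TT.val_cst c ξ r)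
  subst e1
  obtain ⟨r1, hr1, δ, hδ⟩ := TT.dense t ξ r
  refine ⟨r1, hr1, δ, hδ, ?_⟩
  exact TT.fn _ _ _ _ _ (TT.val_op (fun γ _ => h γ) t t ξ δ δ r1 hδ hδ) (TT.down _ _ _ _ hv _ hr1)

theorem above (hκ : κ.IsInaccessible) (hreg : ∀ q : P, q ∈ StaysRegular P κ)
    (hm : MinT TT A p q t) (c : κ.ord.ToType) {q1 : P} (hq1 : q1 ≤ q) :
    ∃ q2 ≤ q1, q2 ∈ AE A (Gp TT t fun γ => c < γ) := by
  obtain ⟨q2, hq2, h2⟩ := above_cst TT hκ hreg hm.full hm.dec hm.le hm.nc c q1 hq1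
  refine ⟨q2, hq2, AE_map h2 ?_⟩
  rintro ξ r _ ⟨γ, γ', hlt, hv, hv'⟩
  have e1 := TT.fn _ _ _ _ _ hv (TT.val_cst c ξ r)
  subst e1
  exact ⟨r, le_rfl, γ', hv', hlt⟩

/-- `t` is closed under `N` -/
theorem clo (hκ : κ.IsInaccessible) (hreg : ∀ q : P, q ∈ StaysRegular P κ)
    (hm : MinT TT A p q t) (N : κ.ord.ToType → κ.ord.ToType) {q1 : P} (hq1 : q1 ≤ q) :
    ∃ q2 ≤ q1, q2 ∈ AE A (Gp TT t fun γ => ∀ a < γ, N a < γ) := by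
  classical
  obtain ⟨q2, hq2, h2⟩ := dich hκ hm (fun γ => ∀ a < γ, N a < γ) (hq1.trans hm.le)
  rcases h2 with h2 | h2
  · exact ⟨q2, hq2, h2⟩
  exfalso
  have hch : ∀ γ, ∃ a, (¬ ∀ a < γ, N a < γ) → a < γ ∧ γ ≤ N a := by
    intro γ
    by_cases h : ∀ a < γ, N a < γ
    · exact ⟨γ, fun h' => absurd h h'⟩
    · push Not at h
      obtain ⟨a, ha⟩ := h
      exact ⟨a, fun _ => ha⟩
  choose h hh using hch
  obtain ⟨q3, hq3, c, h3⟩ := press hm h (hq2.trans hq1)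
    (Gp_and h2 h2 fun γ hγ _ => (hh γ hγ).1)
  obtain ⟨q4, hq4, h4⟩ := above hκ hreg hm (N c) (hq3.trans (hq2.trans hq1))
  refine not_false_AE hκ hm (hq4.trans (hq3.trans (hq2.trans hq1)))
    (Gp_and (Gp_and (down_AE _ _ _ h2 _ (hq4.trans hq3)) (down_AE _ _ _ h3 _ hq4)
      (D := fun γ => γ ≤ N c) ?_) h4 ?_)
  · rintro γ hγ rfl
    exact (hh γ hγ).2
  · intro γ h5 h6
    exact absurd h6 (not_lt.2 h5)

/-- `t` has no short cofinal sequence -/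
theorem cofi (hκ : κ.IsInaccessible) (hreg : ∀ q : P, q ∈ StaysRegular P κ)
    (hm : MinT TT A p q t) {q1 : P} (hq1 : q1 ≤ q) :
    ∃ q2 ≤ q1, q2 ∈ AE A (Gp TT t fun γ => ∀ b < γ, ∀ g : Iio b → κ.ord.ToType,
      (∀ i, g i < γ) → ∃ c < γ, ∀ i, g i < c) := by
  classical
  obtain ⟨q2, hq2, h2⟩ := dich hκ hm (fun γ => ∀ b < γ, ∀ g : Iio b → κ.ord.ToType,
      (∀ i, g i < γ) → ∃ c < γ, ∀ i, g i < c) (hq1.trans hm.le)
  rcases h2 with h2 | h2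
  · exact ⟨q2, hq2, h2⟩
  exfalso
  have hch : ∀ γ, ∃ b, ∃ g : κ.ord.ToType → κ.ord.ToType, (¬ ∀ b < γ, ∀ g : Iio b → κ.ord.ToType,
      (∀ i, g i < γ) → ∃ c < γ, ∀ i, g i < c) →
      b < γ ∧ (∀ i < b, g i < γ) ∧ ∀ c < γ, ∃ i < b, c ≤ g i := by
    intro γ
    by_cases h : ∀ b < γ, ∀ g : Iio b → κ.ord.ToType, (∀ i, g i < γ) → ∃ c < γ, ∀ i, g i < c
    · exact ⟨γ, fun _ => γ, fun h' => absurd h h'⟩
    · have h' := h
      push Not at h'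
      obtain ⟨b, hb, g, hg, hc⟩ := h'
      refine ⟨b, fun i => if hi : i ∈ Iio b then g ⟨i, hi⟩ else γ, fun _ => ⟨hb, fun i hi => ?_,
        fun c hcγ => ?_⟩⟩
      · have h1 : (if hi : i ∈ Iio b then g ⟨i, hi⟩ else γ) = g ⟨i, hi⟩ := dif_pos hi
        exact h1.trans_lt (hg _)
      · obtain ⟨i, hi⟩ := hc c hcγ
        have h1 : (if hi : (i : κ.ord.ToType) ∈ Iio b then g ⟨i, hi⟩ else γ) = g i := dif_pos i.2
        exact ⟨i, i.2, hi.trans_eq h1.symm⟩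
  choose bb gg hh using hch
  obtain ⟨q3, hq3, c, h3⟩ := press hm bb (hq2.trans hq1)
    (Gp_and h2 h2 fun γ hγ _ => (hh γ hγ).1)
  have h4 := Gp_and (down_AE _ _ _ h2 _ hq3) h3 (D := fun γ => (∀ i < c, gg γ i < γ) ∧
    ∀ d < γ, ∃ i < c, d ≤ gg γ i) (by
      rintro γ hγ rfl
      exact (hh γ hγ).2)
  obtain ⟨q4, hq4, b, h5⟩ := AEb_forall' hreg (A := A) (J := Iio c) (mk_Iio_lt' c)
    (fun i y => Gp TT t fun γ => gg γ i ≤ y)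
    (fun i y y' ξ hy => fun r hr => hr.elim fun γ hγ => ⟨γ, hγ.1, hγ.2.trans hy⟩)
    (q := q3) (fun i q' hq' => by
      obtain ⟨q5, hq5, d, h6⟩ := press hm (fun γ => gg γ i) (hq'.trans (hq3.trans (hq2.trans hq1)))
        (Gp_and (down_AE _ _ _ h4 _ hq') (down_AE _ _ _ h4 _ hq') fun γ hγ _ => hγ.1 i i.2)
      exact ⟨q5, hq5, d, Gp_and h6 h6 fun γ hγ _ => hγ.le⟩)
  have : NoMaxOrder κ.ord.ToType := Cardinal.noMaxOrder hκ.1.le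
  obtain ⟨b', hb'⟩ := exists_gt b
  have hq40 : q4 ≤ q := hq4.trans (hq3.trans (hq2.trans hq1))
  obtain ⟨q5, hq5, h6⟩ := above hκ hreg hm b' hq40
  obtain ⟨r, hr, ξ, hξ, hmt, γ, hγ, h7, h8⟩ := AE_point hκ.1.le hm.full
    ((hq5.trans hq40).trans hm.le)
    (Gp_and (down_AE _ _ _ h4 _ (hq5.trans hq4)) h6
      (D := fun γ => (∀ d < γ, ∃ i < c, d ≤ gg γ i) ∧ b' < γ) fun γ h h' => ⟨h.2, h'⟩) b
  obtain ⟨i, hi, h9⟩ := h7 b' h8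
  obtain ⟨r1, hr1, δ, hδ, h10⟩ := h5 ⟨i, hi⟩ ξ hξ r (hr.trans hq5) hmt
  have e1 := TT.fn _ _ _ _ _ hδ (TT.down _ _ _ _ hγ _ hr1)
  rw [e1] at h10
  exact absurd (h9.trans h10) (not_le.2 hb')

theorem main : StmtA4 := by
  intro κ hκ P _ hreg Λ X TT A p q t hm q1 hq1
  classical
  have hN : ∀ a : κ.ord.ToType, ∃ b : κ.ord.ToType, #(Set (Iio a)) ≤ #(Iio b) := by
    intro a
    obtain ⟨b, hb⟩ := exists_mk_Iio (κ := κ) (Pool.Agent.W873.Vi.lt_set hκ (mk_Iio_lt' a))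
    exact ⟨b, hb.ge⟩
  choose N hN using hN
  obtain ⟨a0, ha0⟩ := exists_mk_Iio (κ := κ) (Pool.Agent.W873.Vi.aleph1_lt hκ)
  obtain ⟨q2, hq2, h2⟩ := clo hκ hreg hm N hq1
  obtain ⟨q3, hq3, h3⟩ := cofi hκ hreg hm (hq2.trans hq1)
  obtain ⟨q4, hq4, h4⟩ := above hκ hreg hm a0 (hq3.trans (hq2.trans hq1))
  refine ⟨q4, hq4.trans (hq3.trans hq2), ?_⟩
  have h5 := Gp_and (down_AE _ _ _ h2 _ (hq4.trans hq3)) (down_AE _ _ _ h3 _ hq4)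
    (D := fun γ => (∀ a < γ, N a < γ) ∧ ∀ b < γ, ∀ g : Iio b → κ.ord.ToType,
      (∀ i, g i < γ) → ∃ c < γ, ∀ i, g i < c) fun γ h h' => ⟨h, h'⟩
  refine Gp_and (D := IsD) h5 h4 fun γ h h' => ?_
  obtain ⟨h5, h6, h7⟩ := Pool.Agent.W873.Vi.seg_inacc (m := γ) h.2
    (fun a ha => ⟨N a, h.1 a ha, hN a⟩) ⟨a0, h', by rw [ha0]; exact aleph0_lt_aleph_one⟩
  exact ⟨h5, h6, h7⟩

end Pool.Agent.Helper403.SZ.TA4

namespace Pool.Agent.Helper403.SZ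

theorem jobA4 : StmtA4 := TA4.main

end Pool.Agent.Helper403.SZ
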