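import Mathlib
import Pool.Agent.Helper403_SZ.AStmts2

set_option autoImplicit false

/-!
# Job A5: the terms below `2^|t|` have values in the ground model power set of `κ`
-/

namespace Pool.Agent.Helper403.SZ

open Cardinal Set Pool.Agent.Helper669.Forcing Pool.Agent.Helper669.K TA2

namespace TA5

theorem exists_e {κ : Cardinal.{0}} (γ : κ.ord.ToType) :
    ∃ e : κ.ord.ToType → Set κ.ord.ToType, (∀ c, ∀ β ∈ e c, β < γ) ∧
      ∀ c c', #(Iio c) < 2 ^ #(Iio γ) → #(Iio c') < 2 ^ #(Iio γ) → e c = e c' → c = c' := by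
  classical
  set S : Set κ.ord.ToType := {c | #(Iio c) < 2 ^ #(Iio γ)} with hS
  have hle : #S ≤ 2 ^ #(Iio γ) := by
    by_cases h : (2 : Cardinal) ^ #(Iio γ) < κ
    · obtain ⟨k, hk⟩ := Pool.Agent.W873.Tp.exists_mk_Iio h
      rw [← hk]
      refine Cardinal.mk_le_mk_of_subset ?_
      intro c hc
      by_contra hcon
      have h1 : #(Iio k) ≤ #(Iio c) := mk_Iio_mono (not_lt.1 hcon)
      rw [hk] at h1
      exact absurd hc (not_lt.2 h1)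
    · refine (Cardinal.mk_set_le S).trans ?_
      rw [Cardinal.mk_ord_toType]
      exact not_lt.1 h
  have hle' : #S ≤ #(Set (Iio γ)) := by rw [Cardinal.mk_set]; exact hle
  obtain ⟨f⟩ := hle'
  refine ⟨fun c => if h : c ∈ S then Subtype.val '' (f ⟨c, h⟩) else ∅, ?_, ?_⟩
  · intro c β hβ
    by_cases h : c ∈ S
    · simp only [dif_pos h] at hβ
      obtain ⟨x, -, rfl⟩ := hβ
      exact x.2
    · simp only [dif_neg h] at hβ
      exact absurd hβ (Set.notMem_empty _)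
  · intro c c' hc hc' he
    have h1 : c ∈ S := hc
    have h2 : c' ∈ S := hc'
    simp only [dif_pos h1, dif_pos h2] at he
    have h3 := Set.image_injective.2 Subtype.val_injective he
    have h4 := f.injective h3
    exact congrArg Subtype.val h4

/-- the codes -/
noncomputable def ee {κ : Cardinal.{0}} (γ : κ.ord.ToType) : κ.ord.ToType → Set κ.ord.ToType :=
  (exists_e γ).choose

theorem ee_lt {κ : Cardinal.{0}} {γ c β : κ.ord.ToType} (h : β ∈ ee γ c) : β < γ :=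
  (exists_e γ).choose_spec.1 c β h

theorem ee_inj {κ : Cardinal.{0}} {γ c c' : κ.ord.ToType} (h : #(Iio c) < 2 ^ #(Iio γ))
    (h' : #(Iio c') < 2 ^ #(Iio γ)) (he : ee γ c = ee γ c') : c = c' :=
  (exists_e γ).choose_spec.2 c c' h h' he

section

variable {P : Type} [Preorder P] {κ : Cardinal.{0}} {Λ : Type} {X : Λ → κ.ord.ToType → Set P}
  (TT : Terms κ P Λ X)

/-- `β ∈ e_t(s)` (for `φ = True`) or `β ∉ e_t(s)` (for `φ = False`) at `ξ` -/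
def In (t s : TT.T) (β : κ.ord.ToType) (φ : Prop) (ξ : κ.ord.ToType) : Set P :=
  {r | ∃ γ c, r ∈ TT.Val t ξ γ ∧ r ∈ TT.Val s ξ c ∧ (β ∈ ee γ c ↔ φ)}

theorem down_In (t s : TT.T) (β : κ.ord.ToType) (φ : Prop) (ξ : κ.ord.ToType) :
    Down (In TT t s β φ ξ) := by
  rintro q ⟨γ, c, h1, h2, h3⟩ q' hq'
  exact ⟨γ, c, TT.down _ _ _ _ h1 _ hq', TT.down _ _ _ _ h2 _ hq', h3⟩

variable {A : κ.ord.ToType → Set P} {p q : P} {t : TT.T}

theorem In_congr {s : TT.T} {β : κ.ord.ToType} {φ ψ : Prop} (h : φ ↔ ψ) {r : P}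
    (hr : r ∈ AE A (In TT t s β φ)) : r ∈ AE A (In TT t s β ψ) := by
  have : φ = ψ := propext h
  rw [← this]
  exact hr

/-- it is decided whether `β ∈ e_t(s)` almost everywhere -/
theorem dec_In (hκ : ℵ₀ ≤ κ) (hM : MinT TT A p q t) (s : TT.T) (β : κ.ord.ToType) (q1 : P)
    (hq1 : q1 ≤ p) : ∃ q2 ≤ q1, ∃ φ : Prop, q2 ∈ AE A (In TT t s β φ) := by
  classical
  have : NoMaxOrder κ.ord.ToType := Cardinal.noMaxOrder hκ
  obtain ⟨x1, hx1⟩ := exists_gt β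
  let g : κ.ord.ToType → κ.ord.ToType → κ.ord.ToType := fun γ c => if β ∈ ee γ c then β else x1
  obtain ⟨q2, hq2, h2⟩ := hM.dec (TT.op g t s) (TT.cst x1) q1 hq1
  rcases h2 with h2 | h2
  · refine ⟨q2, hq2, True, AE_map h2 ?_⟩
    rintro ξ r hr ⟨γ, γ', hlt, hv, hv'⟩
    obtain ⟨r1, hr1, a, c, ha, hc⟩ := dense2 TT t s ξ r
    refine ⟨r1, hr1, a, c, ha, hc, ?_⟩
    have e1 := TT.fn _ _ _ _ _ (TT.down _ _ _ _ hv _ hr1) (TT.val_op g t s ξ a c r1 ha hc)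
    have e2 := TT.fn _ _ _ _ _ hv' (TT.val_cst x1 ξ r)
    rw [e1, e2] at hlt
    by_contra hcon
    have h3 : β ∉ ee a c := fun h => hcon ⟨fun _ => trivial, fun _ => h⟩
    have h4 : g a c = x1 := if_neg h3
    rw [h4] at hlt
    exact lt_irrefl _ hlt
  · refine ⟨q2, hq2, False, AE_map h2 ?_⟩
    intro ξ r hr hno
    obtain ⟨r1, hr1, a, c, ha, hc⟩ := dense2 TT t s ξ r
    refine ⟨r1, hr1, a, c, ha, hc, ?_⟩
    constructor
    · intro h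
      have h4 : g a c = β := if_pos h
      refine hno r1 hr1 ⟨g a c, x1, ?_, TT.val_op g t s ξ a c r1 ha hc, TT.val_cst x1 ξ r1⟩
      rw [h4]
      exact hx1
    · exact fun h => h.elim

/-- the truth values are consistent -/
theorem In_unique (hκ : ℵ₀ ≤ κ) (hM : MinT TT A p q t) {s : TT.T} {β : κ.ord.ToType} {q1 : P}
    (hq1 : q1 ≤ p) {φ ψ : Prop} (h1 : q1 ∈ AE A (In TT t s β φ))
    (h2 : q1 ∈ AE A (In TT t s β ψ)) : φ ↔ ψ := by
  obtain ⟨r, hr, ξ, -, -, ⟨a, c, ha, hc, h3⟩, a', c', ha', hc', h4⟩ :=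
    AE_point hκ hM.full hq1 (AE_and (fun ξ => down_In TT t s β φ ξ) h1 h2) β
  have e1 := TT.fn _ _ _ _ _ ha ha'
  have e2 := TT.fn _ _ _ _ _ hc hc'
  subst e1
  subst e2
  exact h3.symm.trans h4

/-- `b` is the value -/
def CV (A : κ.ord.ToType → Set P) (t s : TT.T) (b : Set κ.ord.ToType) : Set P :=
  {q | q ∈ AE A (Gb TT t 0 s) ∧ ∀ β, q ∈ meets (AE A (In TT t s β (β ∈ b)))}

theorem down_CV (s : TT.T) (b : Set κ.ord.ToType) : Down (CV TT A t s b) :=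
  fun _ h _ hq => ⟨down_AE _ _ _ h.1 _ hq, fun β => down_meets _ _ (h.2 β) _ hq⟩

theorem exists_CV (hκ : κ.IsInaccessible) (hreg : ∀ q : P, q ∈ StaysRegular P κ)
    (hfr : NoFresh κ P) (hM : MinT TT A p q t) (s : TT.T) (q1 : P) (hq1 : q1 ≤ q)
    (h1 : q1 ∈ AE A (Gb TT t 0 s)) : ∃ q2 ≤ q1, ∃ b, q2 ∈ CV TT A t s b := by
  classical
  have hκ0 : ℵ₀ ≤ κ := hκ.1.le
  have : NoMaxOrder κ.ord.ToType := Cardinal.noMaxOrder hκ0
  let Y : κ.ord.ToType → Set P := fun β => AE A (In TT t s β True)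
  have hYdown : ∀ β, Down (Y β) := fun β => down_AE _ _
  -- positive and negative information
  have hneg : ∀ β, ∀ r ≤ p, r ∈ AE A (In TT t s β False) → r ∈ fnot (meets (Y β)) := by
    intro β r hr h r' hr' hm
    obtain ⟨r2, hr2, h2⟩ := exists_of_meets (hYdown β) hm
    exact (In_unique TT hκ0 hM (hr2.trans (hr'.trans hr)) h2
      (down_AE _ _ _ h _ (hr2.trans hr'))).1 trivial
  have hq1p : q1 ≤ p := hq1.trans hM.le
  have hfresh : ∀ γ, ∀ q2 ≤ q1, ∃ q3 ≤ q2, ∃ b, q3 ∈ AgreeB Y γ b := by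
    intro γ q2 hq2
    let Φ : Iio γ → κ.ord.ToType → Set P := fun β ξ =>
      {r | ∃ φ : Prop, r ∈ AE A (In TT t s β φ) ∧ r ∈ In TT t s β φ ξ}
    obtain ⟨q3, hq3, b0, hb0⟩ := AEb_forall (A := A) hreg
      (Pool.Agent.W873.Tp.mk_Iio_lt' γ) Φ (q := q2) (by
      intro β q4 hq4
      obtain ⟨q5, hq5, φ, hφ⟩ := dec_In TT hκ0 hM s β q4 (hq4.trans (hq2.trans hq1p))
      obtain ⟨b, hb⟩ := hφ
      refine ⟨q5, hq5, b, fun ξ hξ r hr hm => ?_⟩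
      obtain ⟨r', hr', h'⟩ := hb ξ hξ r hr hm
      exact ⟨r', hr', φ, down_AE _ _ _ ⟨b, hb⟩ _ (hr'.trans hr), h'⟩)
    have hq3p : q3 ≤ p := hq3.trans (hq2.trans hq1p)
    obtain ⟨r, hr, ξ, hξ, hm⟩ := exists_mem_gt hκ0 hM.full hq3p b0
    obtain ⟨r1, hr1, δ, c, hδ, hc⟩ := dense2 TT t s ξ r
    refine ⟨r1, hr1.trans (hr.trans hq3), ee δ c, fun β hβ => ?_⟩
    have key : ∀ r2 ≤ r1, ∃ r3 ≤ r2, r3 ∈ AE A (In TT t s β (β ∈ ee δ c)) := by
      intro r2 hr2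
      obtain ⟨r3, hr3, φ, h3, a, c', ha, hc', h4⟩ := hb0 ⟨β, hβ⟩ ξ hξ r2
        (hr2.trans (hr1.trans hr)) (down_meets _ _ hm _ (hr2.trans hr1))
      have e1 := TT.fn _ _ _ _ _ ha (TT.down _ _ _ _ hδ _ (hr3.trans hr2))
      have e2 := TT.fn _ _ _ _ _ hc' (TT.down _ _ _ _ hc _ (hr3.trans hr2))
      subst e1
      subst e2
      exact ⟨r3, hr3, In_congr TT h4.symm h3⟩
    constructor
    · intro hβ' r2 hr2
      obtain ⟨r3, hr3, h3⟩ := key r2 hr2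
      exact ⟨r3, hr3, r3, In_congr TT (by simp [hβ']) h3, le_rfl⟩
    · intro hβ' r2 hr2 hm2
      obtain ⟨r3, hr3, h3⟩ := key r2 hr2
      have h4 : r3 ∈ AE A (In TT t s β False) := In_congr TT (by simp [hβ']) h3
      exact hneg β r3 ((hr3.trans hr2).trans (hr1.trans (hr.trans hq3p))) h4 r3 le_rfl
        (down_meets _ _ hm2 _ hr3)
  obtain ⟨q', hq', b, hb⟩ := hfr Y q1 hfresh
  refine ⟨q', hq', b, down_AE _ _ _ h1 _ hq', fun β => ?_⟩
  obtain ⟨γ, hγ⟩ := exists_gt β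
  have h2 := hb γ β hγ
  by_cases hβ : β ∈ b
  · have h3 := h2.1 hβ
    intro r hr
    obtain ⟨r1, hr1, h4⟩ := exists_of_meets (hYdown β) (down_meets _ _ h3 _ hr)
    exact ⟨r1, hr1, r1, In_congr TT (by simp [hβ]) h4, le_rfl⟩
  · have h3 := h2.2 hβ
    intro r hr
    obtain ⟨r1, hr1, φ, hφ⟩ := dec_In TT hκ0 hM s β r (hr.trans (hq'.trans hq1p))
    refine ⟨r1, hr1, r1, ?_, le_rfl⟩
    by_cases hφ' : φ
    · exfalso
      have h5 : r1 ∈ Y β := In_congr TT (by simp [hφ']) hφ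
      exact h3 r1 (hr1.trans hr) (meets_of_mem h5)
    · exact In_congr TT (by simp [hφ', hβ]) hφ

/-- `s` and `s'` are different at `ξ` -/
def Ne' (s s' : TT.T) (ξ : κ.ord.ToType) : Set P :=
  {r | ∃ c c', c ≠ c' ∧ r ∈ TT.Val s ξ c ∧ r ∈ TT.Val s' ξ c'}

theorem down_Ne' (s s' : TT.T) (ξ : κ.ord.ToType) : Down (Ne' TT s s' ξ) := by
  rintro q ⟨γ, γ', h, h1, h2⟩ q' hq'
  exact ⟨γ, γ', h, TT.down _ _ _ _ h1 _ hq', TT.down _ _ _ _ h2 _ hq'⟩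

theorem not_Ne' (hκ : κ.IsInaccessible) (hM : MinT TT A p q t) {s s' : TT.T}
    {b : Set κ.ord.ToType} {q1 : P} (hq1 : q1 ≤ q) (h1 : q1 ∈ CV TT A t s b)
    (h2 : q1 ∈ CV TT A t s' b) (h3 : q1 ∈ AE A (Ne' TT s s')) : False := by
  classical
  have hκ0 : ℵ₀ ≤ κ := hκ.1.le
  -- a pairing function
  have hpair : #(κ.ord.ToType × κ.ord.ToType) = #κ.ord.ToType := by
    rw [Cardinal.mk_prod, Cardinal.lift_id, Cardinal.mk_ord_toType]
    exact Cardinal.mul_eq_self hκ0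
  obtain ⟨pr⟩ := Cardinal.eq.1 hpair
  let g : κ.ord.ToType → κ.ord.ToType → κ.ord.ToType := fun c c' => pr (c, c')
  let D : κ.ord.ToType → κ.ord.ToType → Set κ.ord.ToType := fun γ x =>
    {β | ¬ (β ∈ ee γ (pr.symm x).1 ↔ β ∈ ee γ (pr.symm x).2)}
  let h : κ.ord.ToType → κ.ord.ToType → κ.ord.ToType := fun γ x =>
    if hne : (D γ x).Nonempty then WellFounded.min wellFounded_lt (D γ x) hne else γ
  have hD : ∀ γ x, (D γ x).Nonempty → h γ x ∈ D γ x := by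
    intro γ x hne
    have : h γ x = WellFounded.min wellFounded_lt (D γ x) hne := dif_pos hne
    rw [this]
    exact WellFounded.min_mem _ _ _
  let u : TT.T := TT.op g s s'
  let d : TT.T := TT.op h t u
  -- the values of `d`
  have hval : ∀ ξ γ c c' r, r ∈ TT.Val t ξ γ → r ∈ TT.Val s ξ c → r ∈ TT.Val s' ξ c' →
      r ∈ TT.Val d ξ (h γ (pr (c, c'))) := fun ξ γ c c' r ht hs hs' =>
    TT.val_op h t u ξ γ (pr (c, c')) r ht (TT.val_op g s s' ξ c c' r hs hs')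
  have hall := AE_and (fun ξ => down_Gb TT t 0 s ξ) h1.1 (AE_and (fun ξ => down_Gb TT t 0 s' ξ)
    h2.1 h3)
  have key : ∀ ξ r, r ∈ Gb TT t 0 s ξ ∩ (Gb TT t 0 s' ξ ∩ Ne' TT s s' ξ) →
      ∃ γ c c', r ∈ TT.Val t ξ γ ∧ r ∈ TT.Val s ξ c ∧ r ∈ TT.Val s' ξ c' ∧
        h γ (pr (c, c')) < γ ∧
        ¬ (h γ (pr (c, c')) ∈ ee γ c ↔ h γ (pr (c, c')) ∈ ee γ c') := by
    rintro ξ r ⟨⟨γ, c, ht, hs, hlt⟩, ⟨γ1, c', ht1, hs', hlt'⟩, c1, c2, hne, hc1, hc2⟩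
    have e1 := TT.fn _ _ _ _ _ ht1 ht
    have e2 := TT.fn _ _ _ _ _ hc1 hs
    have e3 := TT.fn _ _ _ _ _ hc2 hs'
    subst e1
    subst e2
    subst e3
    have hne2 : (D γ1 (pr (c1, c2))).Nonempty := by
      by_contra hcon
      rw [Set.not_nonempty_iff_eq_empty] at hcon
      apply hne
      refine ee_inj hlt hlt' ?_
      ext β
      by_contra hβ
      have : β ∈ D γ1 (pr (c1, c2)) := by
        change ¬ (β ∈ ee γ1 (pr.symm (pr (c1, c2))).1 ↔ β ∈ ee γ1 (pr.symm (pr (c1, c2))).2)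
        rw [Equiv.symm_apply_apply]
        exact hβ
      rw [hcon] at this
      exact this
    have hmem := hD _ _ hne2
    have hmem' : ¬ (h γ1 (pr (c1, c2)) ∈ ee γ1 c1 ↔ h γ1 (pr (c1, c2)) ∈ ee γ1 c2) := by
      have h5 : ¬ (h γ1 (pr (c1, c2)) ∈ ee γ1 (pr.symm (pr (c1, c2))).1 ↔
        h γ1 (pr (c1, c2)) ∈ ee γ1 (pr.symm (pr (c1, c2))).2) := hmem
      rw [Equiv.symm_apply_apply] at h5
      exact h5
    refine ⟨γ1, c1, c2, ht1, hc1, hc2, ?_, hmem'⟩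
    by_cases h6 : h γ1 (pr (c1, c2)) ∈ ee γ1 c1
    · exact ee_lt h6
    · by_cases h7 : h γ1 (pr (c1, c2)) ∈ ee γ1 c2
      · exact ee_lt h7
      · exact absurd ⟨fun h => absurd h h6, fun h => absurd h h7⟩ hmem'
  have hlt : q1 ∈ AE A (Gl TT d t) := by
    refine AE_map hall ?_
    intro ξ r hr hr'
    obtain ⟨γ, c, c', ht, hs, hs', hl, -⟩ := key ξ r hr'
    exact ⟨r, le_rfl, h γ (pr (c, c')), γ, hl, hval ξ γ c c' r ht hs hs', ht⟩
  obtain ⟨q2, hq2, β, hβ⟩ := hM.min d q1 hq1 hlt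
  obtain ⟨q3, hq3, h4⟩ := exists_of_meets (down_AE _ _) (down_meets _ _ (h1.2 β) _ hq2)
  obtain ⟨q4, hq4, h5⟩ := exists_of_meets (down_AE _ _)
    (down_meets _ _ (h2.2 β) _ (hq3.trans hq2))
  have hq4p : q4 ≤ p := (hq4.trans (hq3.trans (hq2.trans hq1))).trans hM.le
  have hall2 := AE_and (fun ξ => down_In TT t s β (β ∈ b) ξ) (down_AE _ _ _ h4 _ hq4)
    (AE_and (fun ξ => down_In TT t s' β (β ∈ b) ξ) h5
      (AE_and (fun ξ => down_Ge TT d (TT.cst β) ξ) (down_AE _ _ _ hβ _ (hq4.trans hq3))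
        (down_AE _ _ _ hall _ ((hq4.trans hq3).trans hq2))))
  obtain ⟨r, hr, ξ, -, -, ⟨a, c, ha, hc, h6⟩, ⟨a', c', ha', hc', h7⟩, ⟨x, hx, hx'⟩, h8⟩ :=
    AE_point hκ0 hM.full hq4p hall2 β
  obtain ⟨γ, c1, c1', ht, hs, hs', hl, h9⟩ := key ξ r h8
  have e1 := TT.fn _ _ _ _ _ ha ht
  have e2 := TT.fn _ _ _ _ _ ha' ht
  have e3 := TT.fn _ _ _ _ _ hc hs
  have e4 := TT.fn _ _ _ _ _ hc' hs'
  have e5 := TT.fn _ _ _ _ _ hx (hval ξ γ c1 c1' r ht hs hs')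
  have e6 := TT.fn _ _ _ _ _ hx' (TT.val_cst β ξ r)
  subst e1
  subst e2
  subst e3
  subst e4
  rw [← e5, e6] at h9
  exact h9 (h6.trans h7.symm)

end

end TA5

open TA5 in
theorem jobA5 : StmtA5 := by
  intro κ hκ P _ hreg hfr Λ X TT A p q t hM
  refine ⟨CV TT A t, fun s b => down_CV TT s b, fun s q1 hq1 h1 =>
    exists_CV TT hκ hreg hfr hM s q1 hq1 h1, ?_⟩
  intro s s' b q1 hq1 h1 h2
  obtain ⟨q2, hq2, h3⟩ := tri TT hM.dec s s' q1 (hq1.trans hM.le)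
  rcases h3 with h3 | h3 | h3
  · exfalso
    refine not_Ne' TT hκ hM (hq2.trans hq1) (down_CV TT s b _ h1 _ hq2)
      (down_CV TT s' b _ h2 _ hq2) (AE_map h3 ?_)
    rintro ξ r hr ⟨c, c', hlt, hv, hv'⟩
    exact ⟨r, le_rfl, c, c', hlt.ne, hv, hv'⟩
  · exact ⟨q2, hq2, h3⟩
  · exfalso
    refine not_Ne' TT hκ hM (hq2.trans hq1) (down_CV TT s b _ h1 _ hq2)
      (down_CV TT s' b _ h2 _ hq2) (AE_map h3 ?_)
    rintro ξ r hr ⟨c, c', hlt, hv, hv'⟩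
    exact ⟨r, le_rfl, c', c, hlt.ne', hv', hv⟩

end Pool.Agent.Helper403.SZ
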