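import Mathlib
import Pool.Agent.Helper403_SZ.BStmts
import Pool.Agent.Helper669.KFinal

set_option autoImplicit false

/-!
# Job B2b: the chain condition
-/

namespace Pool.Agent.Helper403.SZ.TB2b

open Cardinal Set Pool.Agent.Helper669.Forcing Pool.Agent.Helper669.K

variable {κ : Cardinal.{0}} {L R I : Type} [LinearOrder L] [Preorder R]

theorem meets_mono {N N' : Set R} (h : N ⊆ N') {t : R} (ht : t ∈ meets N) : t ∈ meets N' := by
  intro q hq
  obtain ⟨r, hr, s, hs, hrs⟩ := ht q hq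
  exact ⟨r, hr, s, h hs, hrs⟩

/-- a condition with more elements, none of them at a coordinate where there is a promise -/
theorem relW_of_sub (W : Wg κ L R I) {p' p : BC κ L R I} (hs : p.s ⊆ p'.s) (hE : p.E ⊆ p'.E)
    (h : ∀ ξ i z, (ξ, i) ∈ p.E → (ξ, z) ∈ p'.s → (ξ, z) ∈ p.s) (r : R) : r ∈ relW W p' p := by
  refine ⟨hE, fun ξ β t _ => ⟨fun h1 => meets_mono (N := Nm p ξ β)
    (fun u (hu : (ξ, (β, u)) ∈ p.s) => hs hu) h1, fun i hi h1 h2 => ?_⟩⟩
  exact absurd (meets_mono (N' := Nm p ξ β) (fun u hu => h ξ i (β, u) hi hu) h1) (h2 t le_rfl)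

end Pool.Agent.Helper403.SZ.TB2b

namespace Pool.Agent.Helper403.SZ

open Cardinal Set Pool.Agent.Helper669.Forcing Pool.Agent.Helper669.K TB2b

theorem jobB2b : StmtB2b := by
  classical
  intro κ L R I _ _ _ hκ hR W hW ι f hι
  have hκ0 : ℵ₀ ≤ κ := hκ.1.le
  have hreg : κ.IsRegular := hκ.isRegular
  obtain ⟨s, hs⟩ := exists_fiber hκ0 hι hR fun i => (f i).1
  have hZ : #(κ.ord.ToType × R) ≤ κ := by
    rw [mk_prod, lift_id, lift_id, mk_ord_toType]
    exact (mul_le_mul' le_rfl hR).trans (mul_eq_self hκ0).le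
  obtain ⟨i, j, hij, h⟩ := exists_agree (L := L) (Z := κ.ord.ToType × R)
    (ι := {i | (f i).1 = s}) hreg (fun μ hμ => hκ.isStrongLimit.isStrongPrelimit hμ) hZ hs
    (fun E K' Z' hE hZ' => Pool.Agent.Helper669.KDelta.weak_delta hκ0 hE Z' hZ')
    (fun i => (f i.1).2.s)
    (fun i => Prod.fst '' (f i.1).2.s ∪ Prod.fst '' (f i.1).2.E)
    (fun i => (f i.1).2.hs)
    (fun i => (mk_union_le _ _).trans_lt (add_lt_of_lt hκ0
      (mk_image_le.trans_lt (f i.1).2.hs) (mk_image_le.trans_lt (f i.1).2.hE)))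
  refine ⟨i.1, j.1, fun h' => hij (Subtype.ext h'),
    ((s, union2 hκ0 (f i.1).2 (f j.1).2) : Two (NW W hW)), ⟨i.2.ge, ?_⟩, ⟨j.2.ge, ?_⟩⟩
  · refine relW_of_sub W Set.subset_union_left Set.subset_union_left (fun ξ a z h1 h2 => ?_) s
    rcases h2 with h2 | h2
    · exact h2
    · exact (h ξ (Or.inr ⟨_, h1, rfl⟩) (Or.inl ⟨_, h2, rfl⟩) z).2 h2
  · refine relW_of_sub W Set.subset_union_right Set.subset_union_right (fun ξ a z h1 h2 => ?_) s
    rcases h2 with h2 | h2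
    · exact (h ξ (Or.inl ⟨_, h2, rfl⟩) (Or.inr ⟨_, h1, rfl⟩) z).1 h2
    · exact h2

end Pool.Agent.Helper403.SZ
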