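import Mathlib
import Pool.Agent.Helper403_SZ.BStmts

set_option autoImplicit false

/-!
# Amalgamation, and from the forcing cut at a coordinate to larger forcings (jobs B2c, B2d)
-/

namespace Pool.Agent.Helper403.SZ.TB2cd

open Cardinal Set Pool.Agent.Helper669.Forcing Pool.Agent.Helper669.K

theorem meets_mono {P : Type} [Preorder P] {A B : Set P} (h : A ⊆ B) {t : P}
    (ht : t ∈ meets A) : t ∈ meets B := fun q hq => by
  obtain ⟨r, hr, s, hs, hle⟩ := ht q hq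
  exact ⟨r, hr, s, h hs, hle⟩

theorem not_meets_fnot {P : Type} [Preorder P] {A : Set P} {t : P} (h : t ∈ meets A)
    (h' : t ∈ fnot (meets A)) : False := h' t le_rfl h

section

variable {κ : Cardinal.{0}} {L R I : Type} [LinearOrder L] [Preorder R]

variable (hκ : ℵ₀ ≤ κ) {z p : BC κ L R I} {ξ : L} {T : Set (κ.ord.ToType × R)} (hT : T.Finite)

theorem Nm_amal_of_lt (hz : Cond.res ξ z = z) {η : L} (h : η < ξ) (β : κ.ord.ToType) :
    Nm (amal hκ z p ξ T hT) η β = Nm z η β := by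
  ext u
  constructor
  · rintro ((h1 | h1) | h1)
    · exact h1
    · exact absurd h1.2 (not_le.2 h)
    · exact absurd h1.1 h.ne
  · exact fun h1 => Or.inl (Or.inl h1)

theorem Nm_amal_of_gt (hz : Cond.res ξ z = z) {η : L} (h : ξ < η) (β : κ.ord.ToType) :
    Nm (amal hκ z p ξ T hT) η β = Nm p η β := by
  ext u
  constructor
  · rintro ((h1 | h1) | h1)
    · exact absurd (Cond.lt_of_res hz h1) (not_lt.2 h.le)
    · exact h1.1
    · exact absurd h1.1 h.ne'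
  · exact fun h1 => Or.inl (Or.inr ⟨h1, h.le⟩)

theorem Nm_amal_self (hz : Cond.res ξ z = z) (β : κ.ord.ToType) :
    Nm (amal hκ z p ξ T hT) ξ β = Nm p ξ β ∪ {u | (β, u) ∈ T} := by
  ext u
  constructor
  · rintro ((h1 | h1) | h1)
    · exact absurd (Cond.lt_of_res hz h1) (lt_irrefl _)
    · exact Or.inl h1.1
    · exact Or.inr h1.2
  · rintro (h1 | h1)
    · exact Or.inl (Or.inr ⟨h1, le_rfl⟩)
    · exact Or.inr ⟨rfl, h1⟩

end

theorem jobB2c : StmtB2c := by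
  intro κ L R I _ _ _ hκ W hW ξ z p t T hT hz ht hWT
  refine ⟨⟨?_, fun η β u hu => ⟨?_, ?_⟩⟩, ⟨fun x hx => Or.inl hx, fun η β u hu => ⟨?_, ?_⟩⟩⟩
  · intro x hx
    rcases lt_or_ge x.1 ξ with h | h
    · exact Or.inl (ht.1 ⟨hx, h⟩)
    · exact Or.inr ⟨hx, h⟩
  · intro h1
    rcases lt_trichotomy η ξ with h | h | h
    · rw [Nm_amal_of_lt hκ hT hz h]
      exact (ht.2 η β u hu).1 (by rwa [Nm_res h])
    · subst h
      rw [Nm_amal_self hκ hT hz]
      exact meets_mono subset_union_left h1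
    · rwa [Nm_amal_of_gt hκ hT hz h]
  · intro i hi h1 h2
    rcases lt_trichotomy η ξ with h | h | h
    · rw [Nm_amal_of_lt hκ hT hz h] at h1
      rw [amal_res hκ hT hz h.le]
      exact (ht.2 η β u hu).2 i ⟨hi, h⟩ h1 (by rwa [Nm_res h])
    · subst h
      rw [Nm_amal_self hκ hT hz] at h1
      rw [amal_res hκ hT hz le_rfl]
      obtain ⟨u2, hu2, s, hs, hle⟩ := h1 u le_rfl
      rcases hs with hs | hs
      · exact absurd (meets_of_le hs hle) (h2 u2 hu2)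
      · obtain ⟨h3, h4⟩ := hWT _ hs
        have h5 := h4 i hi
        have h6 := (hW η).mono i β t u z z hu (relW_refl W _ u)
        rw [hz] at h6 ⊢
        exact h6 h5
    · rw [Nm_amal_of_gt hκ hT hz h] at h1
      exact (not_meets_fnot h1 h2).elim
  · intro h1
    exact meets_mono (fun v hv => Or.inl (Or.inl hv)) h1
  · intro i hi h1 h2
    rw [Nm_amal_of_lt hκ hT hz (Cond.lt_of_resE hz hi)] at h1
    exact (not_meets_fnot h1 h2).elim

section

variable {κ : Cardinal.{0}} {L R I : Type} [LinearOrder L] [Preorder R]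

theorem res_of_le' {ξ' ξ : L} (h : ξ' ≤ ξ) {p : BC κ L R I} (hp : Cond.res ξ' p = p) :
    Cond.res ξ p = p := by
  ext x
  · exact ⟨fun hx => hx.1, fun hx => ⟨hx, (Cond.lt_of_res hp hx).trans_le h⟩⟩
  · exact ⟨fun hx => hx.1, fun hx => ⟨hx, (Cond.lt_of_resE hp hx).trans_le h⟩⟩

variable [WellFoundedLT L]

theorem meets_transfer (h2c : StmtB2c) (hκ : ℵ₀ ≤ κ) {W W' : Wg κ L R I}
    (hW : ∀ ξ, GoodW W ξ) (hW' : ∀ ξ, GoodW W' ξ) {ξ : L} (h : ∀ η < ξ, W η = W' η)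
    (Y : Set (R × BC κ L R I)) (hY : ∀ y ∈ Y, Cond.res ξ y.2 = y.2) (t : R) (p : BC κ L R I)
    (hp : Cond.res ξ p = p) (hm : ((t, p) : Two (NW W hW)) ∈ meets (P := Two (NW W hW)) Y) :
    ((t, p) : Two (NW W' hW')) ∈ meets (P := Two (NW W' hW')) Y := by
  rintro ⟨t1, p1⟩ ⟨h1, h2⟩
  have h1' : t1 ≤ t := h1
  have h2' : t1 ∈ relW W' p1 p := h2
  have h3 : t1 ∈ relW W' (Cond.res ξ p1) p := by
    have := relW_res h2' ξ
    rwa [hp] at this
  rw [← relW_congr h hp (Cond.res_res le_rfl _)] at h3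
  obtain ⟨⟨t2, p2⟩, ⟨h4, h5⟩, ⟨t3, p3⟩, hy, h6, h7⟩ := hm (t1, Cond.res ξ p1) ⟨h1', h3⟩
  have h4' : t2 ≤ t1 := h4
  have h5' : t2 ∈ relW W p2 (Cond.res ξ p1) := h5
  have h6' : t2 ≤ t3 := h6
  have h7' : t2 ∈ relW W p2 p3 := h7
  have hp3 : Cond.res ξ p3 = p3 := hY _ hy
  have h8 : t2 ∈ relW W' (Cond.res ξ p2) (Cond.res ξ p1) := by
    have := relW_res h5' ξ
    rw [Cond.res_res le_rfl] at this
    rwa [relW_congr h (Cond.res_res le_rfl _) (Cond.res_res le_rfl _)] at this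
  have h9 : t2 ∈ relW W' (Cond.res ξ p2) p3 := by
    have := relW_res h7' ξ
    rw [hp3] at this
    rwa [relW_congr h hp3 (Cond.res_res le_rfl _)] at this
  obtain ⟨h10, h11⟩ := h2c κ L R I hκ W' hW' ξ (Cond.res ξ p2) p1 t2 ∅ finite_empty
    (Cond.res_res le_rfl _) h8 (fun x hx => hx.elim)
  exact ⟨(t2, amal hκ (Cond.res ξ p2) p1 ξ ∅ finite_empty), ⟨h4', h10⟩, (t3, p3), hy,
    ⟨h6', relW_trans hW' h11 h9⟩⟩

end

theorem jobB2d (h2c : StmtB2c) : StmtB2d := by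
  intro κ L R I _ _ _ hκ W W' hW hW' ξ h
  have hsymm : ∀ η < ξ, W' η = W η := fun η hη => (h η hη).symm
  refine ⟨fun Y hY t p hp => ⟨meets_transfer h2c hκ hW hW' h Y hY t p hp,
    meets_transfer h2c hκ hW' hW hsymm Y hY t p hp⟩, fun ξ' hξ S hS => ?_⟩
  have hbelow : ∀ p ∈ S, Cond.res ξ p = p := fun p hp => res_of_le' hξ (hS.below p hp)
  have hrel : ∀ p ∈ S, ∀ p' ∈ S, relW W p' p = relW W' p' p := fun p hp p' hp' =>
    relW_congr h (hbelow p hp) (hbelow p' hp')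
  have hle : ∀ x y : R × S, @LE.le (Two ((NW W hW).sub S)) Preorder.toLE x y ↔
      @LE.le (Two ((NW W' hW').sub S)) Preorder.toLE x y := by
    intro x y
    have h1 := hrel y.2.1 y.2.2 x.2.1 x.2.2
    constructor
    · rintro ⟨h2, h3⟩
      exact ⟨h2, by
        change x.1 ∈ relW W' x.2.1 y.2.1
        rw [← h1]
        exact h3⟩
    · rintro ⟨h2, h3⟩
      exact ⟨h2, by
        change x.1 ∈ relW W x.2.1 y.2.1
        rw [h1]
        exact h3⟩
  refine ⟨hbelow, hS.emp, hS.card, ?_, ?_, ?_, ?_⟩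
  · intro D hD hdir
    obtain ⟨m, hm⟩ := hS.closed D hD (by
      intro a ha b hb t hta htb
      obtain ⟨t', ht', c, hc, h1, h2, h3⟩ := hdir a ha b hb t hta htb
      refine ⟨t', ht', c, hc, h1, ?_, ?_⟩
      · change t' ∈ relW W c.2.1 a.2.1
        rw [hrel _ a.2.2 _ c.2.2]
        exact h2
      · change t' ∈ relW W c.2.1 b.2.1
        rw [hrel _ b.2.2 _ c.2.2]
        exact h3)
    refine ⟨m, fun a ha => ?_⟩
    change a.1 ∈ relW W' m.1 a.2.1
    rw [← hrel _ a.2.2 _ m.2]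
    exact hm a ha
  · intro ι f hι
    obtain ⟨i, j, hij, r, h1, h2⟩ := hS.cc ι f hι
    exact ⟨i, j, hij, r, (hle r (f i)).1 h1, (hle r (f j)).1 h2⟩
  · intro x y z hzx hzy
    have key : ∀ x : R × S, @LE.le (Two (NW W' hW')) Preorder.toLE z (x.1, x.2.1) →
        @LE.le (Two (NW W hW)) Preorder.toLE (z.1, Cond.res ξ z.2) (x.1, x.2.1) := by
      rintro x ⟨h1, h2⟩
      refine ⟨h1, ?_⟩
      have h3 := relW_res (show z.1 ∈ relW W' z.2 x.2.1 from h2) ξ
      rw [hbelow _ x.2.2, ← relW_congr h (hbelow _ x.2.2) (Cond.res_res le_rfl _)] at h3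
      exact h3
    obtain ⟨w, h1, h2⟩ := hS.c1 x y (z.1, Cond.res ξ z.2) (key x hzx) (key y hzy)
    exact ⟨w, (hle w x).1 h1, (hle w y).1 h2⟩
  · intro Y x hx
    have hx' : (x : Two ((NW W hW).sub S)) ∈ meets (P := Two ((NW W hW).sub S)) Y := by
      intro q hq
      obtain ⟨r, hr, s, hs, hrs⟩ := hx q ((hle q x).1 hq)
      exact ⟨r, (hle r q).2 hr, s, hs, (hle r s).2 hrs⟩
    have h1 := hS.c2 Y x hx'
    refine meets_transfer h2c hκ hW hW' h _ ?_ x.1 x.2.1 (hbelow _ x.2.2) h1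
    rintro _ ⟨y, _, rfl⟩
    exact hbelow _ y.2.2

end Pool.Agent.Helper403.SZ.TB2cd
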