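import Mathlib
import Pool.Agent.Helper403_SZ.BStmts
import Pool.Agent.Helper403_SZ.PlusPow

set_option autoImplicit false

/-!
# Closing off (job B4)
-/

namespace Pool.Agent.Helper403.SZ.TB4

open Cardinal Set Pool.Agent.Helper669.Forcing Pool.Agent.Helper669.K Pool.Agent.Helper403.SZ

/-- the arities of the closure operations -/
def Ar {C R J : Type} (S0 : Set C) : S0 ⊕ (Fin 3 × (J → R)) → Type
  | Sum.inl _ => Empty
  | Sum.inr _ => J

/-- evaluation of the closure terms -/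
def ev {C R J : Type} (S0 : Set C) (G : Fin 3 → (J → R × C) → C) :
    WType (Ar (R := R) (J := J) S0) → C
  | WType.mk (Sum.inl p) _ => p.1
  | WType.mk (Sum.inr x) g => G x.1 fun a => (x.2 a, ev S0 G (g a))

theorem exists_closure {C R J : Type} {μ : Cardinal.{0}} (hμ : ℵ₀ ≤ μ) (hJ : μ ^ #J ≤ μ)
    (hR : #R ≤ μ) (G : Fin 3 → (J → R × C) → C) (Q : C → Prop) (S0 : Set C) (h0 : #S0 ≤ μ)
    (hQ0 : ∀ p ∈ S0, Q p) (hQ : ∀ j f, (∀ a, Q (f a).2) → Q (G j f)) :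
    ∃ S : Set C, S0 ⊆ S ∧ #S ≤ μ ∧ (∀ p ∈ S, Q p) ∧ ∀ j f, (∀ a, (f a).2 ∈ S) → G j f ∈ S := by
  refine ⟨Set.range (ev S0 G), ?_, ?_, ?_, ?_⟩
  · intro p hp
    exact ⟨WType.mk (Sum.inl ⟨p, hp⟩) Empty.elim, rfl⟩
  · refine mk_range_le.trans (WType.cardinalMk_le_of_le ?_)
    have h1 : #(J → R) ≤ μ := by
      rw [← Cardinal.power_def]
      exact (Cardinal.power_le_power_right hR).trans hJ
    have h2 : #(S0 ⊕ (Fin 3 × (J → R))) ≤ μ := by
      rw [mk_sum, lift_id, lift_id, mk_prod, lift_id, lift_id]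
      refine (add_le_add h0 (mul_le_mul' ?_ h1)).trans (b := μ + μ * μ) ?_
      · exact (lt_aleph0_of_finite _).le.trans hμ
      · rw [mul_eq_self hμ, add_eq_self hμ]
    refine (sum_le_sum _ (fun _ => μ) ?_).trans ?_
    · rintro (p | x)
      · change μ ^ #Empty ≤ μ
        rw [mk_empty, power_zero]
        exact one_le_aleph0.trans hμ
      · exact hJ
    · rw [sum_const, lift_id, lift_id]
      exact (mul_le_mul' h2 le_rfl).trans (mul_eq_self hμ).le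
  · rintro _ ⟨w, rfl⟩
    induction w with
    | mk a g ih =>
      rcases a with p | x
      · exact hQ0 p.1 p.2
      · exact hQ x.1 _ fun a => ih a
  · intro j f hf
    choose g hg using hf
    refine ⟨WType.mk (Sum.inr (j, fun a => (f a).1)) g, ?_⟩
    change G j (fun a => ((f a).1, ev S0 G (g a))) = _
    congr 1
    funext a
    rw [hg a]

section

variable {κ : Cardinal.{0}} {L R I : Type} [LinearOrder L] [Preorder R]

theorem le_res (W : Wg κ L R I) (p : BC κ L R I) (ξ : L) (r : R) :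
    r ∈ relW W p (Cond.res ξ p) := by
  refine ⟨fun x hx => hx.1, fun η β t _ => ?_⟩
  rcases lt_or_ge η ξ with h | h
  · rw [Nm_res h]
    exact ⟨id, fun _ _ h1 h2 => absurd h1 (h2 _ le_rfl)⟩
  · rw [Nm_res_of_le h]
    exact ⟨fun h1 => absurd h1 (not_meets_empty t), fun i hi => absurd hi.2 (not_lt.2 h)⟩

theorem le_of_le_res {W : Wg κ L R I} {hW : ∀ ξ, GoodW W ξ} {p q : Two (NW W hW)} {ξ : L}
    (hq : Cond.res ξ q.2 = q.2) (h : p ≤ q) :
    @LE.le (Two (NW W hW)) _ (p.1, Cond.res ξ p.2) q := by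
  refine ⟨h.1, ?_⟩
  have h1 := relW_res (W := W) h.2 ξ
  rw [hq] at h1
  exact h1

open Classical in
/-- the closure operations -/
noncomputable def GG (W : Wg κ L R I) (hW : ∀ ξ, GoodW W ξ) (ξ : L) (d : BC κ L R I)
    (a0 : κ.ord.ToType) (j : Fin 3) (f : Option κ.ord.ToType → Two (NW W hW)) : BC κ L R I :=
  if j = 0 then
    (if h : ∃ m, (∀ a, (f a).1 ∈ relW W m (f a).2) ∧ Cond.res ξ m = m then h.choose else d)
  else if j = 1 then
    (if h : ∃ w : Two (NW W hW), Cond.res ξ w.2 = w.2 ∧ w ≤ f none ∧ w ≤ f (some a0) then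
      h.choose.2 else d)
  else
    (if h : ∃ w : Two (NW W hW), Cond.res ξ w.2 = w.2 ∧ w ≤ f none ∧
      ∀ a, ¬ ∃ v : Two (NW W hW), v ≤ w ∧ v ≤ f (some a) then h.choose.2 else d)

variable {W : Wg κ L R I} {hW : ∀ ξ, GoodW W ξ} {ξ : L} {d : BC κ L R I} {a0 : κ.ord.ToType}
  {f : Option κ.ord.ToType → Two (NW W hW)}

theorem GG_zero (h : ∃ m, (∀ a, (f a).1 ∈ relW W m (f a).2) ∧ Cond.res ξ m = m) :
    ∀ a, (f a).1 ∈ relW W (GG W hW ξ d a0 0 f) (f a).2 := by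
  have h1 : GG W hW ξ d a0 0 f = h.choose := by
    rw [GG, if_pos rfl, dif_pos h]
  rw [h1]
  exact h.choose_spec.1

theorem GG_one (h : ∃ w : Two (NW W hW), Cond.res ξ w.2 = w.2 ∧ w ≤ f none ∧ w ≤ f (some a0)) :
    ∃ w : Two (NW W hW), w.2 = GG W hW ξ d a0 1 f ∧ w ≤ f none ∧ w ≤ f (some a0) := by
  have h1 : GG W hW ξ d a0 1 f = h.choose.2 := by
    rw [GG, if_neg (by decide), if_pos rfl, dif_pos h]
  exact ⟨h.choose, h1.symm, h.choose_spec.2⟩

theorem GG_two (h : ∃ w : Two (NW W hW), Cond.res ξ w.2 = w.2 ∧ w ≤ f none ∧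
      ∀ a, ¬ ∃ v : Two (NW W hW), v ≤ w ∧ v ≤ f (some a)) :
    ∃ w : Two (NW W hW), w.2 = GG W hW ξ d a0 2 f ∧ w ≤ f none ∧
      ∀ a, ¬ ∃ v : Two (NW W hW), v ≤ w ∧ v ≤ f (some a) := by
  have h1 : GG W hW ξ d a0 2 f = h.choose.2 := by
    rw [GG, if_neg (by decide), if_neg (by decide), dif_pos h]
  exact ⟨h.choose, h1.symm, h.choose_spec.2⟩

theorem GG_res (hd : Cond.res ξ d = d) (j : Fin 3) :
    Cond.res ξ (GG W hW ξ d a0 j f) = GG W hW ξ d a0 j f := by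
  unfold GG
  split_ifs with h0 h1 h2 h3 h4
  · exact h1.choose_spec.2
  · exact hd
  · exact h3.choose_spec.1
  · exact hd
  · exact h4.choose_spec.1
  · exact hd

theorem exists_range {X : Type} {κ : Cardinal.{0}} (A : Set X) (hA : A.Nonempty) (h : #A ≤ κ) :
    ∃ f : κ.ord.ToType → X, Set.range f = A := by
  have h1 : #A ≤ #κ.ord.ToType := by rwa [mk_ord_toType]
  have : Nonempty A := hA.to_subtype
  obtain ⟨g⟩ := Cardinal.le_def A κ.ord.ToType |>.1 h1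
  refine ⟨fun a => (Function.invFun g a).1, ?_⟩
  ext x
  constructor
  · rintro ⟨a, rfl⟩
    exact (Function.invFun g a).2
  · intro hx
    exact ⟨g ⟨x, hx⟩, by simp only [Function.leftInverse_invFun g.injective ⟨x, hx⟩]⟩

end

/-- job B4 -/
theorem _root_.Pool.Agent.Helper403.SZ.jobB4 : StmtB2a → StmtB2b → StmtB2c → StmtB4 := by
  intro h2a h2b h2c κ L R I _ _ _ hκ hR hne hcc W hW ξ S0 n hS0 hcard
  have hκ0 : ℵ₀ ≤ κ := hκ.1.le
  obtain ⟨a0⟩ : Nonempty κ.ord.ToType := by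
    rw [← mk_ne_zero_iff, mk_ord_toType]
    exact (aleph0_pos.trans hκ.1).ne'
  obtain ⟨d, hd0⟩ : ∃ d : BC κ L R I, d = emp κ hκ.pos L R I := ⟨_, rfl⟩
  have hd1 : d.s = ∅ := by rw [hd0]; rfl
  have hd2 : d.E = ∅ := by rw [hd0]; rfl
  have hd : Cond.res ξ d = d := by
    ext x
    · rw [Cond.mem_res_s, hd1]
      simp
    · rw [Cond.mem_res_E, hd2]
      simp
  have hκμ : κ ≤ plus (2 ^ κ) n := (cantor κ).le.trans (le_plus0 _ n)
  have hμ : ℵ₀ ≤ plus (2 ^ κ) n := hκ0.trans hκμ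
  obtain ⟨S, hsub, hSμ, hSQ, hSG⟩ := exists_closure (C := BC κ L R I) (R := R)
    (J := Option κ.ord.ToType) (μ := plus (2 ^ κ) n) hμ (by
      rw [mk_option, mk_ord_toType, add_one_eq hκ0, plus_pow hκ0 n])
    (hR.trans hκμ) (GG W hW ξ d a0) (fun p => Cond.res ξ p = p)
    (insert d S0) (by
      refine mk_insert_le.trans ((add_le_add hcard ?_).trans
        (add_eq_self hμ).le)
      exact one_le_aleph0.trans hμ)
    (by
      rintro p (rfl | hp)
      · exact hd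
      · exact hS0 p hp)
    (fun j f _ => GG_res hd j)
  have hdS : d ∈ S := hsub (Set.mem_insert _ _)
  refine ⟨S, (Set.subset_insert _ _).trans hsub, ?_⟩
  have hc1 : ∀ x y : Two ((NW W hW).sub S), ∀ z : Two (NW W hW), z ≤ (x.1, x.2.1) →
      z ≤ (y.1, y.2.1) → ∃ w : Two ((NW W hW).sub S), w ≤ x ∧ w ≤ y := by
    intro x y z hx hy
    obtain ⟨w, hw, hwx, hwy⟩ := GG_one (W := W) (hW := hW) (ξ := ξ) (d := d) (a0 := a0)
      (f := fun o => o.elim (x.1, x.2.1) fun _ => (y.1, y.2.1))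
      ⟨(z.1, Cond.res ξ z.2), Cond.res_res le_rfl _,
        le_of_le_res (hSQ x.2.1 x.2.2) hx, le_of_le_res (hSQ y.2.1 y.2.2) hy⟩
    have hm := hSG 1 (fun o : Option κ.ord.ToType => o.elim (x.1, x.2.1) fun _ => (y.1, y.2.1)) (by
      rintro (_ | a)
      · exact x.2.2
      · exact y.2.2)
    have hwS : w.2 ∈ S := by rw [hw]; exact hm
    exact ⟨(w.1, ⟨w.2, hwS⟩), hwx, hwy⟩
  refine ⟨hSQ, ⟨d, hdS, hd1, hd2⟩, ⟨n, hSμ⟩, ?_, ?_, hc1, ?_⟩
  · intro D hD hdir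
    rcases D.eq_empty_or_nonempty with rfl | hne'
    · exact ⟨⟨d, hdS⟩, fun a ha => ha.elim⟩
    · obtain ⟨f, hf⟩ := exists_range D hne' hD.le
      obtain ⟨D', hD'⟩ : ∃ D' : Set (R × BC κ L R I), D' = (fun a : R × S => (a.1, a.2.1)) '' D :=
        ⟨_, rfl⟩
      have hdir' : ForcedDirected (NW W hW) D' := by
        rw [hD']
        rintro _ ⟨a, ha, rfl⟩ _ ⟨b, hb, rfl⟩ t hta htb
        obtain ⟨t', ht', c, hc, h1, h2, h3⟩ := hdir a ha b hb t hta htb
        exact ⟨t', ht', _, ⟨c, hc, rfl⟩, h1, h2, h3⟩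
      obtain ⟨m, hm1, hm2⟩ := h2a κ L R I hκ hcc W hW D'
        (by rw [hD']; exact mk_image_le.trans_lt hD) hdir'
      have hex : ∃ m, (∀ o : Option κ.ord.ToType,
          ((fun o : Option κ.ord.ToType => o.elim ((f a0).1, (f a0).2.1)
            fun a => ((f a).1, (f a).2.1) : Option κ.ord.ToType → Two (NW W hW)) o).1 ∈ relW W m
          ((fun o : Option κ.ord.ToType => o.elim ((f a0).1, (f a0).2.1)
            fun a => ((f a).1, (f a).2.1) : Option κ.ord.ToType → Two (NW W hW)) o).2) ∧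
          Cond.res ξ m = m := by
        have hfD : ∀ a, ((f a).1, (f a).2.1) ∈ D' := fun a => by
          rw [hD']
          exact ⟨f a, by rw [← hf]; exact ⟨a, rfl⟩, rfl⟩
        refine ⟨m, ?_, hm2 ξ ?_⟩
        · rintro (_ | a)
          · exact hm1 _ (hfD a0)
          · exact hm1 _ (hfD a)
        · rw [hD']
          rintro _ ⟨a, _, rfl⟩
          exact hSQ a.2.1 a.2.2
      have h1 := GG_zero (W := W) (hW := hW) (ξ := ξ) (d := d) (a0 := a0) hex
      have h2 := hSG 0 (fun o : Option κ.ord.ToType => o.elim ((f a0).1, (f a0).2.1)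
            fun a => ((f a).1, (f a).2.1)) (by
        rintro (_ | a)
        · exact (f a0).2.2
        · exact (f a).2.2)
      refine ⟨⟨_, h2⟩, fun x hx => ?_⟩
      rw [← hf] at hx
      obtain ⟨a, rfl⟩ := hx
      exact h1 (some a)
  · intro ι f hι
    obtain ⟨i, j, hij, r, hri, hrj⟩ := h2b κ L R I hκ hR W hW ι
      (fun i => ((f i).1, (f i).2.1)) hι
    obtain ⟨w, hwi, hwj⟩ := hc1 (f i) (f j) r hri hrj
    exact ⟨i, j, hij, w, hwi, hwj⟩
  · intro Y x hx q hq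
    by_contra hcon
    push Not at hcon
    -- the maximal antichain
    obtain ⟨M, hM1, hM2, hM3⟩ := h400_antichain
      {z : Two ((NW W hW).sub S) | z ≤ x ∧ ∃ y ∈ Y, z ≤ y}
    have hMne : M.Nonempty := by
      obtain ⟨r, hr, s, hs, hrs⟩ := hx x le_rfl
      obtain ⟨m, hm, _⟩ := hM3 r ⟨hr, s, hs, hrs⟩
      exact ⟨m, hm⟩
    have hMκ : #M ≤ κ := by
      by_contra hc
      obtain ⟨i, j, hij, r, hri, hrj⟩ := h2b κ L R I hκ hR W hW M
        (fun m => (m.1.1, m.1.2.1)) (not_le.1 hc)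
      obtain ⟨w, hwi, hwj⟩ := hc1 i.1 j.1 r hri hrj
      exact hM2 i.2 j.2 (fun h => hij (Subtype.ext h)) ⟨w, hwi, hwj⟩
    obtain ⟨f, hf⟩ := exists_range M hMne hMκ
    have hincomp : ∀ a, ¬ ∃ v : Two (NW W hW), @LE.le (Two (NW W hW)) _ v (q.1, Cond.res ξ q.2) ∧
        @LE.le (Two (NW W hW)) _ v ((f a).1, (f a).2.1) := by
      rintro a ⟨v, hv1, hv2⟩
      have hfa : f a ∈ M := by rw [← hf]; exact ⟨a, rfl⟩
      obtain ⟨_, y, hy, hfy⟩ := hM1 hfa
      have hv1' := le_of_le_res (W := W) (hW := hW) (ξ := ξ)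
        (q := (q.1, Cond.res ξ q.2)) (Cond.res_res le_rfl _) hv1
      have hv2' := le_of_le_res (W := W) (hW := hW) (ξ := ξ)
        (q := ((f a).1, (f a).2.1)) (hSQ _ (f a).2.2) hv2
      have ham := h2c κ L R I hκ0 W hW ξ (Cond.res ξ v.2) q.2 v.1 ∅ Set.finite_empty
        (Cond.res_res le_rfl _) hv1'.2 (fun _ h => h.elim)
      refine hcon (v.1, amal hκ0 (Cond.res ξ v.2) q.2 ξ ∅ Set.finite_empty) ⟨hv1.1, ham.1⟩
        _ ⟨y, hy, rfl⟩ ?_
      have h1 : @LE.le (Two (NW W hW)) _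
          (v.1, amal hκ0 (Cond.res ξ v.2) q.2 ξ ∅ Set.finite_empty) (v.1, Cond.res ξ v.2) :=
        ⟨le_rfl, ham.2⟩
      exact (h1.trans hv2').trans hfy
    obtain ⟨w, hw, hwx, hwM⟩ := GG_two (W := W) (hW := hW) (ξ := ξ) (d := d) (a0 := a0)
      (f := fun o => o.elim (x.1, x.2.1) fun a => ((f a).1, (f a).2.1))
      ⟨(q.1, Cond.res ξ q.2), Cond.res_res le_rfl _, le_of_le_res (hSQ x.2.1 x.2.2) hq, hincomp⟩
    have hm := hSG 2 (fun o : Option κ.ord.ToType => o.elim (x.1, x.2.1)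
        fun a => ((f a).1, (f a).2.1)) (by
      rintro (_ | a)
      · exact x.2.2
      · exact (f a).2.2)
    have hwS : w.2 ∈ S := by rw [hw]; exact hm
    obtain ⟨r, hr, s, hs, hrs⟩ := hx (w.1, ⟨w.2, hwS⟩) hwx
    have hrx : r ≤ x := hr.trans hwx
    obtain ⟨m, hmM, v, hv1, hv2⟩ := hM3 r ⟨hrx, s, hs, hrs⟩
    rw [← hf] at hmM
    obtain ⟨a, rfl⟩ := hmM
    exact hwM a ⟨(v.1, v.2.1), hv1.trans hr, hv2⟩

end Pool.Agent.Helper403.SZ.TB4
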