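import Mathlib
import Pool.Agent.Helper403_SZ.BStmts
import Pool.Agent.W873.Tp.Large2

set_option autoImplicit false

/-!
# Job B7: the index sets
-/

namespace Pool.Agent.Helper403.SZ

open Cardinal Set Pool.Agent.Helper669.Forcing Pool.Agent.Helper669.K

namespace TB7

theorem le_plusOmega (κ : Cardinal.{0}) (n : ℕ) : plus κ n ≤ plusOmega κ :=
  le_ciSup (bddAbove_of_small) n

theorem bdd_of_lt_cof {τ : Cardinal.{0}} (S : Set τ.ord.ToType) (hS : #S < τ.ord.cof) :
    ∃ b, ∀ a ∈ S, a < b := by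
  by_contra hcon
  push Not at hcon
  have h1 : IsCofinal S := fun β => by
    obtain ⟨x, hx, h⟩ := hcon β
    exact ⟨x, hx, h⟩
  have h2 := Order.cof_le h1
  rw [Ordinal.cof_toType] at h2
  exact absurd h2 (not_le.2 hS)

end TB7

open TB7 in
theorem jobB7 : StmtB7 := by
  classical
  intro κ hκ R hR
  have hκ0 : ℵ₀ ≤ κ := hκ.1.le
  set l : Cardinal.{0} := plusOmega (2 ^ κ) with hl
  have hκl : κ ≤ l := (cantor κ).le.trans (le_plusOmega (2 ^ κ) 0)
  have hl0 : ℵ₀ ≤ l := hκ0.trans hκl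
  set τ : Cardinal.{0} := 2 ^ l with hτ
  have hlτ : l ≤ τ := (cantor l).le
  have hτ0 : ℵ₀ ≤ τ := hl0.trans hlτ
  have hκτ : κ ≤ τ := hκl.trans hlτ
  have hτne : τ ≠ 0 := (lt_of_lt_of_le aleph0_pos hτ0).ne'
  have hτl : τ ^ l = τ := by
    rw [hτ, ← power_mul, mul_eq_self hl0]
  have hττ : τ * τ = τ := mul_eq_self hτ0
  let L : Type := τ.ord.ToType
  have hL : #L = τ := by rw [mk_toType, card_ord]
  have hK : #κ.ord.ToType = κ := by rw [mk_toType, card_ord]
  have hbd : ∀ α : Type, #α ≤ τ → #{t : Set α // #t ≤ l} ≤ τ := by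
    intro α hα
    calc #{t : Set α // #t ≤ l} ≤ max #α ℵ₀ ^ l := mk_bounded_set_le α l
      _ ≤ τ ^ l := power_le_power_right (max_le hα hτ0)
      _ = τ := hτl
  have hKR : #(L × (κ.ord.ToType × R)) ≤ τ := by
    rw [mk_prod, mk_prod, lift_id, lift_id, lift_id, lift_id, hL, hK]
    calc τ * (κ * #R) ≤ τ * (τ * τ) := mul_le_mul' le_rfl (mul_le_mul' hκτ (hR.trans hκτ))
      _ = τ := by rw [hττ, hττ]
  have hLI : #(L × (L ⊕ κ.ord.ToType)) ≤ τ := by
    rw [mk_prod, mk_sum, lift_id, lift_id, hL, hK]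
    simp only [lift_id]
    calc τ * (τ + κ) ≤ τ * τ := mul_le_mul' le_rfl (add_le_of_le hτ0 le_rfl hκτ)
      _ = τ := hττ
  have hC : #(BC κ L R L) ≤ τ := by
    have hinj : Function.Injective (fun c : BC κ L R L =>
        ((⟨c.s, c.hs.le.trans hκl⟩, ⟨c.E, c.hE.le.trans hκl⟩) :
          {t : Set (L × (κ.ord.ToType × R)) // #t ≤ l} ×
          {t : Set (L × (L ⊕ κ.ord.ToType)) // #t ≤ l})) := by
      intro a b hab
      simp only [Prod.mk.injEq, Subtype.mk.injEq] at hab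
      exact Cond.ext hab.1 hab.2
    refine (mk_le_of_injective hinj).trans ?_
    rw [mk_prod, lift_id, lift_id]
    calc _ ≤ τ * τ := mul_le_mul' (hbd _ hKR) (hbd _ hLI)
      _ = τ := hττ
  have hCR : #(R × BC κ L R L) ≤ τ := by
    rw [mk_prod, lift_id, lift_id]
    calc _ ≤ τ * τ := mul_le_mul' (hR.trans hκτ) hC
      _ = τ := hττ
  -- the names
  let T : Set (κ.ord.ToType → Set (R × BC κ L R L)) := {c | ∀ β, #(c β) ≤ κ}
  have hT : #T ≤ #L := by
    have hinj : Function.Injective (fun c : T =>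
        ((fun β => ⟨c.1 β, (c.2 β).trans hκl⟩) :
          κ.ord.ToType → {t : Set (R × BC κ L R L) // #t ≤ l})) := by
      intro a b hab
      apply Subtype.ext
      funext β
      have := congrFun hab β
      simpa using this
    calc #T ≤ #(κ.ord.ToType → {t : Set (R × BC κ L R L) // #t ≤ l}) := mk_le_of_injective hinj
      _ = #{t : Set (R × BC κ L R L) // #t ≤ l} ^ #κ.ord.ToType := by simp
      _ ≤ τ ^ #κ.ord.ToType := power_le_power_right (hbd _ hCR)
      _ ≤ τ ^ l := power_le_power_left hτne (by rw [hK]; exact hκl)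
      _ = #L := by rw [hτl, hL]
  have : Nonempty T := ⟨⟨fun _ => ∅, fun β => by simp⟩⟩
  obtain ⟨f⟩ := hT
  -- the small sets
  let B : Type := {X : Set (BC κ L R L) // #X ≤ l}
  have hB : #B ≤ τ := hbd _ hC
  have : Nonempty B := ⟨⟨∅, by simp⟩⟩
  have hLB : #(L × B) = #L := by
    rw [mk_prod, lift_id, lift_id, hL]
    exact mul_eq_left hτ0 hB (mk_ne_zero B)
  obtain ⟨g⟩ := Cardinal.eq.1 hLB
  refine ⟨L, inferInstance, inferInstance, L, fun η => (Function.invFun f η : T),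
    fun η => (g.symm η).2.1, fun c hc => ⟨f ⟨c, hc⟩, ?_⟩, ?_, ?_, ?_⟩
  · have h := Function.leftInverse_invFun f.injective (⟨c, hc⟩ : T)
    exact congrArg Subtype.val h
  · rintro X ⟨n, hn⟩ ξ
    by_contra hcon
    push Not at hcon
    let X' : B := ⟨X, hn.trans (le_plusOmega (2 ^ κ) n)⟩
    have h1 : ∀ a : L, g (a, X') < ξ := by
      intro a
      by_contra h2
      exact hcon _ (not_lt.1 h2) (by simp [X'])
    have h2 : #L ≤ #(Iio ξ) := mk_le_of_injective (f := fun a => (⟨g (a, X'), h1 a⟩ : Iio ξ))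
      fun a a' h => by
        have h3 := g.injective (congrArg Subtype.val h)
        exact (Prod.mk.inj h3).1
    have h3 := Pool.Agent.W873.Tp.mk_Iio_lt' (κ := τ) ξ
    rw [hL] at h2
    exact absurd h3 (not_lt.2 h2)
  · rintro S ⟨n, hn⟩
    exact bdd_of_lt_cof S ((hn.trans (le_plusOmega (2 ^ κ) n)).trans_lt
      (lt_cof_ord_power hl0 one_lt_two))
  · rw [hL]
    exact hlτ

end Pool.Agent.Helper403.SZ
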