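import Mathlib
import Pool.Agent.Helper403_SZ.BStmts
import Pool.Agent.Helper403_SZ.T0
import Pool.Agent.Helper669.KFinal

set_option autoImplicit false

/-!
# The iteration of Mathias forcings with small ultrafilters: no fresh subsets (B8)
-/

namespace Pool.Agent.Helper403.SZ.TB8

open Cardinal Set Pool.Agent.Helper669.Forcing Pool.Agent.Helper669.K Pool.Agent.Helper403.SZ

section

variable {κ : Cardinal.{0}} {L R I : Type} [LinearOrder L] [Preorder R]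

/-- names with the same meets agree with the same sets -/
theorem agree_congr {P K : Type} [Preorder P] [LT K] {Y Y' : K → Set P}
    (h : ∀ β q, q ∈ meets (Y' β) ↔ q ∈ meets (Y β)) {γ : K} {b : Set K} {q : P}
    (hq : q ∈ AgreeB Y γ b) : q ∈ AgreeB Y' γ b := by
  intro β hβ
  refine ⟨fun hb => (h β q).2 ((hq β hβ).1 hb), fun hb q' hq' hm => ?_⟩
  exact (hq β hβ).2 hb q' hq' ((h β q').1 hm)

variable {N : NOrd R (BC κ L R I)} {ξ : L} {S : Set (BC κ L R I)}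

/-- going up preserves forcing -/
theorem up_meets (hS : GoodSub N ξ S) (c : Set (R × BC κ L R I)) (x : Two (N.sub S))
    (hx : x ∈ meets {y : Two (N.sub S) | (y.1, y.2.1) ∈ c}) :
    ((x.1, x.2.1) : Two N) ∈ meets (P := Two N) c := by
  intro w hw
  obtain ⟨r, hr, y', ⟨y, hy, rfl⟩, hle⟩ := hS.c2 _ x hx w hw
  exact ⟨r, hr, _, hy, hle⟩

/-- going up preserves the forced negation -/
theorem up_fnot (hS : GoodSub N ξ S) (c : Set (R × BC κ L R I)) (hc : ∀ y ∈ c, y.2 ∈ S)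
    (x : Two (N.sub S)) (hx : x ∈ fnot (meets {y : Two (N.sub S) | (y.1, y.2.1) ∈ c})) :
    ((x.1, x.2.1) : Two N) ∈ fnot (meets (P := Two N) c) := by
  intro w hw hm
  obtain ⟨r, hr, s, hs, hrs⟩ := hm w le_rfl
  obtain ⟨v, hv1, hv2⟩ := hS.c1 x ((s.1, ⟨s.2, hc s hs⟩) : Two (N.sub S)) r (hr.trans hw) hrs
  exact hx v hv1 (meets_of_le hs hv2)

/-- freshness goes down to the small forcing -/
theorem fresh_down (hκ : κ.IsInaccessible) (hcc : CCS R κ) (hS : GoodSub N ξ S)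
    (Y : κ.ord.ToType → Set (R × BC κ L R I)) (hY : ∀ β, ∀ y ∈ Y β, y.2 ∈ S)
    (q : Two (N.sub S))
    (hfr : ∀ γ, ∀ q1 : Two N, q1 ≤ ((q.1, q.2.1) : Two N) → ∃ q2 ≤ q1, ∃ b,
      q2 ∈ AgreeB (P := Two N) Y γ b) :
    ∀ γ, ∀ q1 ≤ q, ∃ q2 ≤ q1, ∃ b, q2 ∈ AgreeB
      (fun β => {y : Two (N.sub S) | (y.1, y.2.1) ∈ Y β}) γ b := by
  intro γ q1 hq1
  obtain ⟨y', hy', hdec⟩ := T0.step2 hκ hcc hS.closed (J := Iio γ) (mk_Iio_toType_ord_lt γ)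
    (fun β => {p : Two (N.sub S) | p ∈ meets {y : Two (N.sub S) | (y.1, y.2.1) ∈ Y β.1} ∨
      p ∈ fnot (meets {y : Two (N.sub S) | (y.1, y.2.1) ∈ Y β.1})})
    (by
      rintro β p (h | h) p' hp'
      · exact Or.inl (down_meets _ _ h _ hp')
      · exact Or.inr (down_fnot _ _ h _ hp')) q1.1 q1.2 (by
      intro β p _
      obtain ⟨p', hp', h⟩ := exists_decide' {y : Two (N.sub S) | (y.1, y.2.1) ∈ Y β.1} p
      exact ⟨p', hp', h⟩)
  obtain ⟨⟨r', p'⟩, hle, b, hb⟩ := hfr γ (q1.1, y'.1) ⟨hq1.1, N.trans _ _ _ _ hy' hq1.2⟩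
  have hr' : r' ≤ q1.1 := hle.1
  have hrel : r' ∈ N.rel p' y'.1 := hle.2
  have hdown : ∀ t, t ≤ r' → @LE.le (Two N) _ (t, p') (r', p') ∧
      @LE.le (Two N) _ (t, p') (t, y'.1) := fun t ht =>
    ⟨⟨ht, N.refl _ _⟩, ⟨le_rfl, N.down _ _ _ hrel _ ht⟩⟩
  refine ⟨((r', y') : Two (N.sub S)), ⟨hr', (N.sub S).down _ _ _ hy' _ hr'⟩, b, fun β hβ => ⟨?_, ?_⟩⟩
  · intro hbβ
    have h1 : ((r', p') : Two N) ∈ meets (P := Two N) (Y β) := (hb β hβ).1 hbβ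
    refine meets_of_dense' fun w hw => ?_
    obtain ⟨t, ht, hd⟩ := hdec ⟨β, hβ⟩ w.1 (hw.1.trans hr')
    have hwt : @LE.le (Two (N.sub S)) _ (t, w.2) w := ⟨ht, N.refl _ _⟩
    refine ⟨((t, w.2) : Two (N.sub S)), hwt, ?_⟩
    have h2 : @LE.le (Two (N.sub S)) _ (t, w.2) (t, y') := ⟨le_rfl, N.down _ _ _ hw.2 _ ht⟩
    rcases hd with hd | hd
    · exact down_meets _ _ hd _ h2
    · exfalso
      obtain ⟨h3, h4⟩ := hdown t (ht.trans hw.1)
      exact up_fnot hS (Y β) (hY β) _ hd _ h4 (down_meets (P := Two N) _ _ h1 _ h3)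
  · intro hbβ w hw hm
    have h1 : ((r', p') : Two N) ∈ fnot (meets (P := Two N) (Y β)) := (hb β hβ).2 hbβ
    obtain ⟨t, ht, hd⟩ := hdec ⟨β, hβ⟩ w.1 (hw.1.trans hr')
    have hwt : @LE.le (Two (N.sub S)) _ (t, w.2) w := ⟨ht, N.refl _ _⟩
    have h2 : @LE.le (Two (N.sub S)) _ (t, w.2) (t, y') := ⟨le_rfl, N.down _ _ _ hw.2 _ ht⟩
    rcases hd with hd | hd
    · obtain ⟨h3, h4⟩ := hdown t (ht.trans hw.1)
      exact h1 _ h3 (down_meets (P := Two N) _ _ (up_meets hS (Y β) _ hd) _ h4)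
    · exact hd _ h2 (down_meets _ _ hm _ hwt)

end

end Pool.Agent.Helper403.SZ.TB8

namespace Pool.Agent.Helper403.SZ

open Cardinal Set Pool.Agent.Helper669 Pool.Agent.Helper669.Forcing Pool.Agent.Helper669.K TB8

/-- job B8 -/
theorem jobB8 (h4 : StmtB4) : StmtB8 := by
  intro κ L R I _ _ _ hκ hR e b S hcc hL Y q hfr
  have hκ0 : ℵ₀ ≤ κ := hκ.1.le
  have hKκ : #κ.ord.ToType = κ := mk_ord_toType κ
  -- nice names
  choose N' hN'1 hN'2 using fun (β : κ.ord.ToType) => exists_nice hcc (Y β)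
  -- the conditions in the name
  let S0 : Set (BC κ L R I) := (⋃ (β : κ.ord.ToType),
    (fun y : R × BC κ L R I => y.2) '' (N' β)) ∪ {q.2}
  have hS0κ : #S0 ≤ κ := by
    refine KDelta.small_union hκ0 ?_ ?_
    · refine KDelta.small_iUnion hκ0 hKκ.le _ fun β => ?_
      exact mk_image_le.trans (hN'1 β)
    · rw [mk_singleton]
      exact one_le_aleph0.trans hκ0
  have hκ2 : κ ≤ plus (2 ^ κ) 0 := (cantor κ).le
  have hpn : ℵ₀ ≤ plus (2 ^ κ) 0 := hκ0.trans hκ2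
  obtain ⟨γ, hγ⟩ := hL (⋃ y ∈ S0, (Prod.fst '' y.s ∪ Prod.fst '' y.E)) ⟨0, by
    refine KDelta.small_biUnion hpn _ (hS0κ.trans hκ2) _ fun y _ => ?_
    refine (KDelta.small_union hκ0 ?_ ?_).trans hκ2
    · exact mk_image_le.trans y.hs.le
    · exact mk_image_le.trans y.hE.le⟩
  have hS0γ : ∀ y ∈ S0, Cond.res γ y = y := by
    intro y hy
    ext z
    · refine ⟨fun h => h.1, fun h => ⟨h, hγ _ ?_⟩⟩
      simp only [Set.mem_iUnion]
      exact ⟨y, hy, Or.inl ⟨z, h, rfl⟩⟩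
    · refine ⟨fun h => h.1, fun h => ⟨h, hγ _ ?_⟩⟩
      simp only [Set.mem_iUnion]
      exact ⟨y, hy, Or.inr ⟨z, h, rfl⟩⟩
  obtain ⟨S', hS'0, hS'⟩ := h4 κ L R I hκ hR.size hR.ne hR.cc S.W S.good γ S0 0 hS0γ
    (hS0κ.trans hκ2)
  have hY : ∀ β, ∀ y ∈ N' β, y.2 ∈ S' := by
    intro β y hy
    refine hS'0 (Or.inl ?_)
    simp only [Set.mem_iUnion]
    exact ⟨β, y, hy, rfl⟩
  have hq : q.2 ∈ S' := hS'0 (Or.inr rfl)
  obtain ⟨n, hn⟩ := hS'.card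
  have hfr' := fresh_down hκ hR.cc hS' N' hY (q.1, ⟨q.2, hq⟩) (by
    intro γ q1 hq1
    obtain ⟨q2, hq2, b, hb⟩ := hfr γ q1 hq1
    exact ⟨q2, hq2, b, agree_congr hN'2 hb⟩)
  obtain ⟨q', hq', b', hb'⟩ := hR.fresh S' ((NW S.W S.good).sub S') n hS'.closed hS'.cc hn _ _ hfr'
  refine ⟨((q'.1, q'.2.1) : Two (NW S.W S.good)), hq', b', fun γ => ?_⟩
  have h1 : ((q'.1, q'.2.1) : Two (NW S.W S.good)) ∈ AgreeB (P := Two (NW S.W S.good)) N' γ b' :=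
    fun β hβ => ⟨fun hm => up_meets hS' (N' β) q' ((hb' γ β hβ).1 hm),
      fun hm => up_fnot hS' (N' β) (hY β) q' ((hb' γ β hβ).2 hm)⟩
  exact agree_congr (fun β q => (hN'2 β q).symm) h1

end Pool.Agent.Helper403.SZ
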