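import Mathlib
import Pool.Agent.Helper403_SZ.CDefs
import Pool.Agent.Helper669.CloneComb

set_option autoImplicit false

/-!
# The preparation: existence of a system of structures (job C0)
-/

namespace Pool.Agent.Helper403.SZ.TC0

open Cardinal Set Pool.Agent.Helper669.Forcing Pool.Agent.Helper669.K Pool.Agent.W873.Tp
open Pool.Agent.W873.Vi

variable {κ : Cardinal.{0}}

theorem lt_of_res {ξ : Ik κ} {r : Raw κ} (hr : res ξ r = r) {η : Ik κ} (h : r η ≠ none) :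
    η < ξ := by
  rw [← hr] at h
  exact (res_ne_none h).1

theorem ok_congr {W W' : Ik κ → Ik κ → St κ} {ξ : Ik κ} (h : ∀ η < ξ, W η = W' η)
    {r : Raw κ} (hr : res ξ r = r) (hok : Ok W r) : Ok W' r where
  stage := hok.stage
  bddD := hok.bddD
  bdd := hok.bdd
  code η c x hx := by
    have hη : η < ξ := lt_of_res hr (by rw [hx]; simp)
    rw [← h η hη]
    exact hok.code η c x hx

theorem le_congr {W W' : Ik κ → Ik κ → St κ} {ξ : Ik κ} (h : ∀ η < ξ, W η = W' η)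
    {r' r : Raw κ} (hr : res ξ r = r) (hle : Le W r' r) : Le W' r' r := by
  intro η c x hx
  have hη : η < ξ := lt_of_res hr (by rw [hx]; simp)
  obtain ⟨x', h1, h2⟩ := hle η c x hx
  refine ⟨x', h1, ?_⟩
  rw [← h η hη]
  exact h2

theorem vst_congr {W W' : Ik κ → Ik κ → St κ} {ξ : Ik κ} (h : ∀ η < ξ, W η = W' η)
    {σ : St κ} (hσ : VSt W ξ σ) : VSt W' ξ σ := by
  have h' : ∀ η < ξ, W' η = W η := fun η hη => (h η hη).symm
  refine ⟨hσ.ne, hσ.b_lt, hσ.card, ?_, ?_, hσ.trans, ?_, ?_, ?_⟩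
  · intro x y r hr
    obtain ⟨h1, h2, h3, h4⟩ := hσ.sub x y r hr
    exact ⟨h1, h2, ok_congr h h4 h3, h4⟩
  · intro x hx r hok hr
    exact hσ.refl x hx r (ok_congr h' hr hok) hr
  · intro x y r r' hok hr' hle hr
    exact hσ.down x y r r' (ok_congr h' hr' hok) hr'
      (le_congr h' (hσ.sub x y r hr).2.2.2 hle) hr
  · intro D hD h1 h2
    refine hσ.closed D hD (fun a ha => ?_) ?_
    · obtain ⟨h3, h4, h5⟩ := h1 a ha
      exact ⟨ok_congr h' h4 h3, h4, h5⟩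
    · intro a ha b hb t hok ht hta htb
      obtain ⟨t', h3, h4, h5, c, hc, h6, h7, h8⟩ := h2 a ha b hb t (ok_congr h ht hok) ht
        (le_congr h (h1 a ha).2.1 hta) (le_congr h (h1 b hb).2.1 htb)
      exact ⟨t', ok_congr h' h4 h3, h4, le_congr h' ht h5, c, hc,
        le_congr h' (h1 c hc).2.1 h6, h7, h8⟩
  · intro ι f hι hf
    obtain ⟨i, j, hij, t, h1, h2, h3, h4, z, hz, h5, h6⟩ := hσ.cc ι f hι
      (fun i => ⟨ok_congr h' (hf i).2.1 (hf i).1, (hf i).2⟩)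
    exact ⟨i, j, hij, t, ok_congr h h2 h1, h2, le_congr h (hf i).2.1 h3,
      le_congr h (hf j).2.1 h4, z, hz, h5, h6⟩

/-- conditions below `ξ` -/
def QQ (W : Ik κ → Ik κ → St κ) (ξ : Ik κ) : Type := {r : Raw κ // Ok W r ∧ res ξ r = r}

theorem mk_QQ_lt {W : Ik κ → Ik κ → St κ} {ξ : Ik κ} (hξ : IsD ξ) {θ : Cardinal.{0}}
    (hθ : θ.IsInaccessible) (hlt : #(Iio ξ) < θ) : #(QQ W ξ) < θ := by
  classical
  have hopt : #(Option (Iio ξ × Iio ξ)) < θ := by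
    rw [mk_option]
    exact add_lt_of_lt hθ.aleph0_lt.le (lt_prod hθ hlt hlt) (one_lt_aleph0.trans hθ.aleph0_lt)
  refine lt_of_le_of_lt ?_ (lt_fun hθ hlt hopt)
  have key : ∀ r : QQ W ξ, ∀ η : Iio ξ, ∃ o : Option (Iio ξ × Iio ξ),
      o.map (fun p => (p.1.1, p.2.1)) = r.1 η.1 := by
    intro r η
    rcases ho : r.1 η.1 with _ | ⟨c, x⟩
    · exact ⟨none, rfl⟩
    · have h1 := (r.2.1.code η.1 c x ho).1 ξ hξ η.2
      exact ⟨some (⟨c, h1.1⟩, ⟨x, h1.2⟩), rfl⟩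
  choose f hf using key
  refine mk_le_of_injective (f := f) fun r r' hrr => Subtype.ext (funext fun η => ?_)
  by_cases hη : η < ξ
  · rw [← hf r ⟨η, hη⟩, ← hf r' ⟨η, hη⟩, hrr]
  · have h1 : r.1 η = none := by
      by_contra hc
      exact hη (lt_of_res r.2.2 hc)
    have h2 : r'.1 η = none := by
      by_contra hc
      exact hη (lt_of_res r'.2.2 hc)
    rw [h1, h2]

theorem mk_fun_Iio_le {ξ : Ik κ} (hξ : IsD ξ) {A : Type} (hA : #A < #(Iio ξ)) :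
    #(A → Iio ξ) ≤ #(Iio ξ) := by
  have hb : ∀ f : A → Iio ξ, ∃ b : Iio ξ, ∀ a, (f a).1 < b.1 := fun f => by
    obtain ⟨b, hbξ, hb⟩ := hξ.bdd (range fun a => (f a).1)
      (by rintro _ ⟨a, rfl⟩; exact (f a).2) (mk_range_le.trans_lt hA)
    exact ⟨⟨b, hbξ⟩, fun a => hb _ ⟨a, rfl⟩⟩
  choose B hB using hb
  have h1 : #(A → Iio ξ) ≤ #((b : Iio ξ) × (A → Iio b.1)) := by
    refine mk_le_of_injective (f := fun f => ⟨B f, fun a => ⟨(f a).1, hB f a⟩⟩) ?_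
    intro f g h
    simp only [Sigma.mk.injEq] at h
    obtain ⟨h2, h3⟩ := h
    funext a
    have h5 : ∀ (b b' : Iio ξ) (_ : b = b') (f : A → Iio b.1) (g : A → Iio b'.1), f ≍ g →
        ∀ a, (f a : Ik κ) = g a := by
      rintro b _ rfl f g hfg a
      rw [eq_of_heq hfg]
    exact Subtype.ext (h5 _ _ h2 _ _ h3 a)
  refine h1.trans ?_
  rw [mk_sigma]
  refine (sum_le_sum _ (fun _ => #(Iio ξ)) fun b : Iio ξ =>
    (lt_fun hξ.inacc hA (hξ.init b.1 b.2)).le).trans ?_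
  rw [sum_const']
  exact (mul_eq_self hξ.inacc.aleph0_lt.le).le

/-- there are at most `|ξ|` conditions below `ξ` -/
theorem mk_QQ_le {W : Ik κ → Ik κ → St κ} {ξ : Ik κ} (hξ : IsD ξ) : #(QQ W ξ) ≤ #(Iio ξ) := by
  have hO : #(Option (Iio ξ × Iio ξ)) ≤ #(Iio ξ) := by
    rw [mk_option, mk_prod, lift_id, mul_eq_self hξ.inacc.aleph0_lt.le]
    exact add_le_of_le hξ.inacc.aleph0_lt.le le_rfl
      (one_lt_aleph0.le.trans hξ.inacc.aleph0_lt.le)
  obtain ⟨e⟩ := hO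
  have key : ∀ r : QQ W ξ, ∀ η : Iio ξ, ∃ o : Option (Iio ξ × Iio ξ),
      o.map (fun p => (p.1.1, p.2.1)) = r.1 η.1 := by
    intro r η
    rcases ho : r.1 η.1 with _ | ⟨c, x⟩
    · exact ⟨none, rfl⟩
    · have h1 := (r.2.1.code η.1 c x ho).1 ξ hξ η.2
      exact ⟨some (⟨c, h1.1⟩, ⟨x, h1.2⟩), rfl⟩
  choose o ho using key
  have hb : ∀ r : QQ W ξ, ∃ γ : Iio ξ, ∀ η < ξ, r.1 η ≠ none → η < γ.1 := fun r => by
    obtain ⟨γ, hγ, h⟩ := r.2.1.bddD ξ hξ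
    exact ⟨⟨γ, hγ⟩, h⟩
  choose γ hγ using hb
  have h1 : #(QQ W ξ) ≤ #((b : Iio ξ) × (Iio b.1 → Iio ξ)) := by
    refine mk_le_of_injective
      (f := fun r => ⟨γ r, fun η => e (o r ⟨η.1, lt_trans (mem_Iio.1 η.2) (γ r).2⟩)⟩) ?_
    intro r r' h
    simp only [Sigma.mk.injEq] at h
    obtain ⟨h2, h3⟩ := h
    have h5 : ∀ (b b' : Iio ξ) (_ : b = b') (f : Iio b.1 → Iio ξ) (g : Iio b'.1 → Iio ξ),
        f ≍ g → ∀ η (hη : η < b.1) (hη' : η < b'.1), f ⟨η, hη⟩ = g ⟨η, hη'⟩ := by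
      rintro b _ rfl f g hfg η hη hη'
      rw [eq_of_heq hfg]
    refine Subtype.ext (funext fun η => ?_)
    by_cases hη : η < (γ r).1
    · have hηξ : η < ξ := hη.trans (γ r).2
      have h6 := e.injective (h5 _ _ h2 _ _ h3 η hη (h2 ▸ hη))
      rw [← ho r ⟨η, hηξ⟩, ← ho r' ⟨η, hηξ⟩, h6]
    · have h6 : r.1 η = none := by
        by_contra hc
        exact hη (hγ r η (lt_of_res r.2.2 hc) hc)
      have h7 : r'.1 η = none := by
        by_contra hc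
        exact hη (h2 ▸ hγ r' η (lt_of_res r'.2.2 hc) hc)
      rw [h6, h7]
  refine h1.trans ?_
  rw [mk_sigma]
  refine (sum_le_sum _ (fun _ => #(Iio ξ)) fun b : Iio ξ =>
    mk_fun_Iio_le hξ (hξ.init b.1 b.2)).trans ?_
  rw [sum_const']
  exact (mul_eq_self hξ.inacc.aleph0_lt.le).le

theorem le_rfl_of {W : Ik κ → Ik κ → St κ} {ξ : Ik κ}
    (hW : ∀ η < ξ, IsD η → ∀ c, VSt W η (W η c)) {r : Raw κ} (h : Ok W r) (hr : res ξ r = r) :
    Le W r r := fun η c x hx =>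
  ⟨x, hx, (hW η (lt_of_res hr (by rw [hx]; simp)) (h.stage η (by rw [hx]; simp)) c).refl x
    (h.code η c x hx).2 _ (h.res η) (res_res _ le_rfl)⟩

/-- the set of codes below the next element of `D` -/
def CC' (ξ : Ik κ) : Set (Ik κ) := {c | ∀ d, IsD d → ξ < d → c < d}

theorem CC'_cases (hκ : κ.IsInaccessible) (ξ : Ik κ) : (#(CC' ξ)).IsInaccessible ∧
    ∀ b ∈ CC' ξ, #(Iio b) < #(CC' ξ) := by
  by_cases h : ∃ d, IsD d ∧ ξ < d
  · obtain ⟨d, ⟨hd, hξd⟩, hmin⟩ := exists_least (S := {d : Ik κ | IsD d ∧ ξ < d}) h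
    have heq : CC' ξ = Iio d := by
      ext c
      refine ⟨fun hc => hc d hd hξd, fun hc d' hd' hξd' => ?_⟩
      have h1 : d ≤ d' := by
        by_contra hcon
        exact hmin d' (not_le.1 hcon) ⟨hd', hξd'⟩
      exact lt_of_lt_of_le hc h1
    rw [heq]
    exact ⟨hd.inacc, fun b hb => hd.init b hb⟩
  · have heq : CC' ξ = Set.univ := by
      ext c
      refine ⟨fun _ => trivial, fun _ d hd hξd => absurd ⟨d, hd, hξd⟩ h⟩
    rw [heq, mk_univ, mk_ord_toType]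
    exact ⟨hκ, fun b _ => mk_IioK b⟩

theorem self_mem_CC' (ξ : Ik κ) : ξ ∈ CC' ξ := fun _ _ h => h

/-- the trivial structure -/
def triv (W : Ik κ → Ik κ → St κ) (ξ b : Ik κ) : St κ where
  b := b
  rel x y := {r | x < b ∧ y < b ∧ Ok W r ∧ res ξ r = r}

theorem vst_triv {W : Ik κ → Ik κ → St κ} {ξ : Ik κ} {b : Ik κ} (hξ : IsD ξ)
    (hW : ∀ η < ξ, IsD η → ∀ c, VSt W η (W η c))
    (hb : ∃ x, x < b) (hbξ : b ≤ ξ) : VSt W ξ (triv W ξ b) where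
  ne := hb
  b_lt d _ hξd := lt_of_le_of_lt hbξ hξd
  card := ⟨0, (mk_le_mk_of_subset (Iio_subset_Iio hbξ)).trans (cantor _).le⟩
  sub _ _ _ h := h
  refl _ hx _ hok hr := ⟨hx, hx, hok, hr⟩
  trans _ _ _ _ h h' := ⟨h.1, h'.2.1, h.2.2⟩
  down _ _ _ _ hok hr _ h := ⟨h.1, h.2.1, hok, hr⟩
  closed D _ h1 _ := by
    obtain ⟨m, hm⟩ := hb
    exact ⟨m, hm, fun a ha => ⟨hm, (h1 a ha).2.2, (h1 a ha).1, (h1 a ha).2.1⟩⟩
  cc ι f hι hf := by
    have h1 : ¬ Function.Injective (fun i => (⟨(f i).1, (hf i).1, (hf i).2.1⟩ : QQ W ξ)) :=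
      fun h => absurd ((mk_le_of_injective h).trans (mk_QQ_le hξ)) (not_le.2 hι)
    unfold Function.Injective at h1
    push Not at h1
    obtain ⟨i, j, hij, hne⟩ := h1
    have h2 : (f i).1 = (f j).1 := congrArg Subtype.val hij
    have h3 := le_rfl_of hW (hf i).1 (hf i).2.1
    exact ⟨i, j, hne, (f i).1, (hf i).1, (hf i).2.1, h3, h2 ▸ h3, (f i).2, (hf i).2.2,
      ⟨(hf i).2.2, (hf i).2.2, (hf i).1, (hf i).2.1⟩,
      ⟨(hf i).2.2, (hf j).2.2, (hf i).1, (hf i).2.1⟩⟩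

theorem mk_vst_le (hκ : κ.IsInaccessible) {W : Ik κ → Ik κ → St κ} {ξ : Ik κ} (hξ : IsD ξ) :
    #{σ : St κ // VSt W ξ σ} ≤ #(CC' ξ) := by
  classical
  obtain ⟨hin, hlt⟩ := CC'_cases hκ ξ
  have hξlt := hlt ξ (self_mem_CC' ξ)
  have hQ := mk_QQ_lt (W := W) hξ hin hξlt
  let F : {σ : St κ // VSt W ξ σ} → (b : CC' ξ) × ((Iio b.1 × Iio b.1) → Set (QQ W ξ)) :=
    fun σ => ⟨⟨σ.1.b, σ.2.b_lt⟩, fun p => {q | q.1 ∈ σ.1.rel p.1.1 p.2.1}⟩
  have hF : Function.Injective F := by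
    rintro ⟨⟨b, rel⟩, hσ⟩ ⟨⟨b', rel'⟩, hσ'⟩ h
    have hb : b = b' := congrArg (fun z => z.1.1) h
    subst hb
    have h2 := eq_of_heq (Sigma.mk.inj h).2
    refine Subtype.ext ?_
    have hrel : rel = rel' := by
      funext x y
      ext r
      have key : ∀ (R R' : Ik κ → Ik κ → Set (Raw κ)) (hR : VSt W ξ ⟨b, R⟩)
          (_ : (fun p : Iio b × Iio b => {q : QQ W ξ | q.1 ∈ R p.1.1 p.2.1}) =
            fun p : Iio b × Iio b => {q : QQ W ξ | q.1 ∈ R' p.1.1 p.2.1}),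
          r ∈ R x y → r ∈ R' x y := by
        intro R R' hR hRR hr
        obtain ⟨h3, h4, h5, h6⟩ := hR.sub x y r hr
        have h7 := congrFun hRR (⟨x, h3⟩, ⟨y, h4⟩)
        have h8 : (⟨r, h5, h6⟩ : QQ W ξ) ∈ {q : QQ W ξ | q.1 ∈ R x y} := hr
        have h9 : (⟨r, h5, h6⟩ : QQ W ξ) ∈ {q : QQ W ξ | q.1 ∈ R' x y} := by
          rw [← show {q : QQ W ξ | q.1 ∈ R x y} = {q : QQ W ξ | q.1 ∈ R' x y} from h7]
          exact h8
        exact h9
      exact ⟨key rel rel' hσ h2, key rel' rel hσ' h2.symm⟩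
    exact congrArg (St.mk b) hrel
  refine (mk_le_of_injective hF).trans ?_
  rw [mk_sigma]
  refine (sum_le_sum _ (fun _ => #(CC' ξ)) fun b => ?_).trans ?_
  · exact (lt_fun hin (lt_prod hin (hlt b.1 b.2) (hlt b.1 b.2)) (lt_set hin hQ)).le
  · rw [sum_const']
    exact (mul_eq_self hin.aleph0_lt.le).le

theorem jobC0 : StmtC0 := by
  intro κ hκ
  classical
  obtain ⟨z⟩ : Nonempty (Ik κ) := by
    rw [← mk_ne_zero_iff, mk_ord_toType]
    exact hκ.ne_zero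
  have : Inhabited (Ik κ → St κ) := ⟨fun _ => ⟨z, fun _ _ => ∅⟩⟩
  obtain ⟨W, hW⟩ := Pool.Agent.Helper669.CloneComb.exists_rec (I := Ik κ) (S := Ik κ → St κ)
    (fun ξ W s => (∀ η < ξ, IsD η → ∀ c, VSt W η (W η c)) → IsD ξ → (∀ c, VSt W ξ (s c)) ∧
      ∀ σ, VSt W ξ σ → ∃ c, (∀ d, IsD d → ξ < d → c < d) ∧ s c = σ)
    (by
      intro ξ W W' s hWW h hpre hξ
      have hpre' : ∀ η < ξ, IsD η → ∀ c, VSt W η (W η c) := by
        intro η hη hD c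
        rw [hWW η hη]
        exact vst_congr (fun η' hη' => (hWW η' (hη'.trans hη)).symm) (hpre η hη hD c)
      obtain ⟨h1, h2⟩ := h hpre' hξ
      refine ⟨fun c => vst_congr hWW (h1 c), fun σ hσ => h2 σ ?_⟩
      exact vst_congr (fun η hη => (hWW η hη).symm) hσ)
    (by
      intro ξ W
      by_cases hpre : ∀ η < ξ, IsD η → ∀ c, VSt W η (W η c)
      swap
      · exact ⟨default, fun h => absurd h hpre⟩
      by_cases hξ : IsD ξ
      · obtain ⟨b, hbξ⟩ : ∃ b, b < ξ := by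
          obtain ⟨c, hc, _⟩ := hξ.bdd ∅ (fun _ h => h.elim) (by
            rw [mk_eq_zero]
            exact hξ.inacc.pos)
          exact ⟨c, hc⟩
        have h0 := vst_triv (W := W) (ξ := ξ) (b := ξ) hξ hpre ⟨b, hbξ⟩ le_rfl
        obtain ⟨ι⟩ : #{σ : St κ // VSt W ξ σ} ≤ #(CC' ξ) := mk_vst_le hκ hξ
        refine ⟨fun c => if h : ∃ σ : {σ : St κ // VSt W ξ σ}, (ι σ).1 = c then h.choose.1
          else triv W ξ ξ, fun _ _ => ⟨fun c => ?_, fun σ hσ => ?_⟩⟩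
        · dsimp only
          split_ifs with h
          · exact h.choose.2
          · exact h0
        · refine ⟨(ι ⟨σ, hσ⟩).1, (ι ⟨σ, hσ⟩).2, ?_⟩
          have h : ∃ σ' : {σ : St κ // VSt W ξ σ}, (ι σ').1 = (ι ⟨σ, hσ⟩).1 := ⟨_, rfl⟩
          dsimp only
          rw [dif_pos h]
          have h1 := ι.injective (Subtype.ext h.choose_spec)
          exact congrArg Subtype.val h1
      · exact ⟨default, fun _ h => absurd h hξ⟩)
  have hall : ∀ ξ, IsD ξ → ∀ c, VSt W ξ (W ξ c) := by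
    intro ξ
    induction ξ using WellFoundedLT.induction with
    | ind ξ ih => exact fun hξ => (hW ξ ih hξ).1
  exact ⟨⟨W, hall, fun ξ hξ => (hW ξ (fun η _ hD => hall η hD) hξ).2⟩⟩

end Pool.Agent.Helper403.SZ.TC0
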