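import Mathlib
import Pool.Agent.Helper403_SZ.CBasic

set_option autoImplicit false

/-!
# Job C1: tail closure of the preparation
-/

namespace Pool.Agent.Helper403.SZ

open Cardinal Set Pool.Agent.Helper669.Forcing Pool.Agent.Helper669.K Pool.Agent.W873.Tp
open Pool.Agent.W873.Vi

namespace TC1

variable {κ : Cardinal.{0}}

/-- recursion along the order of stages -/
theorem exists_rec (P : Ik κ → Raw κ → Option (Ik κ × Ik κ) → Prop) :
    ∃ G : Raw κ, ∀ ξ, (∃ v, P ξ (SZ.res ξ G) v) → P ξ (SZ.res ξ G) (G ξ) := by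
  classical
  let F : (ξ : Ik κ) → ((η : Ik κ) → η < ξ → Option (Ik κ × Ik κ)) → Option (Ik κ × Ik κ) :=
    fun ξ ih => if h : ∃ v, P ξ (fun η => if hη : η < ξ then ih η hη else none) v then
      h.choose else none
  let G : Raw κ := WellFounded.fix (wellFounded_lt (α := Ik κ)) F
  have hG : ∀ ξ, G ξ = F ξ fun η _ => G η := fun ξ => WellFounded.fix_eq _ F ξ
  refine ⟨G, fun ξ hv => ?_⟩
  have h1 : (fun η => if _ : η < ξ then G η else none) = SZ.res ξ G := by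
    funext η
    by_cases hη : η < ξ
    · rw [dif_pos hη, res_of_lt _ hη]
    · rw [dif_neg hη, res_of_le _ (not_lt.1 hη)]
  have h2 : G ξ = if h : ∃ v, P ξ (SZ.res ξ G) v then h.choose else none := by
    rw [hG ξ]
    simp only [F, h1]
  rw [h2, dif_pos hv]
  exact hv.choose_spec

variable (S : Sys κ) {Θ : Type} (N : NOrd S.RR Θ) (α : Ik κ) (D0 : Set (S.RR × Two N))

/-- the requirement on the value `v` at `ξ`, where `g0` is the part below `ξ` -/
def PP (ξ : Ik κ) (g0 : Raw κ) (v : Option (Ik κ × Ik κ)) : Prop :=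
  (v ≠ none → α < ξ ∧ ∃ a ∈ D0, a.2.1.1 ξ ≠ none) ∧
  (α < ξ → ∀ a ∈ D0, ∀ c x, a.2.1.1 ξ = some (c, x) → ∃ y, v = some (c, y) ∧ y < (S.W ξ c).b ∧
    SZ.res ξ (Sys.catRaw α a.1.1 g0) ∈ (S.W ξ c).rel y x)

variable {S N α D0}

/-- bounded approximations are conditions -/
theorem ok_of {μ : Cardinal.{0}} (hκ : κ.IsInaccessible)
    (hμ : ∀ d, IsD d → α < d → μ ≤ #(Iio d)) (hμκ : μ ≤ κ) (hD0 : #D0 < μ) (G : Raw κ)
    (hG : ∀ ξ, G ξ ≠ none → α < ξ ∧ ∃ a ∈ D0, ∃ c x, a.2.1.1 ξ = some (c, x) ∧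
      ∃ y, G ξ = some (c, y) ∧ y < (S.W ξ c).b) : Ok S.W G where
  stage ξ h := by
    obtain ⟨_, a, _, c, x, h1, _⟩ := hG ξ h
    exact a.2.1.2.stage ξ (by rw [h1]; simp)
  bddD d hd := by
    rcases le_or_gt d α with h | h
    · obtain ⟨c, hc⟩ := hd.exists_lt
      exact ⟨c, hc, fun ξ hξ h1 => absurd ((hG ξ h1).1.trans hξ) (not_lt.2 h)⟩
    · choose f hf1 hf2 using fun a : D0 => a.1.2.1.2.bddD d hd
      obtain ⟨c, hc, hc'⟩ := hd.bdd (Set.range f) (by
        rintro _ ⟨a, rfl⟩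
        exact hf1 a) (mk_range_le.trans_lt (hD0.trans_le (hμ d hd h)))
      refine ⟨c, hc, fun ξ hξ h1 => ?_⟩
      obtain ⟨_, a, ha, c', x, h2, _⟩ := hG ξ h1
      exact (hf2 ⟨a, ha⟩ ξ hξ (by rw [h2]; simp)).trans (hc' _ ⟨⟨a, ha⟩, rfl⟩)
  bdd := by
    choose f hf using fun a : D0 => a.1.2.1.2.bdd
    obtain ⟨c, hc⟩ := bdd_of_lt hκ.isRegular (Set.range f)
      (mk_range_le.trans_lt (hD0.trans_le hμκ))
    refine ⟨c, fun ξ h1 => ?_⟩
    obtain ⟨_, a, ha, c', x, h2, _⟩ := hG ξ h1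
    exact (hf ⟨a, ha⟩ ξ (by rw [h2]; simp)).trans (hc _ ⟨⟨a, ha⟩, rfl⟩)
  code ξ c y h := by
    obtain ⟨_, a, _, c', x, h1, y', h2, h3⟩ := hG ξ (by rw [h]; simp)
    rw [h] at h2
    simp only [Option.some.injEq, Prod.mk.injEq] at h2
    obtain ⟨rfl, rfl⟩ := h2
    refine ⟨fun d hd hξ => ⟨((a.2.1.2.code ξ _ _ h1).1 d hd hξ).1, ?_⟩, h3⟩
    exact h3.trans ((S.val' a.2.1.2 h1).b_lt d hd hξ)

/-- if `g` satisfies the requirements below `ξ` then it is below the `g_a` there -/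
theorem le_of_PP (g : S.RR) (ξ : Ik κ) (hg : ∀ η < ξ, PP S N α D0 η (SZ.res η g.1) (g.1 η))
    {a : S.RR × Two N} (ha : a ∈ D0) {t : S.RR} (ht : t ≤ a.1) :
    ∀ η < ξ, ∀ c x, (S.cat α t a.2.1).1 η = some (c, x) →
      ∃ x', (S.cat α t g).1 η = some (c, x') ∧
        SZ.res η (S.cat α t g).1 ∈ (S.W η c).rel x' x := by
  intro η hη c x hx
  rcases le_or_gt η α with h | h
  · refine ⟨x, ?_, ?_⟩
    · rw [Sys.cat_apply_of_le _ _ h] at hx ⊢
      exact hx
    · rw [Sys.cat_apply_of_le _ _ h] at hx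
      rw [Sys.res_cat _ _ h]
      exact S.le_refl' t.2 hx
  · rw [Sys.cat_apply_of_lt _ _ h] at hx
    obtain ⟨y, h1, h2, h3⟩ := (hg η hη).2 h a ha c x hx
    refine ⟨y, ?_, ?_⟩
    · rw [Sys.cat_apply_of_lt _ _ h]
      exact h1
    · refine (S.val' a.2.1.2 hx).down _ _ _ _ ((S.cat α t g).2.res η) (res_res _ le_rfl) ?_ h3
      have h4 : SZ.res η (Sys.catRaw α a.1.1 (SZ.res η g.1)) = SZ.res η (S.cat α a.1 g).1 := by
        funext ζ
        by_cases hζ : ζ < η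
        · rw [res_of_lt _ hζ, res_of_lt _ hζ]
          rcases le_or_gt ζ α with h5 | h5
          · rw [Sys.catRaw_of_le _ _ h5, Sys.cat_apply_of_le _ _ h5]
          · rw [Sys.catRaw_of_lt _ _ h5, Sys.cat_apply_of_lt _ _ h5, res_of_lt _ hζ]
        · rw [res_of_le _ (not_lt.1 hζ), res_of_le _ (not_lt.1 hζ)]
      rw [h4]
      exact Le.res (Sys.cat_mono_left ht g) η

theorem main (hκ : κ.IsInaccessible) (hN : NClosed κ N) {μ : Cardinal.{0}}
    (hμ : ∀ d, IsD d → α < d → μ ≤ #(Iio d)) (hμκ : μ ≤ κ) (hD0 : #D0 < μ)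
    (hlow : ∀ a ∈ D0, S.Low α a.1)
    (hcons : ∀ a ∈ D0, ∀ b ∈ D0, S.Cons α a.2.1 b.2.1)
    (hdir : ∀ a ∈ D0, ∀ b ∈ D0, ∀ t, S.Low α t → t ≤ a.1 → t ≤ b.1 → ∃ t', S.Low α t' ∧ t' ≤ t ∧
      ∃ c ∈ D0, t' ≤ c.1 ∧ S.catT N α t' c.2 ≤ S.catT N α t' a.2 ∧
        S.catT N α t' c.2 ≤ S.catT N α t' b.2) :
    ∃ g : Two N, ∀ a ∈ D0, S.catT N α a.1 g ≤ S.catT N α a.1 a.2 := by
  classical
  obtain ⟨G, hG⟩ := exists_rec (κ := κ) (PP S N α D0)
  -- codes
  have hPP : ∀ ξ, PP S N α D0 ξ (SZ.res ξ G) (G ξ) := by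
    intro ξ
    induction ξ using WellFoundedLT.induction with
    | ind ξ ih =>
      have hok : Ok S.W (SZ.res ξ G) := by
        refine ok_of hκ hμ hμκ hD0 _ fun η hη => ?_
        obtain ⟨h1, h2⟩ := res_ne_none hη
        obtain ⟨h3, a, ha, h4⟩ := (ih η h1).1 h2
        refine ⟨h3, a, ha, ?_⟩
        obtain ⟨⟨c, x⟩, hcx⟩ := Option.ne_none_iff_exists'.1 h4
        obtain ⟨y, h5, h6, _⟩ := (ih η h1).2 h3 a ha c x hcx
        exact ⟨c, x, hcx, y, by rw [res_of_lt _ h1]; exact h5, h6⟩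
      refine hG ξ ?_
      by_cases hex : α < ξ ∧ ∃ a ∈ D0, a.2.1.1 ξ ≠ none
      swap
      · refine ⟨none, fun h => absurd rfl h, fun h a ha c x hx => ?_⟩
        exact absurd ⟨h, a, ha, by rw [hx]; simp⟩ hex
      obtain ⟨hαξ, a0, ha0, h0⟩ := hex
      obtain ⟨⟨c, x0⟩, hcx⟩ := Option.ne_none_iff_exists'.1 h0
      have hξD : IsD ξ := a0.2.1.2.stage ξ h0
      let gξ : S.RR := ⟨SZ.res ξ G, hok⟩
      have hgξ : ∀ η < ξ, PP S N α D0 η (SZ.res η gξ.1) (gξ.1 η) := by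
        intro η hη
        have h1 := ih η hη
        rw [show gξ.1 η = G η from res_of_lt _ hη, show SZ.res η gξ.1 = SZ.res η G from
          res_res _ hη.le]
        exact h1
      -- everything is restricted to `ξ`
      have hresc : ∀ t : S.RR, S.Low α t → ∀ g : S.RR, SZ.res ξ g.1 = g.1 →
          SZ.res ξ (S.cat α t g).1 = (S.cat α t g).1 := by
        intro t ht g hg
        funext η
        by_cases hη : η < ξ
        · rw [res_of_lt _ hη]
        · rw [res_of_le _ (not_lt.1 hη), Sys.cat_apply_of_lt _ _ (hαξ.trans_le (not_lt.1 hη)), ← hg,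
            res_of_le _ (not_lt.1 hη)]
      have hgres : SZ.res ξ gξ.1 = gξ.1 := res_res _ le_rfl
      obtain ⟨m, hm, hm'⟩ := (S.val ξ hξD c).closed
        {z | ∃ a ∈ D0, ∃ x, a.2.1.1 ξ = some (c, x) ∧ z = ((S.cat α a.1 gξ).1, x)} (by
          refine lt_of_le_of_lt ?_ (hD0.trans_le (hμ ξ hξD hαξ))
          let f : D0 → Raw κ × Ik κ := fun a =>
            ((S.cat α a.1.1 gξ).1, ((a.1.2.1.1 ξ).getD (c, c)).2)
          refine (mk_le_mk_of_subset (t := Set.range f) ?_).trans mk_range_le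
          rintro _ ⟨a, ha, x, hx, rfl⟩
          refine ⟨⟨a, ha⟩, ?_⟩
          simp only [f, hx, Option.getD_some])
        (by
          rintro _ ⟨a, ha, x, hx, rfl⟩
          exact ⟨(S.cat α a.1 gξ).2, hresc _ (hlow a ha) _ hgres, (a.2.1.2.code ξ c x hx).2⟩)
        (by
          rintro _ ⟨a, ha, x, hx, rfl⟩ _ ⟨b, hb, x', hx', rfl⟩ t ht htres hta htb
          let t0 : S.RR := ⟨t, ht⟩
          have hta' : t0 ≤ S.cat α a.1 gξ := hta
          have htb' : t0 ≤ S.cat α b.1 gξ := htb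
          have h1 : ∀ a ∈ D0, t0 ≤ S.cat α a.1 gξ → S.low hκ α t0 ≤ a.1 := fun a ha h =>
            Sys.low_mono hκ h |>.trans (by
              have h2 : S.low hκ α (S.cat α a.1 gξ) = a.1 := by
                rw [← Sys.low_eq hκ (hlow a ha)]
                refine Subtype.ext (funext fun η => ?_)
                rcases le_or_gt η α with h | h
                · rw [Sys.low_apply hκ _ h, Sys.cat_apply_of_le _ _ h]
                · have h3 : ∀ g : S.RR, (S.low hκ α g).1 η = none := fun g => by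
                    by_contra hc
                    exact absurd (Sys.low_low hκ α g η hc) (not_le.2 h)
                  rw [h3]
                  rw [h3]
              rw [h2])
          obtain ⟨t1, ht1l, ht1, d, hd, h4, h5, h6⟩ := hdir a ha b hb (S.low hκ α t0)
            (Sys.low_low hκ α t0) (h1 a ha hta') (h1 b hb htb')
          have h7 : S.cat α t1 t0 ≤ t0 := Sys.cat_le_right hκ ht1
          have h8 : S.cat α t1 t0 ≤ S.cat α t1 gξ := Sys.cat_le_cat hκ hta' ht1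
          have h9 : S.cat α t1 gξ ≤ S.cat α d.1 gξ := Sys.cat_mono_left h4 gξ
          have h10 : Le S.W (SZ.res ξ (S.cat α t1 gξ).1) (SZ.res ξ (S.cat α t1 d.2.1).1) := by
            intro η c' z hz
            obtain ⟨hη, hz⟩ := res_eq_some.1 hz
            obtain ⟨z', h11, h12⟩ := le_of_PP gξ ξ hgξ hd h4 η hη c' z hz
            exact ⟨z', res_eq_some.2 ⟨hη, h11⟩, by rw [res_res _ hη.le]; exact h12⟩
          have h11 : Le S.W (S.cat α t1 t0).1 (SZ.res ξ (S.cat α t1 d.2.1).1) := by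
            have h12 := Le.res h8 ξ
            rw [hresc t1 ht1l t0 htres] at h12
            exact S.le_trans ((S.cat α t1 d.2.1).2.res ξ) (S.cat α t1 t0).2 h12 h10
          obtain ⟨x3, hx3, h13⟩ := h5.1 ξ c x (by
            rw [show (S.catT N α t1 a.2).1 = S.cat α t1 a.2.1 from rfl,
              Sys.cat_apply_of_lt _ _ hαξ]
            exact hx)
          obtain ⟨x3', hx3', h14⟩ := h6.1 ξ c x' (by
            rw [show (S.catT N α t1 b.2).1 = S.cat α t1 b.2.1 from rfl,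
              Sys.cat_apply_of_lt _ _ hαξ]
            exact hx')
          have h15 : x3' = x3 := by
            rw [hx3] at hx3'
            simp only [Option.some.injEq, Prod.mk.injEq, true_and] at hx3'
            exact hx3'.symm
          subst h15
          have hx4 : d.2.1.1 ξ = some (c, x3') := by
            rw [← hx3']
            exact (Sys.cat_apply_of_lt _ _ hαξ).symm
          refine ⟨(S.cat α t1 t0).1, (S.cat α t1 t0).2, hresc t1 ht1l t0 htres, h7, _,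
            ⟨d, hd, x3', hx4, rfl⟩, h8.trans h9, ?_, ?_⟩
          · exact (S.val ξ hξD c).down _ _ _ _ (S.cat α t1 t0).2 (hresc t1 ht1l t0 htres) h11 h13
          · exact (S.val ξ hξD c).down _ _ _ _ (S.cat α t1 t0).2 (hresc t1 ht1l t0 htres) h11 h14)
      refine ⟨some (c, m), fun _ => ⟨hαξ, a0, ha0, h0⟩, fun _ a ha c' x hx => ?_⟩
      have hc : c = c' := hcons a0 ha0 a ha ξ hαξ c x0 c' x hcx hx
      subst hc
      refine ⟨m, rfl, hm, ?_⟩
      have h1 := hm' _ ⟨a, ha, x, hx, rfl⟩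
      have h2 : SZ.res ξ (S.cat α a.1 gξ).1 = (S.cat α a.1 gξ).1 := hresc _ (hlow a ha) _ hgres
      rw [← h2] at h1
      exact h1
  have hok : Ok S.W G := by
    refine ok_of hκ hμ hμκ hD0 _ fun η hη => ?_
    obtain ⟨h3, a, ha, h4⟩ := (hPP η).1 hη
    refine ⟨h3, a, ha, ?_⟩
    obtain ⟨⟨c, x⟩, hcx⟩ := Option.ne_none_iff_exists'.1 h4
    obtain ⟨y, h5, h6, _⟩ := (hPP η).2 h3 a ha c x hcx
    exact ⟨c, x, hcx, y, h5, h6⟩
  let g : S.RR := ⟨G, hok⟩
  have hle : ∀ a ∈ D0, ∀ t ≤ a.1, S.cat α t g ≤ S.cat α t a.2.1 := by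
    intro a ha t ht η c x hx
    obtain ⟨η', hη'⟩ := exists_gt_Ik hκ η
    exact le_of_PP g η' (fun η _ => hPP η) ha ht η hη' c x hx
  obtain ⟨m, hm⟩ := hN {z | ∃ a ∈ D0, z = (S.cat α a.1 g, a.2.2)} (by
      refine lt_of_le_of_lt ?_ (hD0.trans_le hμκ)
      let f : D0 → S.RR × Θ := fun a => (S.cat α a.1.1 g, a.1.2.2)
      refine (mk_le_mk_of_subset (t := Set.range f) ?_).trans mk_range_le
      rintro _ ⟨a, ha, rfl⟩
      exact ⟨⟨a, ha⟩, rfl⟩)
    (by
      rintro _ ⟨a, ha, rfl⟩ _ ⟨b, hb, rfl⟩ t hta htb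
      have h1 : ∀ a ∈ D0, t ≤ S.cat α a.1 g → S.low hκ α t ≤ a.1 := fun a ha h =>
        Sys.low_mono hκ h |>.trans (by
          have h2 : S.low hκ α (S.cat α a.1 g) = a.1 := by
            rw [← Sys.low_eq hκ (hlow a ha)]
            refine Subtype.ext (funext fun η => ?_)
            rcases le_or_gt η α with h | h
            · rw [Sys.low_apply hκ _ h, Sys.cat_apply_of_le _ _ h]
            · have h3 : ∀ g : S.RR, (S.low hκ α g).1 η = none := fun g => by
                by_contra hc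
                exact absurd (Sys.low_low hκ α g η hc) (not_le.2 h)
              rw [h3]
              rw [h3]
          rw [h2])
      obtain ⟨t1, ht1l, ht1, d, hd, h4, h5, h6⟩ := hdir a ha b hb (S.low hκ α t)
        (Sys.low_low hκ α t) (h1 a ha hta) (h1 b hb htb)
      have h7 : S.cat α t1 t ≤ t := Sys.cat_le_right hκ ht1
      have h8 : S.cat α t1 t ≤ S.cat α t1 g := Sys.cat_le_cat hκ hta ht1
      have h9 : S.cat α t1 g ≤ S.cat α d.1 g := Sys.cat_mono_left h4 g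
      have h10 : S.cat α t1 g ≤ S.cat α t1 d.2.1 := hle d hd t1 h4
      exact ⟨S.cat α t1 t, h7, _, ⟨d, hd, rfl⟩, h8.trans h9,
        N.down _ _ _ h5.2 _ (h8.trans h10), N.down _ _ _ h6.2 _ (h8.trans h10)⟩)
  exact ⟨(g, m), fun a ha => ⟨hle a ha a.1 le_rfl, hm _ ⟨a, ha, rfl⟩⟩⟩

end TC1

/-- job C1 -/
theorem jobC1 : StmtC1 := fun _ hκ _ _ _ hN _ _ hμ hμκ _ hD0 hlow hcons hdir =>
  TC1.main hκ hN hμ hμκ hD0 hlow hcons hdir

end Pool.Agent.Helper403.SZ
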