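import Mathlib
import Pool.Agent.Helper403_SZ.CBasic
import Pool.Agent.Helper403_SZ.PlusPow

set_option autoImplicit false

/-!
# Job C4: countable closure and small power sets after the preparation
-/

namespace Pool.Agent.Helper403.SZ

open Cardinal Set Pool.Agent.Helper669.Forcing Pool.Agent.Helper669.K Pool.Agent.W873.Tp
open Pool.Agent.W873.Vi

namespace TC4

variable {κ : Cardinal.{0}}

/-- the least stage -/
theorem exists_bot (hκ : κ.IsInaccessible) : ∃ a : Ik κ, ∀ b : Ik κ, a ≤ b := by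
  obtain ⟨a0⟩ := nonempty_Ik hκ
  obtain ⟨a, -, ha⟩ := WellFounded.has_min (wellFounded_lt (α := Ik κ)) Set.univ ⟨a0, trivial⟩
  exact ⟨a, fun b => not_lt.1 (ha b trivial)⟩

theorem not_isD_bot {a : Ik κ} (ha : ∀ b : Ik κ, a ≤ b) : ¬ IsD a := fun h => by
  obtain ⟨c, hc⟩ := h.exists_lt
  exact absurd hc (not_lt.2 (ha c))

theorem cat_bot {S : Sys κ} {α : Ik κ} (hα : ∀ b : Ik κ, α ≤ b) (a g : S.RR) :
    S.cat α a g = g := by
  refine Subtype.ext (funext fun ξ => ?_)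
  rcases le_or_gt ξ α with h | h
  · rw [Sys.cat_apply_of_le _ _ h]
    have h1 : ∀ g : S.RR, g.1 ξ = none := fun g => by
      by_contra hc
      have h2 := g.2.stage ξ hc
      have h3 : ξ = α := le_antisymm h (hα ξ)
      rw [h3] at h2
      exact not_isD_bot hα h2
    rw [h1 a, h1 g]
  · exact Sys.cat_apply_of_lt _ _ h

theorem dirClosed (h1 : StmtC1) (hκ : κ.IsInaccessible) (S : Sys κ) {Θ : Type}
    (N : NOrd S.RR Θ) (hN : NClosed κ N) : DirClosed ℵ₁ (Two N) := by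
  intro D hD hne hdir
  obtain ⟨α, hα⟩ := exists_bot hκ
  have hbot : ∀ (t : S.RR) (g : Two N), S.catT N α t g = g := fun t g =>
    Prod.ext (cat_bot hα t g.1) rfl
  obtain ⟨g, hg⟩ := h1 κ hκ S Θ N hN α ℵ₁ (fun d hd _ => by
      rw [← succ_aleph0]
      exact Order.succ_le_of_lt hd.aleph0_lt)
    (by
      rw [← succ_aleph0]
      exact Order.succ_le_of_lt hκ.1)
    ((fun g => (S.top hκ, g)) '' D) (mk_image_le.trans_lt hD)
    (by
      rintro _ ⟨g, hg, rfl⟩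
      exact S.low_top hκ α)
    (by
      rintro _ ⟨g, hg, rfl⟩ _ ⟨g', hg', rfl⟩ ξ _ c x c' x' hx hx'
      obtain ⟨g2, hg2, h2, h3⟩ := hdir g hg g' hg'
      obtain ⟨y, h4, _⟩ := h2.1 ξ c x hx
      obtain ⟨y', h5, _⟩ := h3.1 ξ c' x' hx'
      rw [h4] at h5
      simp only [Option.some.injEq, Prod.mk.injEq] at h5
      exact h5.1)
    (by
      rintro _ ⟨g, hg, rfl⟩ _ ⟨g', hg', rfl⟩ t ht h2 _
      obtain ⟨g2, hg2, h3, h4⟩ := hdir g hg g' hg'
      refine ⟨t, ht, le_rfl, _, ⟨g2, hg2, rfl⟩, h2, ?_, ?_⟩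
      · rw [hbot, hbot]
        exact h3
      · rw [hbot, hbot]
        exact h4)
  refine ⟨g, fun a ha => ?_⟩
  have h2 := hg _ ⟨a, ha, rfl⟩
  rw [hbot, hbot] at h2
  exact h2

/-- a condition can be extended so that its domain contains `δ` -/
theorem exists_ext (hκ : κ.IsInaccessible) (S : Sys κ) {δ : Ik κ} (hδ : IsD δ) (r : S.RR) :
    ∃ r' ≤ r, r'.1 δ ≠ none := by
  classical
  by_cases h0 : r.1 δ = none
  swap
  · exact ⟨r, le_rfl, h0⟩
  obtain ⟨o, ho⟩ := exists_bot hκ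
  have hval := S.val δ hδ o
  have hne : o < (S.W δ o).b := by
    obtain ⟨x, hx⟩ := hval.ne
    exact (ho x).trans_lt hx
  have hap : ∀ ξ, ξ ≠ δ → Function.update r.1 δ (some (o, o)) ξ = r.1 ξ := fun ξ h =>
    Function.update_of_ne h _ _
  have hok : Ok S.W (Function.update r.1 δ (some (o, o))) := by
    refine ⟨fun ξ hξ => ?_, fun d hd => ?_, ?_, fun ξ c x hx => ?_⟩
    · by_cases h : ξ = δ
      · rw [h]
        exact hδ
      · rw [hap ξ h] at hξ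
        exact r.2.stage ξ hξ
    · obtain ⟨γ, hγ, h1⟩ := r.2.bddD d hd
      by_cases hδd : δ < d
      · obtain ⟨γ', hγ', h2⟩ := hd.exists_between hδd
        refine ⟨max γ γ', max_lt hγ hγ', fun ξ hξ h3 => ?_⟩
        by_cases h : ξ = δ
        · rw [h]
          exact h2.trans_le (le_max_right _ _)
        · rw [hap ξ h] at h3
          exact (h1 ξ hξ h3).trans_le (le_max_left _ _)
      · refine ⟨γ, hγ, fun ξ hξ h3 => ?_⟩
        by_cases h : ξ = δ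
        · rw [h] at hξ
          exact absurd hξ hδd
        · rw [hap ξ h] at h3
          exact h1 ξ hξ h3
    · obtain ⟨γ, h1⟩ := r.2.bdd
      obtain ⟨γ', h2⟩ := exists_gt_Ik hκ δ
      refine ⟨max γ γ', fun ξ h3 => ?_⟩
      by_cases h : ξ = δ
      · rw [h]
        exact h2.trans_le (le_max_right _ _)
      · rw [hap ξ h] at h3
        exact (h1 ξ h3).trans_le (le_max_left _ _)
    · by_cases h : ξ = δ
      · subst h
        rw [Function.update_self] at hx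
        simp only [Option.some.injEq, Prod.mk.injEq] at hx
        obtain ⟨rfl, rfl⟩ := hx
        exact ⟨fun d hd hξ => ⟨(ho _).trans_lt hξ, (ho _).trans_lt hξ⟩, hne⟩
      · rw [hap ξ h] at hx
        exact r.2.code ξ c x hx
  refine ⟨⟨_, hok⟩, ?_, ?_⟩
  · intro ξ c x hx
    have h : ξ ≠ δ := fun h => by
      rw [h, h0] at hx
      simp at hx
    have hx' : Function.update r.1 δ (some (o, o)) ξ = some (c, x) := by rw [hap ξ h, hx]
    exact ⟨x, hx', S.le_refl' hok hx'⟩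
  · simp

/-- a set of conditions living on `[0, γ]` with a fixed code at `γ` is small -/
theorem mk_le_of {S : Sys κ} {γ : Ik κ} (hγ : IsD γ) (A : Set S.RR) (c0 : Ik κ) (n : ℕ)
    (hB : #(Iio (S.W γ c0).b) ≤ plus (2 ^ #(Iio γ)) n)
    (hlow : ∀ a ∈ A, S.Low γ a) (hval : ∀ a ∈ A, ∃ x, a.1 γ = some (c0, x)) :
    #A ≤ plus (2 ^ #(Iio γ)) n := by
  classical
  have hg : ℵ₀ ≤ #(Iio γ) := hγ.aleph0_lt.le
  have hex : ∀ a : A, ∀ ξ : Iio γ, ∃ y : Option (Iio γ × Iio γ),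
      a.1.1 ξ.1 = y.map fun z => (z.1.1, z.2.1) := by
    intro a ξ
    by_cases h2 : a.1.1 ξ.1 = none
    · exact ⟨none, h2⟩
    · obtain ⟨⟨c, x⟩, hcx⟩ := Option.ne_none_iff_exists'.1 h2
      obtain ⟨h3, h4⟩ := (a.1.2.code _ c x hcx).1 γ hγ ξ.2
      exact ⟨some (⟨c, h3⟩, ⟨x, h4⟩), hcx⟩
  choose f hf using hex
  have hex2 : ∀ a : A, ∃ x : Iio (S.W γ c0).b, a.1.1 γ = some (c0, x.1) := by
    intro a
    obtain ⟨x, hx⟩ := hval a.1 a.2
    exact ⟨⟨x, (a.1.2.code _ c0 x hx).2⟩, hx⟩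
  choose e he using hex2
  have hinj : Function.Injective (fun a : A => (f a, e a)) := by
    intro a b hab
    simp only [Prod.mk.injEq] at hab
    refine Subtype.ext (Subtype.ext (funext fun ξ => ?_))
    rcases lt_trichotomy ξ γ with h | h | h
    · rw [hf a ⟨ξ, h⟩, hf b ⟨ξ, h⟩, hab.1]
    · rw [h, he a, he b, hab.2]
    · have h1 : ∀ a : A, a.1.1 ξ = none := fun a => by
        by_contra hc
        exact absurd (hlow a.1 a.2 ξ hc) (not_le.2 h)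
      rw [h1 a, h1 b]
  refine (mk_le_of_injective hinj).trans ?_
  rw [mk_prod, mk_arrow, lift_id, lift_id, lift_id, lift_id, mk_option, mk_prod, lift_id,
    mul_eq_self hg, add_one_eq hg, power_self_eq hg]
  have h1 : ℵ₀ ≤ plus (2 ^ #(Iio γ)) n := hg.trans ((cantor _).le.trans (le_plus _ n))
  calc (2 : Cardinal) ^ #(Iio γ) * #(Iio (S.W γ c0).b)
      ≤ plus (2 ^ #(Iio γ)) n * plus (2 ^ #(Iio γ)) n := mul_le_mul' (le_plus _ n) hB
    _ = plus (2 ^ #(Iio γ)) n := mul_eq_self h1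

/-- `t` below `γ` and `(c, z)` at `γ` -/
theorem exists_glue (hκ : κ.IsInaccessible) (S : Sys κ) {γ : Ik κ} (hγ : IsD γ) {c0 : Ik κ}
    {a b : S.RR} (ha : S.Low γ a) (hb : S.Low γ b) {x y : Ik κ} (hax : a.1 γ = some (c0, x))
    (hby : b.1 γ = some (c0, y)) {t : Raw κ} (ht : Ok S.W t) (htr : SZ.res γ t = t)
    (h1 : Le S.W t (SZ.res γ a.1)) (h2 : Le S.W t (SZ.res γ b.1)) {z : Ik κ}
    (hz : z < (S.W γ c0).b)
    (h3 : t ∈ (S.W γ c0).rel z x) (h4 : t ∈ (S.W γ c0).rel z y) :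
    ∃ w : S.RR, w ≤ a ∧ w ≤ b := by
  classical
  have hap : ∀ ξ, ξ ≠ γ → Function.update t γ (some (c0, z)) ξ = t ξ := fun ξ h =>
    Function.update_of_ne h _ _
  have hok : Ok S.W (Function.update t γ (some (c0, z))) := by
    refine ⟨fun ξ hξ => ?_, fun d hd => ?_, ?_, fun ξ c x hx => ?_⟩
    · by_cases h : ξ = γ
      · rw [h]
        exact hγ
      · rw [hap ξ h] at hξ
        exact ht.stage ξ hξ
    · obtain ⟨γ1, hγ1, h5⟩ := ht.bddD d hd
      by_cases hδd : γ < d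
      · obtain ⟨γ', hγ', h6⟩ := hd.exists_between hδd
        refine ⟨max γ1 γ', max_lt hγ1 hγ', fun ξ hξ h7 => ?_⟩
        by_cases h : ξ = γ
        · rw [h]
          exact h6.trans_le (le_max_right _ _)
        · rw [hap ξ h] at h7
          exact (h5 ξ hξ h7).trans_le (le_max_left _ _)
      · refine ⟨γ1, hγ1, fun ξ hξ h7 => ?_⟩
        by_cases h : ξ = γ
        · rw [h] at hξ
          exact absurd hξ hδd
        · rw [hap ξ h] at h7
          exact h5 ξ hξ h7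
    · obtain ⟨γ1, h5⟩ := ht.bdd
      obtain ⟨γ', h6⟩ := exists_gt_Ik hκ γ
      refine ⟨max γ1 γ', fun ξ h7 => ?_⟩
      by_cases h : ξ = γ
      · rw [h]
        exact h6.trans_le (le_max_right _ _)
      · rw [hap ξ h] at h7
        exact (h5 ξ h7).trans_le (le_max_left _ _)
    · by_cases h : ξ = γ
      · subst h
        rw [Function.update_self] at hx
        simp only [Option.some.injEq, Prod.mk.injEq] at hx
        obtain ⟨rfl, rfl⟩ := hx
        exact ⟨fun d hd hξ => ⟨((a.2.code _ _ _ hax).1 d hd hξ).1,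
          hz.trans ((S.val _ hγ c0).b_lt d hd hξ)⟩, hz⟩
      · rw [hap ξ h] at hx
        exact ht.code ξ c x hx
  have hres : ∀ ξ ≤ γ, SZ.res ξ (Function.update t γ (some (c0, z))) = SZ.res ξ t := by
    intro ξ hξ
    funext η
    by_cases h : η < ξ
    · rw [res_of_lt _ h, res_of_lt _ h, hap η (h.trans_le hξ).ne]
    · rw [res_of_le _ (not_lt.1 h), res_of_le _ (not_lt.1 h)]
  obtain ⟨w, hw⟩ : ∃ w : S.RR, w.1 = Function.update t γ (some (c0, z)) := ⟨⟨_, hok⟩, rfl⟩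
  have key : ∀ a : S.RR, S.Low γ a → ∀ x, a.1 γ = some (c0, x) → Le S.W t (SZ.res γ a.1) →
      t ∈ (S.W γ c0).rel z x → w ≤ a := by
    intro a ha x hax h1 h3 ξ c x' hx
    rcases lt_trichotomy ξ γ with h | h | h
    · obtain ⟨x'', h5, h6⟩ := h1 ξ c x' (res_eq_some.2 ⟨h, hx⟩)
      refine ⟨x'', by rw [hw, hap ξ h.ne]; exact h5, ?_⟩
      rw [hw, hres ξ h.le]
      exact h6
    · subst h
      rw [hax] at hx
      simp only [Option.some.injEq, Prod.mk.injEq] at hx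
      obtain ⟨rfl, rfl⟩ := hx
      refine ⟨z, by rw [hw, Function.update_self], ?_⟩
      rw [hw, hres ξ le_rfl, htr]
      exact h3
    · exact absurd (ha ξ (by rw [hx]; simp)) (not_le.2 h)
  exact ⟨w, key a ha x hax h1 h3, key b hb y hby h2 h4⟩

/-- a maximal antichain in a set of conditions -/
theorem exists_max_antichain {R : Type} [Preorder R] (B : Set R) : ∃ Z ⊆ B,
    (∀ a ∈ Z, ∀ b ∈ Z, a ≠ b → ¬ ∃ w, w ≤ a ∧ w ≤ b) ∧
    ∀ a ∈ B, ∃ z ∈ Z, ∃ w, w ≤ a ∧ w ≤ z := by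
  obtain ⟨Z, hZ⟩ := zorn_subset {Z : Set R | Z ⊆ B ∧ ∀ a ∈ Z, ∀ b ∈ Z, a ≠ b →
      ¬ ∃ w, w ≤ a ∧ w ≤ b} (by
    intro C hC hch
    refine ⟨⋃₀ C, ⟨Set.sUnion_subset fun Z hZ => (hC hZ).1, ?_⟩, fun Z hZ =>
      Set.subset_sUnion_of_mem hZ⟩
    rintro a ⟨Z, hZ, ha⟩ b ⟨Z', hZ', hb⟩ hne
    rcases hch.total hZ hZ' with h | h
    · exact (hC hZ').2 a (h ha) b hb hne
    · exact (hC hZ).2 a ha b (h hb) hne)
  refine ⟨Z, hZ.prop.1, hZ.prop.2, fun a ha => ?_⟩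
  by_contra hcon
  have h1 : insert a Z ∈ {Z : Set R | Z ⊆ B ∧ ∀ a ∈ Z, ∀ b ∈ Z, a ≠ b →
      ¬ ∃ w, w ≤ a ∧ w ≤ b} := by
    refine ⟨Set.insert_subset ha hZ.prop.1, ?_⟩
    rintro b (rfl | hb) c (rfl | hc) hne
    · exact absurd rfl hne
    · rintro ⟨w, h1, h2⟩
      exact hcon ⟨c, hc, w, h1, h2⟩
    · rintro ⟨w, h1, h2⟩
      exact hcon ⟨b, hb, w, h2, h1⟩
    · exact hZ.prop.2 b hb c hc hne
  have h2 := hZ.le_of_ge h1 (Set.subset_insert a Z)
  have h3 : a ∈ Z := h2 (Set.mem_insert a Z)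
  exact hcon ⟨a, h3, a, le_rfl, le_rfl⟩

theorem cat_low_self {S : Sys κ} (hκ : κ.IsInaccessible) (γ : Ik κ) (g : S.RR) :
    S.cat γ (S.low hκ γ g) g = g := by
  refine Subtype.ext (funext fun η => ?_)
  rcases le_or_gt η γ with h | h
  · rw [Sys.cat_apply_of_le _ _ h, Sys.low_apply hκ _ h]
  · rw [Sys.cat_apply_of_lt _ _ h]

theorem low_cat {S : Sys κ} (hκ : κ.IsInaccessible) {γ : Ik κ} {a : S.RR} (ha : S.Low γ a)
    (g : S.RR) : S.low hκ γ (S.cat γ a g) = a := by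
  have h1 : ∀ g : S.RR, ∀ η, γ < η → (S.low hκ γ g).1 η = none := fun g η h => by
    by_contra hc
    exact absurd (Sys.low_low hκ γ g η hc) (not_le.2 h)
  refine Subtype.ext (funext fun η => ?_)
  rcases le_or_gt η γ with h | h
  · rw [Sys.low_apply hκ _ h, Sys.cat_apply_of_le _ _ h]
  · rw [h1 _ _ h]
    by_contra hc
    exact absurd (ha η fun h => hc h.symm) (not_le.2 h)

theorem exists_codes {ν : Cardinal.{0}} (hν : ν < κ) (T : Type) [Nonempty T] (hT : #T ≤ ν) :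
    ∃ h : Ik κ → T, ∀ t, ∃ c, #(Iio c) < Order.succ ν ∧ h c = t := by
  classical
  obtain ⟨k, hk⟩ := exists_mk_Iio hν
  obtain ⟨e⟩ : #T ≤ #(Iio k) := by rw [hk]; exact hT
  refine ⟨fun c => Function.invFun (fun t => (e t).1) c, fun t => ⟨(e t).1, ?_, ?_⟩⟩
  · refine Order.lt_succ_of_le ?_
    rw [← hk]
    exact mk_le_mk_of_subset (Iio_subset_Iio (show (e t).1 < k from (e t).2).le)
  · exact Function.leftInverse_invFun (f := fun t => (e t).1)
      (fun t t' h => e.injective (Subtype.ext h)) t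

theorem powSmall (h2 : StmtC2) (hκ : κ.IsInaccessible) (S : Sys κ) {Θ : Type}
    (N : NOrd S.RR Θ) (hN : NClosed κ N) : PowSmall κ (Two N) := by
  classical
  intro γ hγ q
  obtain ⟨r', hr', hne⟩ := exists_ext hκ S hγ q.1
  obtain ⟨⟨c0, x0⟩, hcx⟩ := Option.ne_none_iff_exists'.1 hne
  obtain ⟨n, hn0⟩ := (S.val γ hγ c0).card
  set A : Set S.RR := {a : S.RR | S.Low γ a ∧ a ≤ S.low hκ γ r'} with hA
  have hcode : ∀ a ∈ A, ∃ x, a.1 γ = some (c0, x) := by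
    rintro a ⟨ha1, ha2⟩
    obtain ⟨y, h3, _⟩ := ha2 γ c0 x0 (by rw [Sys.low_apply hκ _ le_rfl]; exact hcx)
    exact ⟨y, h3⟩
  have hn : #A ≤ plus (2 ^ #(Iio γ)) n := mk_le_of hγ A c0 n hn0 (fun a ha => ha.1) hcode
  have hcompat : ∀ Z ⊆ A, (∀ a ∈ Z, ∀ b ∈ Z, a ≠ b → ¬ ∃ w, w ≤ a ∧ w ≤ b) → #Z ≤ #(Iio γ) := by
    intro Z hZA hZ
    by_contra hcon
    have h3 : ∀ a : Z, ∃ x, a.1.1 γ = some (c0, x) := fun a => hcode a.1 (hZA a.2)
    choose x hx using h3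
    obtain ⟨a, b, hab, t, ht1, ht2, ht3, ht4, z, hz, ht5, ht6⟩ := (S.val γ hγ c0).cc Z
      (fun a => (SZ.res γ a.1.1, x a)) (not_le.1 hcon)
      (fun a => ⟨a.1.2.res γ, res_res _ le_rfl, (a.1.2.code _ _ _ (hx a)).2⟩)
    exact hZ a.1 a.2 b.1 b.2 (fun h => hab (Subtype.ext h))
      (exists_glue hκ S hγ (hZA a.2).1 (hZA b.2).1 (hx a) (hx b) ht1 ht2 ht3 ht4 hz ht5 ht6)
  have hgi : ℵ₀ ≤ #(Iio γ) := hγ.aleph0_lt.le
  have hgκ : #(Iio γ) < κ := mk_Iio_lt' γ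
  have hg2 : (2 : Cardinal) ^ #(Iio γ) < κ := hκ.isStrongLimit.isStrongPrelimit hgκ
  have hle : ∀ m, #(Iio γ) ≤ plus (2 ^ #(Iio γ)) m := fun m => (cantor _).le.trans (le_plus _ m)
  have hinf : ∀ m, ℵ₀ ≤ plus (2 ^ #(Iio γ)) m := fun m => hgi.trans (hle m)
  obtain ⟨h, hh⟩ := exists_codes (κ := κ) (ν := plus (2 ^ #(Iio γ)) n) (plus_lt hκ hg2 _)
    (Iio γ → Iio γ → Option A) (by
      rw [mk_arrow, lift_id, lift_id, mk_arrow, lift_id, lift_id, ← power_mul, mk_option,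
        mul_eq_self hgi]
      calc (#A + 1) ^ #(Iio γ) ≤ plus (2 ^ #(Iio γ)) n ^ #(Iio γ) := by
            refine power_le_power_right ?_
            refine (add_le_add_left hn 1).trans ?_
            rw [add_one_eq (hinf n)]
        _ = plus (2 ^ #(Iio γ)) n := plus_pow hgi n)
  refine ⟨(r', q.2), ⟨hr', N.refl _ _⟩, n + 1, fun c β => {p | ∃ hβ : β < γ, ∃ i, ∃ a : A,
    h c ⟨β, hβ⟩ i = some a ∧ S.low hκ γ p.1 ≤ a.1}, fun Y q1 hq1 => ?_⟩
  -- the decisions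
  have hlowle : S.low hκ γ q1.1 ≤ S.low hκ γ r' := Sys.low_mono hκ hq1.1
  obtain ⟨g', hg'1, hg'2⟩ := h2 κ hκ S Θ N hN γ (plus (2 ^ #(Iio γ)) (n + 1))
    (fun d hd hd' => (plus_lt hd.inacc (hd.inacc.isStrongLimit.isStrongPrelimit
      (hd.init γ hd')) _).le) (plus_lt hκ hg2 _).le (hinf _)
    {a : S.RR | S.Low γ a ∧ a ≤ S.low hκ γ q1.1} ⟨_, S.low_low hκ γ q1.1, le_rfl⟩
    (fun a ha => ha.1) (fun a ha a' ha' hl => ⟨hl, ha'.trans ha.2⟩)
    (by
      refine lt_of_le_of_lt (mk_le_mk_of_subset (t := A) fun a ha => ⟨ha.1, ha.2.trans hlowle⟩) ?_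
      exact hn.trans_lt (Order.lt_succ _))
    (Iio γ) (fun β => {p : Two N | p ∈ meets (Y β.1) ∨ p ∈ fnot (meets (Y β.1))})
    ((hle n).trans_lt (Order.lt_succ _))
    (by
      rintro β p (hp | hp) p' hp'
      · exact Or.inl (down_meets _ _ hp _ hp')
      · exact Or.inr (down_fnot _ _ hp _ hp'))
    (by
      intro β p
      by_cases hp : p ∈ fnot (meets (Y β.1))
      · exact ⟨p, le_rfl, Or.inr hp⟩
      · simp only [fnot, Set.mem_ofPred_eq, not_forall, not_not] at hp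
        obtain ⟨p', hp', h3⟩ := hp
        exact ⟨p', hp', Or.inl h3⟩)
    q1
  have hlow1 : S.Low γ (S.low hκ γ q1.1) := S.low_low hκ γ q1.1
  -- the antichains
  have hanti : ∀ β : Iio γ, ∃ f : Iio γ → Option A,
      (∀ i a, f i = some a → a.1 ≤ S.low hκ γ q1.1 ∧ S.catT N γ a.1 g' ∈ meets (Y β.1)) ∧
      ∀ a, S.Low γ a → a ≤ S.low hκ γ q1.1 → S.catT N γ a g' ∈ meets (Y β.1) →
        ∃ i z, f i = some z ∧ ∃ w, w ≤ a ∧ w ≤ z.1 := by
    intro β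
    obtain ⟨Z, hZB, hZ1, hZ2⟩ := exists_max_antichain
      {a : S.RR | S.Low γ a ∧ a ≤ S.low hκ γ q1.1 ∧ S.catT N γ a g' ∈ meets (Y β.1)}
    have hZA : Z ⊆ A := fun a ha => ⟨(hZB ha).1, (hZB ha).2.1.trans hlowle⟩
    obtain ⟨e⟩ : #Z ≤ #(Iio γ) := hcompat Z hZA hZ1
    refine ⟨fun i => if hi : ∃ z : Z, e z = i then some ⟨hi.choose.1, hZA hi.choose.2⟩ else none,
      ?_, ?_⟩
    · intro i a hia
      by_cases hi : ∃ z : Z, e z = i
      · simp only [dif_pos hi] at hia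
        have h3 : a.1 = hi.choose.1 := by
          rw [← Option.some.inj hia]
        rw [h3]
        exact (hZB hi.choose.2).2
      · simp only [dif_neg hi] at hia
        exact absurd hia (by simp)
    · intro a ha1 ha2 ha3
      obtain ⟨z, hz, w, hw⟩ := hZ2 a ⟨ha1, ha2, ha3⟩
      refine ⟨e ⟨z, hz⟩, ⟨z, hZA hz⟩, ?_, w, hw⟩
      have hi : ∃ z' : Z, e z' = e ⟨z, hz⟩ := ⟨_, rfl⟩
      simp only [dif_pos hi]
      have h3 : hi.choose = ⟨z, hz⟩ := e.injective hi.choose_spec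
      simp only [h3]
  choose fβ hfβ1 hfβ2 using hanti
  obtain ⟨c, hc, hc'⟩ := hh fβ
  have hq2 : S.catT N γ (S.low hκ γ q1.1) g' ≤ q1 :=
    (hg'1 _ ⟨hlow1, le_rfl⟩).trans (Sys.catT_le_right hκ le_rfl)
  have key : ∀ s : Two N, s ≤ S.catT N γ (S.low hκ γ q1.1) g' →
      S.low hκ γ s.1 ≤ S.low hκ γ q1.1 := fun s hs => by
    have h3 := Sys.low_mono hκ (α := γ) hs.1
    rw [show (S.catT N γ (S.low hκ γ q1.1) g').1 = S.cat γ (S.low hκ γ q1.1) g'.1 from rfl,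
      low_cat hκ hlow1] at h3
    exact h3
  refine ⟨S.catT N γ (S.low hκ γ q1.1) g', hq2, c, hc, fun β hβ r hr => ⟨fun hm => ?_,
    fun hm => ?_⟩⟩
  · intro s hs
    have hs2 := hs.trans hr
    obtain ⟨a', ha', h3, h4⟩ := hg'2 ⟨β, hβ⟩ (S.low hκ γ s.1)
      ⟨S.low_low hκ γ s.1, key s hs2⟩
    have h5 : S.catT N γ a' s ≤ s := Sys.catT_le_right hκ h3
    have h6 : S.catT N γ a' s ≤ S.catT N γ a' g' := Sys.catT_le_catT hκ hs2 h3
    have h7 : S.catT N γ a' g' ∈ meets (Y β) := by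
      rcases h4 with h4 | h4
      · exact h4
      · exact absurd (down_meets _ _ hm _ (h5.trans hs)) (h4 _ h6)
    obtain ⟨i, z, hiz, w, hw1, hw2⟩ := hfβ2 ⟨β, hβ⟩ a' ha'.1 ha'.2 h7
    -- a common lower bound on `[0, γ]`
    have hw3 : S.low hκ γ w ≤ S.low hκ γ a' := Sys.low_mono hκ hw1
    rw [Sys.low_eq hκ ha'.1] at hw3
    have hw4 : S.low hκ γ w ≤ S.low hκ γ z.1 := Sys.low_mono hκ hw2
    rw [Sys.low_eq hκ z.2.1] at hw4
    have h8 : S.low hκ γ (S.catT N γ (S.low hκ γ w) s).1 = S.low hκ γ w :=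
      low_cat hκ (S.low_low hκ γ w) s.1
    have h9 : S.catT N γ (S.low hκ γ w) s ≤ s := Sys.catT_le_right hκ (hw3.trans h3)
    refine ⟨S.catT N γ (S.low hκ γ w) s, h9, S.catT N γ (S.low hκ γ w) s,
      ⟨hβ, i, z, ?_, ?_⟩, le_rfl⟩
    · rw [hc']
      exact hiz
    · rw [h8]
      exact hw4
  · intro s hs
    obtain ⟨s', hs', s'', ⟨_, i, a, ha, h3⟩, h4⟩ := hm s hs
    rw [hc'] at ha
    have ha := hfβ1 _ i a ha
    have hs2 := (hs'.trans hs).trans hr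
    have h5 : S.low hκ γ s'.1 ≤ a.1 := (Sys.low_mono hκ h4.1).trans h3
    have h6 : s' ≤ S.catT N γ a.1 g' := by
      have h7 := Sys.catT_le_catT hκ hs2 (le_refl (S.low hκ γ s'.1))
      have h8 : S.catT N γ (S.low hκ γ s'.1) s' = s' := Prod.ext (cat_low_self hκ γ s'.1) rfl
      rw [h8] at h7
      exact h7.trans (Sys.catT_mono_left h5 g')
    obtain ⟨r1, hr1, r2, hr2, h9⟩ := ha.2 s' h6
    exact ⟨r1, hr1.trans hs', r2, hr2, h9⟩

end TC4

/-- job C4 -/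
theorem jobC4 : StmtC1 → StmtC2 → StmtC4 := fun h1 h2 _ hκ S _ N hN =>
  ⟨TC4.dirClosed h1 hκ S N hN, TC4.powSmall h2 hκ S N hN⟩

end Pool.Agent.Helper403.SZ
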