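import Mathlib
import Pool.Agent.Helper403_SZ.CDefs
import Pool.Agent.Helper669.KMain

set_option autoImplicit false

/-!
# The measure given by a reflection
-/

namespace Pool.Agent.Helper403.SZ

open Cardinal Set Pool.Agent.Helper669.Forcing Pool.Agent.Helper669.K Pool.Agent.W873.Tp
open Pool.Agent.W873.Vi

/-- job C6 -/
theorem jobC6 : StmtC6 := by
  intro κ hκ P M _ U hU cP hcP cN hcN α F hα hR
  classical
  -- the measure
  let V : (Ik κ → Set P) → Set P := fun Y =>
    {q | ∀ᶠ X in (U : Filter (Set M)), F X q ∈ meets (Y (α X))}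
  have hdown : ∀ Y, Down (V Y) := by
    intro Y q hq q' hle
    change ∀ᶠ X in (U : Filter (Set M)), F X q' ∈ meets (Y (α X))
    filter_upwards [hq, hR, hU.fine (cP q), hU.fine (cP q')] with X h1 h2 h3 h4
    exact down_meets _ _ h1 _ (h2.P2 q q' h3 h4 hle)
  -- closure under maps on conditions
  have hclos : ∀ G : P → P, ∀ᶠ X in (U : Filter (Set M)), ∀ q, cP q ∈ X → cP (G q) ∈ X := by
    intro G
    have h1 := hU.closed (fun a => if h : ∃ q, cP q = a then cP (G h.choose) else a)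
    filter_upwards [h1] with X h2 q hq
    have h3 := h2 _ hq
    have h : ∃ q', cP q' = cP q := ⟨q, rfl⟩
    rw [dif_pos h, hcP h.choose_spec] at h3
    exact h3
  have hdiag : ∀ Q : P → Set M → Prop, (∀ q, ∀ᶠ X in (U : Filter (Set M)), Q q X) →
      ∀ᶠ X in (U : Filter (Set M)), ∀ q, cP q ∈ X → Q q X := by
    intro Q hQ
    have h1 := hU.diag (Q := fun a X => ∀ q, cP q = a → Q q X) (fun a => by
      by_cases h : ∃ q, cP q = a
      · obtain ⟨q, rfl⟩ := h
        filter_upwards [hQ q] with X h2 q' hq'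
        rw [hcP hq']
        exact h2
      · exact Filter.Eventually.of_forall fun X q hq => absurd ⟨q, hq⟩ h)
    filter_upwards [h1] with X h2 q hq
    exact h2 _ hq q rfl
  -- regularity
  have hreg : ∀ Y q, q ∈ meets (V Y) → q ∈ V Y := by
    intro Y q hq
    have hex : ∀ s0 : P, ∃ s, s ≤ s0 ∧ (s0 ≤ q → s ∈ V Y) := by
      intro s0
      by_cases h : s0 ≤ q
      · obtain ⟨r, hr, s, hs, hle⟩ := hq s0 h
        exact ⟨r, hr, fun _ => hdown Y s hs r hle⟩
      · exact ⟨s0, le_rfl, fun h' => absurd h' h⟩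
    choose G hG1 hG2 using hex
    have h1 := hdiag (fun s X => s ∈ V Y → F X s ∈ meets (Y (α X))) (fun s => by
      by_cases h : s ∈ V Y
      · have h' : ∀ᶠ X in (U : Filter (Set M)), F X s ∈ meets (Y (α X)) := h
        filter_upwards [h'] with X h2 _
        exact h2
      · exact Filter.Eventually.of_forall fun X h' => absurd h' h)
    change ∀ᶠ X in (U : Filter (Set M)), F X q ∈ meets (Y (α X))
    filter_upwards [h1, hclos G, hR, hU.fine (cP q)] with X g1 g2 g3 g4
    refine meets_of_dense' fun w hw => ?_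
    obtain ⟨s0, hs0, hs0X, h⟩ := g3.P4 q g4 w hw
    obtain ⟨w', hw', hw''⟩ := h (G s0) (hG1 s0) (g2 s0 hs0X)
    exact ⟨w', hw', down_meets _ _ (g1 (G s0) (g2 s0 hs0X) (hG2 s0 hs0)) _ hw''⟩
  -- decisions
  have hdec : ∀ Y q, ∃ q' ≤ q, q' ∈ V Y ∨ ∀ᶠ X in (U : Filter (Set M)),
      F X q' ∈ fnot (meets (Y (α X))) := by
    intro Y q
    obtain ⟨i, rfl⟩ := hcN Y
    obtain ⟨a, ha⟩ := hU.const (Q := fun X a => ∃ q', cP q' = a ∧ q' ≤ q ∧
      (F X q' ∈ meets (cN i (α X)) ∨ F X q' ∈ fnot (meets (cN i (α X))))) (by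
        filter_upwards [hR, hU.fine i, hU.fine (cP q)] with X g1 g2 g3
        obtain ⟨q', h1, h2, h3⟩ := g1.P3 i g2 q g3
        exact ⟨cP q', h2, q', rfl, h1, h3.1⟩)
    obtain ⟨X0, q', rfl, hle, _⟩ := ha.exists
    refine ⟨q', hle, ?_⟩
    by_cases h : ∀ᶠ X in (U : Filter (Set M)), F X q' ∈ meets (cN i (α X))
    · exact Or.inl h
    · right
      filter_upwards [ha, Ultrafilter.eventually_not.2 h] with X g1 g2
      obtain ⟨q2, h2, _, h3⟩ := g1
      rw [hcP h2] at h3
      exact h3.resolve_left g2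
  refine ⟨V, fun q => ⟨?_, ?_, ?_, ?_⟩⟩
  · -- supersets
    intro Y Z
    refine mem_fimp.2 fun r _ h => ⟨r, le_rfl, meets_of_mem ?_⟩
    have h1 : r ∈ V Y := hreg Y r h.1
    change ∀ᶠ X in (U : Filter (Set M)), F X r ∈ meets (Z (α X))
    have h1' : ∀ᶠ X in (U : Filter (Set M)), F X r ∈ meets (Y (α X)) := h1
    filter_upwards [h1', hR, hU.fine (cP r)] with X g1 g2 g3
    refine meets_of_dense' fun w hw => ?_
    have h3 : w ∈ fimp (meets (Y (α X))) (meets (Z (α X))) :=
      down_fimp _ _ _ (h.2 (α X)) _ (hw.trans (g2.P1 r g3))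
    obtain ⟨w', hw', h4⟩ := mem_fimp.1 h3 w le_rfl (down_meets _ _ g1 _ hw)
    exact ⟨w', hw', h4⟩
  · -- ultra
    intro Y
    refine ⟨mem_fimp.2 fun r _ h => ⟨r, le_rfl, fun s hs hs' => ?_⟩,
      mem_fimp.2 fun r _ h => ?_⟩
    · have h1 : s ∈ V Y := hdown _ _ (hreg Y r h) _ hs
      have h2 : s ∈ V (nCompl Y) := hreg _ s hs'
      have h1' : ∀ᶠ X in (U : Filter (Set M)), F X s ∈ meets (Y (α X)) := h1
      have h2' : ∀ᶠ X in (U : Filter (Set M)), F X s ∈ meets (nCompl Y (α X)) := h2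
      obtain ⟨X, g1, g2⟩ := (h1'.and h2').exists
      exact meets_fnot (down_meets _) g2 _ le_rfl g1
    · obtain ⟨r', hr', h1 | h1⟩ := hdec Y r
      · exact absurd (meets_of_mem h1) (h r' hr')
      · refine ⟨r', hr', meets_of_mem ?_⟩
        change ∀ᶠ X in (U : Filter (Set M)), F X r' ∈ meets (nCompl Y (α X))
        filter_upwards [h1] with X g1
        exact meets_of_mem g1
  · -- completeness
    intro ν hν Y
    refine mem_fimp.2 fun r _ h => ⟨r, le_rfl, meets_of_mem ?_⟩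
    have h1 := hU.complete ν.out (fun i X => F X r ∈ meets (Y i (α X))) (by rwa [mk_out])
      (fun i => hreg (Y i) r (h i))
    change ∀ᶠ X in (U : Filter (Set M)), F X r ∈ meets (nInter Y (α X))
    filter_upwards [h1] with X g1
    exact meets_of_mem g1
  · -- no singletons
    intro a r hr h
    have h1 := hreg (fun b => {_p : P | b = a}) r h
    have h1q : ∀ᶠ X in (U : Filter (Set M)),
      F X r ∈ meets ({_p : P | α X = a}) := h1
    obtain ⟨X, g1, g2⟩ := (h1q.and (hα a)).exists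
    obtain ⟨_, _, s, hs, _⟩ := g1 _ le_rfl
    have h2 : α X = a := hs
    rw [h2] at g2
    exact lt_irrefl _ g2

end Pool.Agent.Helper403.SZ
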