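import Mathlib
import Pool.Agent.Helper403_SZ.BStmts

set_option autoImplicit false

/-!
# Adding elements to the generic sets
-/

namespace Pool.Agent.Helper403.SZ

open Cardinal Set Pool.Agent.Helper669.Forcing Pool.Agent.Helper669.K

namespace TB3

variable {κ : Cardinal.{0}} {L R I : Type} [LinearOrder L] [Preorder R]

theorem relW_empty (W : Wg κ L R I) {p s : BC κ L R I} (h1 : s.s = ∅) (h2 : s.E = ∅) (r : R) :
    r ∈ relW W p s := by
  have h3 : ∀ ξ β, Nm s ξ β = ∅ := by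
    intro ξ β
    ext u
    simp [Nm, h1]
  refine ⟨by rw [h2]; exact Set.empty_subset _, fun ξ β t _ => ⟨fun h => ?_, fun i hi => ?_⟩⟩
  · rw [h3] at h
    exact absurd h (not_meets_empty t)
  · rw [h2] at hi
    exact hi.elim

theorem mem_U {N : NOrd R (BC κ L R I)} {G : Set (BC κ L R I)}
    {U : (κ.ord.ToType → Set (Two (N.sub G))) → Set (Two (N.sub G))}
    (hU : ∀ q, q ∈ IsMeasure κ U) (c : κ.ord.ToType → Set (R × BC κ L R I))
    (q : Two (N.sub G)) : q ∈ meets (U fun β => AA U c β) := by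
  refine meets_of_dense' fun q' _ => ?_
  obtain ⟨r, hr, h | h⟩ := exists_decide' (U (cutName G c)) q'
  · obtain ⟨r', hr', h'⟩ := mem_fimp.1 ((hU r).1 (cutName G c) fun β => AA U c β) r le_rfl
      ⟨h, fun a => mem_fimp.2 fun s hs hsm =>
        ⟨s, le_rfl, meets_of_mem (Or.inl ⟨down_meets _ _ h _ hs, hsm⟩)⟩⟩
    exact ⟨r', hr'.trans hr, h'⟩
  · obtain ⟨r1, hr1, h1⟩ := mem_fimp.1 ((hU r).2.1 (cutName G c)).2 r le_rfl h
    obtain ⟨r', hr', h'⟩ := mem_fimp.1 ((hU r1).1 (nCompl (cutName G c)) fun β => AA U c β) r1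
      le_rfl ⟨h1, fun a => mem_fimp.2 fun s hs hsm =>
        ⟨s, le_rfl, meets_of_mem (Or.inr ⟨down_fnot _ _ h _ (hs.trans hr1),
          meets_fnot (down_meets _) hsm⟩)⟩⟩
    exact ⟨r', hr'.trans (hr1.trans hr), h'⟩

end TB3

open TB3 in
/-- job B3 -/
theorem jobB3 : StmtB2c → StmtB2d → StmtB3 := by
  intro h2c _ κ L R I _ _ _ hκ e b S r p ξ B hB
  classical
  have hκ0 : ℵ₀ ≤ κ := hκ.1.le
  -- the excluded points
  let B' : Set κ.ord.ToType := B ∪ {β | (ξ, Sum.inr β) ∈ p.E}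
  have hB' : #B' < κ := by
    refine (mk_union_le _ _).trans_lt (add_lt_of_lt hκ0 hB ?_)
    refine lt_of_le_of_lt ?_ p.hE
    refine mk_le_of_injective (f := fun β => ⟨(ξ, Sum.inr β.1), β.2⟩) ?_
    intro β β' h
    have := congrArg (fun x : p.E => x.1.2) h
    exact Subtype.ext (Sum.inr_injective this)
  have hinr : ∀ (t : R) (z : BC κ L R I) (β : κ.ord.ToType), β ∉ B' → ∀ β0,
      (ξ, Sum.inr β0) ∈ p.E → (t, z) ∈ S.W ξ (Sum.inr β0) β := by
    intro t z β hβ β0 h0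
    rw [S.inr]
    rintro rfl
    exact hβ (Or.inr h0)
  by_cases hgood : GoodSub (NW (cut S.W ξ) (goodW_cut fun η _ => S.good η)) ξ (b ξ)
  · obtain ⟨U, hU, hchar⟩ := S.inl ξ hgood
    have hF : #{i : I | (ξ, Sum.inl i) ∈ p.E} < κ := by
      refine lt_of_le_of_lt ?_ p.hE
      refine mk_le_of_injective (f := fun β => ⟨(ξ, Sum.inl β.1), β.2⟩) ?_
      intro β β' h
      have := congrArg (fun x : p.E => x.1.2) h
      exact Subtype.ext (Sum.inl_injective this)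
    obtain ⟨s0, hs0, hs1, hs2⟩ := hgood.emp
    let D : Set (Two ((NW (cut S.W ξ) (goodW_cut fun η _ => S.good η)).sub (b ξ))) :=
      {x | ∃ β, β ∉ B' ∧ ∀ i : {i : I | (ξ, Sum.inl i) ∈ p.E}, x ∈ meets (AA U (e i.1) β)}
    have hD : ((r, ⟨s0, hs0⟩) : Two ((NW (cut S.W ξ) (goodW_cut fun η _ => S.good η)).sub (b ξ)))
        ∈ meets D := by
      intro q _
      obtain ⟨q', hq', β, hβ, h⟩ := exists_point hκ0 hU hF (fun i β => AA U (e i.1) β) q
        (fun i => mem_U hU (e i.1) q) B' hB'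
      exact ⟨q', hq', q', ⟨β, hβ, h⟩, le_rfl⟩
    have hD2 := hgood.c2 D _ hD
    obtain ⟨y, hy, _, ⟨x, ⟨β, hβ, hx⟩, rfl⟩, hyx⟩ := hD2 (r, Cond.res ξ p)
      ⟨le_rfl, relW_empty _ hs1 hs2 r⟩
    have hz : Cond.res ξ (Cond.res ξ y.2) = Cond.res ξ y.2 := Cond.res_res le_rfl _
    have hxb : Cond.res ξ x.2.1 = x.2.1 := hgood.below _ x.2.2
    -- the restriction of `y`
    have hle1 : y.1 ∈ relW (cut S.W ξ) (Cond.res ξ y.2) (Cond.res ξ p) := by
      have h1 := relW_res (W := cut S.W ξ) hy.2 ξ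
      rw [Cond.res_res le_rfl] at h1
      exact h1
    have hle2 : y.1 ∈ relW (cut S.W ξ) (Cond.res ξ y.2) x.2.1 := by
      have h1 := relW_res (W := cut S.W ξ) hyx.2 ξ
      rw [hxb] at h1
      exact h1
    rw [relW_congr (W' := S.W) (ξ := ξ) (fun η hη => cut_of_lt S.W hη) (Cond.res_res le_rfl _) hz]
      at hle1
    refine ⟨y.1, hy.1, Cond.res ξ y.2, hz, β, fun h => hβ (Or.inl h), ?_⟩
    refine (h2c κ L R I hκ.1.le S.W S.good ξ (Cond.res ξ y.2) p y.1 {(β, y.1)}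
      (Set.finite_singleton _) hz hle1 ?_).1
    intro x' hx'
    rw [Set.mem_singleton_iff] at hx'
    subst hx'
    refine ⟨rfl, fun i hi => ?_⟩
    rcases i with i | β0
    · rw [hchar i β y.1 (Cond.res ξ y.2) hz]
      exact down_meets (P := Two (NW (cut S.W ξ) (goodW_cut fun η _ => S.good η))) _ _
        (hgood.c2 _ _ (hx ⟨i, hi⟩)) _ ⟨hyx.1, hle2⟩
    · exact hinr _ _ β hβ β0 hi
  · obtain ⟨β, hβ⟩ : ∃ β, β ∉ B' := by
      by_contra hc
      push Not at hc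
      have h1 : B' = Set.univ := Set.eq_univ_of_forall hc
      rw [h1, mk_univ, mk_ord_toType] at hB'
      exact lt_irrefl _ hB'
    refine ⟨r, le_rfl, Cond.res ξ p, Cond.res_res le_rfl _, β, fun h => hβ (Or.inl h), ?_⟩
    refine (h2c κ L R I hκ.1.le S.W S.good ξ (Cond.res ξ p) p r {(β, r)}
      (Set.finite_singleton _) (Cond.res_res le_rfl _) (relW_refl _ _ _) ?_).1
    intro x' hx'
    rw [Set.mem_singleton_iff] at hx'
    subst hx'
    refine ⟨rfl, fun i hi => ?_⟩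
    rcases i with i | β0
    · exact S.bad ξ hgood i β _
    · exact hinr _ _ β hβ β0 hi

end Pool.Agent.Helper403.SZ
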