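import Mathlib
import Pool.Agent.Helper403_SZ.CDefs
import Pool.Agent.Helper669.KMain

set_option autoImplicit false

/-!
# No fresh subsets of `κ`, from a reflection
-/

namespace Pool.Agent.Helper403.SZ

open Cardinal Set Pool.Agent.Helper669.Forcing Pool.Agent.Helper669.K Pool.Agent.W873.Tp
open Pool.Agent.W873.Vi

/-- job C7 -/
theorem jobC7 : StmtC7 := by
  intro κ hκ P M _ U hU cP hcP cN hcN α F hα hR Y q hq
  classical
  obtain ⟨i, rfl⟩ := hcN Y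
  obtain ⟨a, ha⟩ := hU.const (Q := fun X a => ∃ q', cP q' = a ∧ q' ≤ q ∧
    ∃ b, F X q' ∈ AgreeB (cN i) (α X) b) (by
      filter_upwards [hR, hU.fine i, hU.fine (cP q)] with X g1 g2 g3
      obtain ⟨q', h1, h2, h3⟩ := g1.P3 i g2 q g3
      refine ⟨cP q', h2, q', rfl, h1, ?_⟩
      rcases h3.2 with h4 | h4
      · exact h4
      · obtain ⟨q2, hq2, h5⟩ := hq (α X) (F X q') ((g1.P1 q' h2).trans h1)
        exact absurd h5 (h4 q2 hq2))
  obtain ⟨X0, qs, rfl, hle, _⟩ := ha.exists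
  have hex : ∀ X, ∃ b, (∃ b', F X qs ∈ AgreeB (cN i) (α X) b') →
      F X qs ∈ AgreeB (cN i) (α X) b := by
    intro X
    by_cases h : ∃ b', F X qs ∈ AgreeB (cN i) (α X) b'
    · obtain ⟨b, hb⟩ := h
      exact ⟨b, fun _ => hb⟩
    · exact ⟨∅, fun h' => absurd h' h⟩
  choose b hb using hex
  have hb' : ∀ᶠ X in (U : Filter (Set M)), F X qs ∈ AgreeB (cN i) (α X) (b X) := by
    filter_upwards [ha] with X g1
    obtain ⟨q', h1, _, h2⟩ := g1
    rw [hcP h1] at h2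
    exact hb X h2
  refine ⟨qs, hle, {β | ∀ᶠ X in (U : Filter (Set M)), β ∈ b X}, fun γ β _ => ⟨fun hβ q1 hq1 => ?_,
    fun hβ q1 hq1 hm => ?_⟩⟩
  · have hβ' : ∀ᶠ X in (U : Filter (Set M)), β ∈ b X := hβ
    obtain ⟨X, g1, g2, g3, g4, g5, g6⟩ := (hβ'.and (hb'.and ((hα β).and (hR.and
      ((hU.fine (cP qs)).and (hU.fine (cP q1))))))).exists
    have h1 : F X q1 ≤ F X qs := g4.P2 qs q1 g5 g6 hq1
    have h2 : F X q1 ∈ meets (cN i β) := down_meets _ _ ((g2 β g3).1 g1) _ h1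
    obtain ⟨r, hr, s, hs, hrs⟩ := h2 _ le_rfl
    exact ⟨r, hr.trans (g4.P1 q1 g6), s, hs, hrs⟩
  · have hβ' : ∀ᶠ X in (U : Filter (Set M)), β ∉ b X := Ultrafilter.eventually_not.2 hβ
    obtain ⟨X, g1, g2, g3, g4, g5, g6⟩ := (hβ'.and (hb'.and ((hα β).and (hR.and
      ((hU.fine (cP qs)).and (hU.fine (cP q1))))))).exists
    have h1 : F X q1 ≤ F X qs := g4.P2 qs q1 g5 g6 hq1
    exact (g2 β g3).2 g1 (F X q1) h1 (down_meets _ _ hm _ (g4.P1 q1 g6))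

end Pool.Agent.Helper403.SZ
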